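import Pool.Agent.Lib.QY.Blue
import Pool.Agent.Lib.QX.R_ASC

/-! Row ASC: ascent from level `j + 1` to level `j`. -/

namespace Pool.Agent.Lib.QY

open Finset Filter Pool.Agent.Lib.QX
open scoped BigOperators

theorem bASC (hNF : NFORM) (hS : SPLIT) (hT : TRI) (hA : ASCN) : ASC := by
  rintro j ρ φ δ hρ hφ hδ hφδ ⟨ε', hε', N', hLB⟩
  have hδ1 : δ < 1 := by linarith
  have hδ2 : δ ^ 2 < 1 := by nlinarith
  have hδ3 : 0 < δ ^ 2 := by positivity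
  obtain ⟨γ, hγ⟩ : ∃ γ : ℝ, γ = δ ^ 2 / (40000 * (((2 * j : ℕ) : ℝ) + 1)) := ⟨_, rfl⟩
  have hγ0 : 0 < γ := by rw [hγ]; positivity
  have hγ1 : (((2 * j : ℕ) : ℝ) + 1) * γ = δ ^ 2 / 40000 := by rw [hγ]; field_simp
  have hγ2 : γ ≤ δ ^ 2 / 40000 := by
    have : (0 : ℝ) ≤ ((2 * j : ℕ) : ℝ) * γ := by positivity
    linarith
  obtain ⟨ρ1, hρ1, hργ, ε1, hε1, b0, hA⟩ := hA (2 * j) φ δ ε' N' hφ hδ hφδ hε' γ hγ0
  obtain ⟨e, he, m0, hS⟩ := hS j (2 * j) (ε1 / 16) (by positivity)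
  obtain ⟨ε, hε, hεa, hεb⟩ : ∃ ε : ℝ, 0 < ε ∧ ε ≤ ε1 / 16 ∧ ε ≤ e * ρ / 2 :=
    ⟨min (ε1 / 16) (e * ρ / 2), lt_min (by positivity) (by positivity), min_le_left _ _,
      min_le_right _ _⟩
  obtain ⟨N0, hN0⟩ := eventually_atTop.1 ((RASCN.ev_lin (a := γ / 2) (by positivity) 1).and
    ((RASCN.ev_lin (a := δ ^ 2 / 40000) (by positivity) (3 * (((2 * j : ℕ) : ℝ) + 1))).and
    ((RASCN.ev_lin (a := ρ1 / 8) (by positivity) 1).and
    ((RASCN.ev_lin (a := 1 / 8) (by positivity) b0).and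
    ((RASCN.ev_lin (a := ε1 / 16) (by positivity)
      (4 * (((2 * j : ℕ) : ℝ) + 1) * 2 ^ (2 * j))).and
    ((RASCN.ev_exp (a := ε1 / 16) (by positivity) 8).and
    ((RASCN.ev_lin hρ m0).and
    (RASCN.ev_exp (a := e * ρ / 2) (by positivity) 2))))))))
  refine ⟨ε, hε, N0, ?_⟩
  intro ι κ _ _ _ _ k H A E _ _ _ v hk hH hN hM1 hM2 hoff hden hrep
  obtain ⟨l1, l2, l3, l4, l5, l6, l7, l8⟩ := hN0 _ hN
  obtain ⟨k0, hk0, c1, c2⟩ := RASC.light k (2 * j) hk γ hγ0.le (by linarith)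
  rw [hγ1] at c2
  have hM2' : (Fintype.card κ : ℝ) ≤ Fintype.card ι := by exact_mod_cast hM2
  set N : ℕ := Fintype.card ι with hNdef
  have hN0' : (0 : ℝ) ≤ N := by positivity
  have mN : ∀ {x y : ℝ}, x ≤ y → x * N ≤ y * N := fun h => mul_le_mul_of_nonneg_right h hN0'
  obtain ⟨m, m1, m2⟩ : ∃ m : ℕ, ρ1 * N / 4 ≤ m ∧ (m : ℝ) ≤ ρ1 * N / 4 + 1 :=
    ⟨⌈ρ1 * N / 4⌉₊, Nat.le_ceil _, (Nat.ceil_lt_add_one (by positivity)).le⟩
  have g1 := mN hργ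
  have g2 := mN hγ2
  have g3 := mN hδ2.le
  have g4 : 0 ≤ γ * N := by positivity
  have g5 := mN hεa
  have g6 := mN hεb
  have m3 : (m : ℝ) ≤ γ * N := by linarith
  obtain ⟨β, R, i1, i2, i3, i4, I, e1, e2, e3, e4, e5⟩ := hNF ι (κ → Y) E k (dT j) H (2 * j) k0 m
    A v hrep hk hk0 (by exact_mod_cast m3.trans c1)
  have e3' : (#{i | k0 ≤ k i} : ℝ) ≤
      4 * Fintype.card β + m + 3 * (((2 * j : ℕ) : ℝ) + 1) := by exact_mod_cast e3
  have e4' : (4 * Fintype.card β + m : ℝ) ≤ N := by exact_mod_cast e4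
  have g7 : e * (ρ * N) ≤ e * Fintype.card κ := mul_le_mul_of_nonneg_left hM1 he.le
  obtain ⟨κ', j1, j2, ψ, c, s1, s2, s3, s4, s5, s6⟩ := hS κ
    (fun f => 𝔼 y, 𝔼 a, ind (I.A y a f)) H hH
    (fun f => ⟨ex_nonneg fun _ => ex_nonneg fun _ => ind_nonneg _,
      ex_le fun _ => ex_le fun _ => ind_le_one _⟩)
    (by exact_mod_cast l7.trans hM1) (by
      have := RASCN.exp_step (C := 2) (u := e * Fintype.card κ) (v := ε * N)
        (w := e * ρ / 2 * N) (by linarith) (by linarith)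
      linarith)
  have s1' : (Fintype.card κ : ℝ) ≤ 24 * Fintype.card κ' := by exact_mod_cast s1
  have s2' : 12 * (Fintype.card κ' : ℝ) ≤ Fintype.card κ := by exact_mod_cast s2
  set b : ℕ := Fintype.card β with hbdef
  have hm0 : (0 : ℝ) ≤ m := by positivity
  have f1 : N - 3 * (δ ^ 2 / 40000 * N) ≤ 4 * b := by linarith
  have f2 : 3 / 16 * (N : ℝ) ≤ b := by linarith
  have f3 : ρ1 * (3 / 16 * N) ≤ ρ1 * b := mul_le_mul_of_nonneg_left f2 hρ1.le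
  have f4 : ρ1 * (4 * b) ≤ ρ1 * N := mul_le_mul_of_nonneg_left (by linarith) hρ1.le
  have f5 : ε1 * (3 / 16 * N) ≤ ε1 * b := mul_le_mul_of_nonneg_left f2 hε1.le
  have f6 : 0 ≤ ε1 * N := by positivity
  have h1 : ρ * (4 * b) ≤ ρ * N := mul_le_mul_of_nonneg_left (by linarith) hρ.le
  have h2 : ε1 / 16 * Fintype.card κ ≤ ε1 / 16 * N :=
    mul_le_mul_of_nonneg_left hM2' (by positivity)
  have h3 : (4 * 12 ^ j : ℝ) * (12 * Fintype.card κ') ≤ 4 * 12 ^ j * Fintype.card κ :=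
    mul_le_mul_of_nonneg_left s2' (by positivity)
  have h4 : (4 * 12 ^ (j + 1) * Fintype.card κ' : ℝ) = 4 * 12 ^ j * (12 * Fintype.card κ') := by
    ring
  have h5 : 0 ≤ ε1 / 16 * Fintype.card κ := by positivity
  rw [abs_le] at hoff e5
  obtain ⟨I', t1, t2, t3⟩ := hT j (ρ / 12) φ ε' N' (by positivity) hφ.le hε'.le hLB β R κ κ' E H I
    ψ c (3 / 16 * (ε1 * N)) hH s4
    (fun k k' h => ⟨(s5 k k' h).1, (s5 k k' h).2.1, by
      have := abs_le.1 (s5 k k' h).2.2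
      rw [e1, abs_le]
      constructor <;> linarith [this.1, this.2, hoff.1, hoff.2, e5.1, e5.2]⟩)
    (by
      rw [e1, abs_le]
      constructor <;> linarith [hoff.1, hoff.2, e5.1, e5.2])
    (by linarith) (by
      have : 2 * (Fintype.card κ' : ℝ) ≤ b := by linarith
      exact_mod_cast this)
  have hmain := hA β R (κ' → Y) E I' t2 (by
      have : (b0 : ℝ) ≤ b := by linarith
      exact_mod_cast this) (by rw [e1]; linarith) (by rw [e1]; linarith) (by rw [t1]; linarith)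
    (by rw [t1]; linarith) (t3 _ fun k hk => by
      have := RASCN.exp_step (C := 8) (u := ε1 * b) (v := ε * N) (w := ε1 / 16 * N)
        (by linarith) (by linarith)
      linarith [s6 k hk])
  refine le_trans ?_ hmain
  have f7 : (1 + δ ^ 2 / 10000) * N ≤ (N - 3 * (δ ^ 2 / 40000 * N)) * (1 + δ ^ 2 / 4096) := by
    have a1 : δ ^ 2 * (δ ^ 2 * N) ≤ 1 * (δ ^ 2 * N) :=
      mul_le_mul_of_nonneg_right hδ2.le (by positivity)
    have a2 : 0 ≤ δ ^ 2 * N := by positivity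
    linarith
  have f8 : (N - 3 * (δ ^ 2 / 40000 * N)) * (1 + δ ^ 2 / 4096) ≤ 4 * b * (1 + δ ^ 2 / 4096) :=
    mul_le_mul_of_nonneg_right f1 (by positivity)
  have f9 := mul_le_mul_of_nonneg_left (f7.trans f8) hφ.le
  linarith

end Pool.Agent.Lib.QY
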