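import Pool.Agent.Lib.QY.Blue
import Pool.Agent.Lib.QX.Main

namespace Pool.Agent.Lib.QY

open Finset Pool.Agent.Lib.QX
open scoped BigOperators

namespace HCORE

variable {J : ℕ} {β R T E : Type} [Fintype β] [DecidableEq β] [Fintype R] [DecidableEq R]
  [Fintype T] [NormedAddCommGroup E] [InnerProductSpace ℂ E]

theorem P_mono {I : Tri J β R T E} {x θ : ℝ} {r : ℕ} (C : QY.Conf I x θ r) {t t' : β → Bool}
    (h : ∀ B, t B = true → t' B = true) : C.P t ≤ C.P t' := by
  unfold QY.Conf.P Tri.spanF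
  apply Submodule.span_mono
  rintro _ ⟨g, f, h1, rfl⟩
  rw [RCORE.fam_sub _ _ _ h] at h1 ⊢
  exact ⟨_, f, h1, rfl⟩

end HCORE

theorem bCORE (hP : QY.PAIR) : QY.CORE := by
  have hS : SDEQ := st_SDEQ st_PUSH
  have hT : TR := st_TR
  have hA : AN := QX.an
  intro J φ δ ε εF N0 m0 hφ hδ hφδ hε hFR β R T E _ _ _ _ _ _ _ _ I x θ ζ r r2 hRk ⟨C⟩ hθ0 hθ1
    hζ0 hζ hd hr2 hm hxF hoff hb hN0 hoff2 hxε
  obtain ⟨W, i1, i2, F, hF1, hF2⟩ := hT E
  have hx : 0 < x := lt_of_le_of_lt (by positivity) hr2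
  have hpair := hP J φ ε εF N0 m0 hφ.le hε hFR β R T E I x θ r r2 C hRk hr2 hm hxF hoff hb hN0
    hoff2 hxε
  have hKr : (#C.K : ℝ) ≤ r := by exact_mod_cast C.hK
  have hr0 : (0 : ℝ) ≤ r := by positivity
  have hr20 : (0 : ℝ) ≤ r2 := by positivity
  have h2J : (0 : ℝ) ≤ 2 ^ J := by positivity
  -- lower bound for the ranks
  have low : ∀ t, C.Good t → φ * (Fintype.card β + cnt t) - 2 * φ * r ≤
      Module.finrank ℂ (C.P t) := by
    intro t ht
    have h1 := hRk 0 C.ω C.K (C.c 0) (pat0 t) C.a0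
      (by have := C.hK; omega) hN0 (by nlinarith) (by linarith [C.g0 t ht])
    rw [RCORE.nl_pat0] at h1
    change _ ≤ (Module.finrank ℂ (C.P t) : ℝ) at h1
    nlinarith
  -- the distance of two subspaces from a pair of witnesses
  have dist : ∀ (t t' : β → Bool) (L : ℝ), (∃ W1 W2 : Submodule ℂ E, W1 ⟂ C.P t ∧ W2 ⟂ C.P t' ∧
      W1 ⟂ W2 ∧ φ * (L - 4 * (r + 2 * r2)) ≤ Module.finrank ℂ W1 + Module.finrank ℂ W2) →
      (Module.finrank ℂ (C.P t) : ℝ) + Module.finrank ℂ (C.P t') -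
        2 * (4 * φ * Fintype.card β + ζ) + 2 * φ * (L - 4 * (r + 2 * r2)) ≤
        ‖F (C.P t) - F (C.P t')‖ ^ 2 := by
    rintro t t' L ⟨W1, W2, o1, o2, o3, hw⟩
    have := hF2 (C.P t) (C.P t') W1 W2 o1.symm o2.symm o3
    linarith
  have hard : ∀ t t', C.Good t → C.Good (sdf t t') →
      (Module.finrank ℂ (C.P t) : ℝ) + Module.finrank ℂ (C.P t') -
        2 * (4 * φ * Fintype.card β + ζ) + 2 * φ *
        ((6 * (Fintype.card β : ℝ) + hammingDist t t' - cnt t - cnt t') / 2 - 4 * (r + 2 * r2)) ≤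
        ‖F (C.P t) - F (C.P t')‖ ^ 2 := by
    intro t t' h1 h2
    obtain ⟨⟨d1, d2, d3, d4⟩, -⟩ := st_MENU β t t'
    refine dist t t' _ (hpair t t' (menu 1 t) (menu 2 (sdf t t')) (fun _ => True) _ d1 d2 d3
      (C.g1 t h1 1 (by decide)) (C.g1 _ h2 2 (by decide)) ?_ (fun τ _ => by linarith [d4 τ]))
    unfold QX.dens
    simp only [ind_pos trivial, ex_const]
    norm_num
  have soft : ∀ t t', C.Good t → C.Good t' →
      (Module.finrank ℂ (C.P t) : ℝ) + Module.finrank ℂ (C.P t') -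
        2 * (4 * φ * Fintype.card β + ζ) + 2 * φ *
        ((6 * (Fintype.card β : ℝ) + hammingDist t t' / 4 - cnt t - cnt t') / 2 -
          4 * (r + 2 * r2)) ≤ ‖F (C.P t) - F (C.P t')‖ ^ 2 := by
    intro t t' h1 h2
    obtain ⟨-, M1, M2, Typ, d1, d2, d3, l1, l2, hTy, d4⟩ := st_MENU β t t'
    refine dist t t' _ (hpair t t' M1 M2 Typ _ d1 d2 d3 ?_ ?_ hTy
      (fun τ hτ => by linarith [d4 τ hτ]))
    · have := C.g1 t h1 3 (by decide)
      unfold Tri.ssd at this ⊢
      simp only [hS β _ _ _ _ M1 (menu 3 t) l1]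
      exact this
    · have := C.g1 t' h2 4 (by decide)
      unfold Tri.ssd at this ⊢
      simp only [hS β _ _ _ _ M2 (menu 4 t') l2]
      exact this
  have hbot := RCORE.good_bot hθ1 (C.bad 0 le_rfl zero_le_one)
  have hη : 0 ≤ 2 * ζ + 12 * φ * (r + 2 * r2) := by positivity
  refine hA β W (fun t => F (C.P t)) (fun t => Module.finrank ℂ (C.P t)) C.Good φ δ _ θ hφ hδ
    hφδ hη hθ0 ?_ C.bad ?_ ?_ ?_ ?_ ?_
  · intro t B
    unfold dF
    apply hF1
    apply HCORE.P_mono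
    intro B' h
    by_cases e : B' = B
    · subst e; simp
    · rw [Function.update_of_ne e] at h ⊢
      exact h
  · intro t ht
    have := low t ht
    nlinarith [mul_nonneg hφ.le hr0, mul_nonneg hφ.le hr20]
  · intro t ht
    have e : sdf t t = fun _ => false := by
      funext B; simp [sdf]
    have := hard t t ht (e ▸ hbot)
    simp only [sub_self, norm_zero, hammingDist_self] at this
    push_cast at this
    nlinarith [mul_nonneg hφ.le hr0, mul_nonneg hφ.le hr20]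
  · intro t
    have : (Module.finrank ℂ (C.P t) : ℝ) ≤ Module.finrank ℂ E := by
      exact_mod_cast Submodule.finrank_le _
    linarith
  · intro t t' h1 h2 h3
    have := hard t t' h1 h3
    have a1 := low t h1
    have a2 := low t' h2
    nlinarith [mul_nonneg hφ.le hr0, mul_nonneg hφ.le hr20]
  · intro t t' h1 h2
    have := soft t t' h1 h2
    have a1 := low t h1
    have a2 := low t' h2
    nlinarith [mul_nonneg hφ.le hr0, mul_nonneg hφ.le hr20]

end Pool.Agent.Lib.QY
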