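import Pool.Agent.Lib.QY.Blue

/-! Row EMB: the gadget of twelve letters. -/

namespace Pool.Agent.Lib.QY

open Finset Pool.Agent.Lib.QX

namespace EMB

lemma a1 : ∀ (k : Fin 4) (y y' : Y),
    ∑ x, al (emb k y x) (emb k y' x) = 3 * al y y' + 18 * pa y y' := by decide +kernel

lemma a2 : ∀ (k : Fin 4) (y y' : Y), ∑ x, pa (emb k y x) (emb k y' x) = 12 * pa y y' := by
  decide +kernel

lemma a3 : ∀ (y y' : Y), ∀ p ∈ [((2 : Fin 4), (0 : Fin 4)), (3, 0), (2, 3)],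
    ∑ x, al (emb p.1 y x) (emb p.2 y' x) = 12 ∧ ∑ x, pa (emb p.1 y x) (emb p.2 y' x) = 6 := by
  decide +kernel

end EMB

theorem bEMB : EMB := by
  intro j g y y'
  simp only [hl_act]
  refine ⟨fun k => ?_, fun k k' h => ?_⟩
  · simp only [hl, sum_add_distrib, ← mul_sum, EMB.a1, EMB.a2, PW]
    ring
  · have h1 := EMB.a3 y y' (k, k') (by rcases h with ⟨rfl, rfl⟩ | ⟨rfl, rfl⟩ | ⟨rfl, rfl⟩ <;> simp)
    simp only [hl, sum_add_distrib, ← mul_sum, h1.1, h1.2]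
    have := PW_eq j
    rw [pow_succ]
    omega

end Pool.Agent.Lib.QY
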