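import Pool.Agent.Lib.QY.Blue
import Pool.Agent.Lib.QX.Fin

/-! Row FIN: from the bound without tags to quantum colourings. -/

namespace Pool.Agent.Lib.QY

open Finset Pool.Agent.Lib.QX
open scoped BigOperators
open Pool.Agent.Lib.MP_5d53d3_co Pool.Agent.Lib.QX.RFIN

namespace FIN

theorem big {φ ε : ℝ} {n H d : ℕ} (hH : n = 2 * H)
    (hL : ∀ (A : (Fin n → Bool) → Prop) (E : Type) [NormedAddCommGroup E] [InnerProductSpace ℂ E]
      [FiniteDimensional ℂ E] (v : (Fin n → Bool) → E), Real.exp (-(ε * n)) ≤ QX.dens A →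
      IsRep (fun _ => 0) H A v → φ * n ≤ Module.finrank ℂ E)
    (hn : 0 < n) (hd : 0 < d) (hdn : (d : ℝ) < φ * n) : Real.exp (ε * n) ≤ chiD (Omega n) d := by
  classical
  have hQ0 := exists_coloring (Omega n) d
  generalize chiD (Omega n) d = c at hQ0 ⊢
  obtain ⟨Q, hQ⟩ := hQ0
  by_contra hc
  have hc' := not_le.1 hc
  have : Nonempty (Fin d) := ⟨⟨0, hd⟩⟩
  have h1 : ∀ x : Fin n → Bool, ∃ k, Q (sgn x) k ≠ 0 := by
    intro x
    by_contra h
    push Not at h
    have h2 := hQ.2.1 (sgn x)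
    simp only [h, Finset.sum_const_zero] at h2
    exact zero_ne_one h2
  have h2 : 1 ≤ ∑ k : Fin c, QX.dens (fun x : Fin n → Bool => Q (sgn x) k ≠ 0) := by
    unfold QX.dens
    rw [← ex_sum]
    refine le_ex fun x => ?_
    obtain ⟨k, hk⟩ := h1 x
    have := Finset.single_le_sum (s := univ) (f := fun k : Fin c => ind (Q (sgn x) k ≠ 0))
      (fun k _ => ind_nonneg _) (mem_univ k)
    rwa [ind_pos hk] at this
  have h3 : ∃ k : Fin c, Real.exp (-(ε * n)) ≤
      QX.dens (fun x : Fin n → Bool => Q (sgn x) k ≠ 0) := by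
    by_contra h
    push Not at h
    have a1 : ∑ k : Fin c, QX.dens (fun x : Fin n → Bool => Q (sgn x) k ≠ 0) ≤
        ∑ _k : Fin c, Real.exp (-(ε * n)) := Finset.sum_le_sum fun k _ => (h k).le
    rw [Finset.sum_const, nsmul_eq_mul, Finset.card_univ, Fintype.card_fin] at a1
    have a2 : (c : ℝ) * Real.exp (-(ε * n)) < Real.exp (ε * n) * Real.exp (-(ε * n)) :=
      mul_lt_mul_of_pos_right hc' (Real.exp_pos _)
    rw [← Real.exp_add, add_neg_cancel, Real.exp_zero] at a2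
    linarith
  obtain ⟨k, hk⟩ := h3
  have h4 : ∀ x : Fin n → Bool, ∃ j : Fin d, Q (sgn x) k ≠ 0 → ∃ i, Q (sgn x) k i j ≠ 0 := by
    intro x
    by_cases h : Q (sgn x) k = 0
    · exact ⟨⟨0, hd⟩, fun h' => absurd h h'⟩
    · have : ∃ i j, Q (sgn x) k i j ≠ 0 := by
        by_contra h'
        push Not at h'
        exact h (Matrix.ext h')
      obtain ⟨i, j, hij⟩ := this
      exact ⟨j, fun _ => ⟨i, hij⟩⟩
  choose j hj using h4
  have h5 := hL (fun x => Q (sgn x) k ≠ 0) (EuclideanSpace ℂ (Fin d))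
    (fun x => WithLp.toLp 2 (fun i => Q (sgn x) k i (j x))) hk ⟨?_, ?_⟩
  · simp only [Fintype.card_fin, finrank_euclideanSpace] at h5
    linarith
  · intro x hx h
    obtain ⟨i, hi⟩ := hj x hx
    exact hi (congrFun (congrArg WithLp.ofLp h) i)
  · intro x y _ _ hxy
    have a1 := hQ.2.2 _ _ (adj_of_dw hH hn x y hxy) k
    have a2 := congrFun (congrFun a1 (j x)) (j y)
    rw [Matrix.mul_apply] at a2
    rw [PiLp.inner_apply]
    refine Eq.trans (Finset.sum_congr rfl fun i _ => ?_) a2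
    have a3 := (hQ.1 (sgn x) k).1.apply (j x) i
    rw [← a3]
    simp [mul_comm]

theorem half (H : ℕ) : dw (fun _ => 2 ^ 0) (fun _ : Fin (2 * H) => false)
    (fun i => decide ((i : ℕ) < H)) = H := by
  unfold dw
  have e : ∀ i : Fin (2 * H), (if false = decide ((i : ℕ) < H) then 0 else 2 ^ 0) =
      (fun m : ℕ => if m < H then 1 else 0) i := fun i => by
    by_cases h : (i : ℕ) < H <;> simp [h]
  rw [Finset.sum_congr rfl fun i _ => e i, Fin.sum_univ_eq_sum_range (fun m => if m < H then 1 else 0),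
    ← Finset.card_filter]
  have : (range (2 * H)).filter (fun m => m < H) = range H := by
    ext m
    simp only [mem_filter, mem_range]
    omega
  rw [this, card_range]

theorem two {H d : ℕ} (hH : 0 < H) (hd : 0 < d) : 2 ≤ chiD (Omega (2 * H)) d := by
  classical
  have hQ0 := exists_coloring (Omega (2 * H)) d
  generalize chiD (Omega (2 * H)) d = c at hQ0 ⊢
  obtain ⟨Q, hQ⟩ := hQ0
  have : Nonempty (Fin d) := ⟨⟨0, hd⟩⟩
  have ha := adj_of_dw rfl (by omega) _ _ (half H)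
  by_contra hc
  obtain rfl | rfl : c = 0 ∨ c = 1 := by omega
  · have h2 := hQ.2.1 (sgn fun _ => false)
    simp only [univ_eq_empty, sum_empty] at h2
    exact zero_ne_one h2
  · have h1 : ∀ x, Q x 0 = 1 := fun x => by simpa using hQ.2.1 x
    have h2 := hQ.2.2 _ _ ha 0
    rw [h1, h1, mul_one] at h2
    exact one_ne_zero h2

end FIN

theorem bFIN (hT : TOP) (δ : ℝ) (hδ : 0 < δ) : ∃ ε : ℝ, 0 < ε ∧ ∀ n d : ℕ, 0 < n → 4 ∣ n → 0 < d →
    (d : ℝ) ≤ (1 - δ) * n → Real.exp (ε * n) ≤ chiD (Omega n) d := by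
  obtain ⟨ε, hε, N0, hL⟩ := hT (δ / 2) (by linarith)
  have l2 : 0 < Real.log 2 := Real.log_pos one_lt_two
  refine ⟨min ε (Real.log 2 / (2 * N0 + 1)), lt_min hε (by positivity), ?_⟩
  rintro n d hn ⟨q, hq⟩ hd hdn
  obtain ⟨H, rfl, hE⟩ : ∃ H, n = 2 * H ∧ Even H := ⟨2 * q, by omega, even_two_mul q⟩
  have h0 : (0 : ℝ) < ((2 * H : ℕ) : ℝ) := by exact_mod_cast hn
  rcases le_or_gt N0 H with h | h
  · refine (Real.exp_le_exp.2 (mul_le_mul_of_nonneg_right (min_le_left _ _) h0.le)).trans ?_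
    refine FIN.big (φ := 1 - δ / 2) rfl (fun A E _ _ _ v h1 h2 => ?_) hn hd (by nlinarith)
    rw [Nat.cast_mul, Nat.cast_ofNat] at h1 ⊢
    exact hL H A E v hE h h1 h2
  · have h1 : ((2 * H : ℕ) : ℝ) ≤ 2 * N0 + 1 := by exact_mod_cast (by omega : 2 * H ≤ 2 * N0 + 1)
    have h2 : min ε (Real.log 2 / (2 * N0 + 1)) * ((2 * H : ℕ) : ℝ) ≤ Real.log 2 :=
      (mul_le_mul (min_le_right _ _) h1 h0.le (by positivity)).trans_eq
        (div_mul_cancel₀ _ (by positivity))
    refine (Real.exp_le_exp.2 h2).trans ?_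
    rw [Real.exp_log two_pos]
    exact_mod_cast FIN.two (by omega) hd

end Pool.Agent.Lib.QY
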