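import Pool.Agent.Lib.QY.Blue

/-! Powers of inner products as a Gram kernel. -/

namespace Pool.Agent.Lib.QY

open Finset Pool.Agent.Lib.QX
open scoped BigOperators

namespace GRAM

theorem pair {ι : Type} [Fintype ι] (a b : ι → ℂ) :
    ∑ p : ι × ι, (starRingEnd ℂ) (a p.1 * (starRingEnd ℂ) (a p.2)) *
        (b p.1 * (starRingEnd ℂ) (b p.2)) =
      ((‖∑ i, (starRingEnd ℂ) (a i) * b i‖ ^ 2 : ℝ) : ℂ) := by
  push_cast
  rw [← Complex.mul_conj', map_sum, sum_mul_sum, Fintype.sum_prod_type]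
  refine sum_congr rfl fun i _ => sum_congr rfl fun j _ => ?_
  simp only [map_mul, Complex.conj_conj]
  ring

theorem pow {P : Type} [Fintype P] (q : ℕ) (u v : P → ℂ) :
    ∑ f : Fin q → P, (starRingEnd ℂ) (∏ t, u (f t)) * ∏ t, v (f t) =
      (∑ p, (starRingEnd ℂ) (u p) * v p) ^ q := by
  classical
  have h := Finset.prod_univ_sum (fun _ : Fin q => (univ : Finset P))
    (fun _ p => (starRingEnd ℂ) (u p) * v p)
  rw [prod_const, card_univ, Fintype.card_fin, Fintype.piFinset_univ] at h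
  rw [h]
  refine sum_congr rfl fun f _ => ?_
  rw [map_prod, ← prod_mul_distrib]

end GRAM

theorem bGRAM : GRAM := by
  intro E _ _ _ q
  let b := stdOrthonormalBasis ℂ E
  refine ⟨Fin q → Fin (Module.finrank ℂ E) × Fin (Module.finrank ℂ E), inferInstance,
    fun e f => ∏ t, (inner ℂ (b (f t).1) e * (starRingEnd ℂ) (inner ℂ (b (f t).2) e)), ?_⟩
  intro e e'
  have h1 := GRAM.pow q
    (fun p : Fin (Module.finrank ℂ E) × Fin (Module.finrank ℂ E) =>
      (inner ℂ (b p.1) e * (starRingEnd ℂ) (inner ℂ (b p.2) e) : ℂ))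
    (fun p => (inner ℂ (b p.1) e' * (starRingEnd ℂ) (inner ℂ (b p.2) e') : ℂ))
  have h2 := GRAM.pair (fun i => (inner ℂ (b i) e : ℂ)) (fun i => (inner ℂ (b i) e' : ℂ))
  have h3 : ∑ i, (starRingEnd ℂ) (inner ℂ (b i) e : ℂ) * (inner ℂ (b i) e' : ℂ) =
      inner ℂ e e' := by
    rw [← b.sum_inner_mul_inner e e']
    exact sum_congr rfl fun i _ => by rw [inner_conj_symm]
  rw [h1, h2, h3, pow_mul]
  push_cast
  rfl

end Pool.Agent.Lib.QY
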