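import Pool.Agent.Lib.QY.Blue

/-! Row MAIN: iterating the ascent from the positivity bound. -/

namespace Pool.Agent.Lib.QY

open Finset Filter Topology Pool.Agent.Lib.QX

namespace MAIN

theorem mono {j : ℕ} {ρ φ ψ : ℝ} (h : ψ ≤ φ) (hL : LB j ρ φ) : LB j ρ ψ := by
  obtain ⟨ε, hε, N0, hL⟩ := hL
  refine ⟨ε, hε, N0, ?_⟩
  intro ι κ _ _ _ _ k H A E _ _ _ v a1 a2 a3 a4 a5 a6 a7 a8
  exact le_trans (mul_le_mul_of_nonneg_right h (Nat.cast_nonneg _))
    (hL ι κ k H A E v a1 a2 a3 a4 a5 a6 a7 a8)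

theorem small {ρ : ℝ} (hρ : 0 < ρ) (S : ℕ) :
    Real.exp (-(4 * (S : ℝ) + (3 + |Real.log ρ|))) ≤ ρ / 12 ^ S := by
  have h1 : (12 : ℝ) ≤ Real.exp 4 := by
    have h := Real.add_one_le_exp (1 : ℝ)
    have e : Real.exp 4 = Real.exp 1 ^ 4 := by rw [← Real.exp_nat_mul]; norm_num
    have h2 : (2 : ℝ) ^ 4 ≤ Real.exp 1 ^ 4 := pow_le_pow_left₀ (by norm_num) (by linarith) 4
    rw [e]
    linarith
  have h2 : (12 : ℝ) ^ S ≤ Real.exp (4 * (S : ℝ)) := by
    rw [mul_comm, Real.exp_nat_mul]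
    exact pow_le_pow_left₀ (by norm_num) h1 S
  have h3 : Real.exp (-(3 + |Real.log ρ|)) ≤ ρ := by
    refine le_trans (Real.exp_le_exp.2 ?_) (Real.exp_log hρ).le
    linarith [neg_abs_le (Real.log ρ)]
  have h4 : Real.exp (-(4 * (S : ℝ) + (3 + |Real.log ρ|))) * Real.exp (4 * (S : ℝ)) =
      Real.exp (-(3 + |Real.log ρ|)) := by
    rw [← Real.exp_add]
    exact congrArg Real.exp (by ring)
  rw [le_div_iff₀ (by positivity)]
  exact (mul_le_mul_of_nonneg_left h2 (Real.exp_pos _).le).trans (h4.le.trans h3)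

end MAIN

theorem bMAIN (hP : POS) (hA : ASC) : MAIN := by
  intro δ ρ hδ hρ
  by_cases hδ1 : 1 ≤ δ
  · refine ⟨1, one_pos, 0, ?_⟩
    intro ι κ _ _ _ _ k H A E _ _ _ v _ _ _ _ _ _ _ _
    exact le_trans (mul_nonpos_of_nonpos_of_nonneg (by linarith) (Nat.cast_nonneg _))
      (Nat.cast_nonneg _)
  have hδ1' := not_le.1 hδ1
  obtain ⟨c, hc, hP⟩ := hP
  obtain ⟨g, hg⟩ : ∃ g : ℝ, g = δ ^ 2 / 10000 := ⟨_, rfl⟩
  have hg0 : 0 < g := by rw [hg]; positivity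
  obtain ⟨a, ha⟩ : ∃ a : ℝ, a = 3 + |Real.log ρ| := ⟨_, rfl⟩
  have ha3 : 3 ≤ a := by rw [ha]; linarith [abs_nonneg (Real.log ρ)]
  obtain ⟨S, hS⟩ : ∃ S : ℕ, (4 * (S : ℝ) + a) ^ 2 ≤ c * (1 + g) ^ S := by
    have h1 := tendsto_pow_const_div_const_pow_of_one_lt 2 (r := 1 + g) (by linarith)
    have h2 := (h1.eventually (gt_mem_nhds (show (0 : ℝ) < c / 25 by positivity))).and
      (eventually_ge_atTop ⌈a⌉₊)
    obtain ⟨S, h3, h4⟩ := h2.exists
    refine ⟨S, ?_⟩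
    rw [div_lt_iff₀ (by positivity)] at h3
    have h5 : a ≤ S := Nat.ceil_le.1 h4
    have h6 : (4 * (S : ℝ) + a) ^ 2 ≤ (5 * (S : ℝ)) ^ 2 :=
      pow_le_pow_left₀ (by positivity) (by linarith) 2
    linarith [mul_pow (5 : ℝ) S 2]
  have hS0 : (0 : ℝ) ≤ S := Nat.cast_nonneg S
  have hL : 0 < 4 * (S : ℝ) + a := by linarith
  have step : ∀ i, i ≤ S → LB (S - i) (ρ / 12 ^ (S - i))
      (min (1 - δ) (c / (4 * (S : ℝ) + a) ^ 2 * (1 + g) ^ i)) := by
    intro i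
    induction i with
    | zero =>
      intro _
      refine MAIN.mono ?_ (hP S (ρ / 12 ^ S) (4 * (S : ℝ) + a) (by linarith)
        (ha ▸ MAIN.small hρ S))
      rw [pow_zero, mul_one]
      exact min_le_right _ _
    | succ i ih =>
      intro hi
      have h1 := ih (by omega)
      have e : S - i = S - (i + 1) + 1 := by omega
      rw [e, pow_succ (12 : ℝ), ← div_div] at h1
      have hp : 0 < c / (4 * (S : ℝ) + a) ^ 2 * (1 + g) ^ i := by positivity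
      refine MAIN.mono ?_ (hA _ _ _ δ (by positivity) (lt_min (by linarith) hp) hδ
        (min_le_left _ _) h1)
      rw [← hg, min_mul_of_nonneg _ _ (by linarith : (0 : ℝ) ≤ 1 + g), pow_succ (1 + g), mul_assoc]
      refine min_le_min ?_ le_rfl
      nlinarith
  have h := step S le_rfl
  rw [Nat.sub_self, pow_zero, div_one] at h
  refine MAIN.mono (le_min le_rfl ?_) h
  rw [div_mul_eq_mul_div, le_div_iff₀ (by positivity)]
  have : (0 : ℝ) ≤ (4 * (S : ℝ) + a) ^ 2 := by positivity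
  nlinarith

end Pool.Agent.Lib.QY
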