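import Pool.Agent.Lib.QY.Blue

/-! Row MIX: mixing of the residue of the tag distance, from the operator bound. -/

namespace Pool.Agent.Lib.QY

open Finset Pool.Agent.Lib.QX
open scoped BigOperators

namespace MIX

lemma amgm (u a T : ℂ) (l : ℝ) (hl : 0 < l) (hu : ‖u‖ = 1) :
    -(l * ‖a‖ ^ 2 / 2 + ‖T‖ ^ 2 / (2 * l)) ≤ (u * (starRingEnd ℂ) a * T).re := by
  have h1 : |(u * (starRingEnd ℂ) a * T).re| ≤ ‖a‖ * ‖T‖ := by
    refine (Complex.abs_re_le_norm _).trans (le_of_eq ?_)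
    rw [norm_mul, norm_mul, hu, one_mul, RCLike.norm_conj]
  have h2 : l * ‖a‖ ^ 2 / 2 + ‖T‖ ^ 2 / (2 * l) - ‖a‖ * ‖T‖ =
      (l * ‖a‖ - ‖T‖) ^ 2 / (2 * l) := by
    field_simp
    ring
  have h3 : 0 ≤ (l * ‖a‖ - ‖T‖) ^ 2 / (2 * l) := by positivity
  linarith [(abs_le.1 h1).1]

lemma term {X I : Type} [Fintype X] [Fintype I] (K : X → X → ℂ) (l : ℝ) (hl : 0 < l)
    (hK : ∀ b : X → ℂ, 𝔼 f, ‖𝔼 g, K f g * b g‖ ^ 2 ≤ l ^ 2 * 𝔼 g, ‖b g‖ ^ 2)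
    (a b : I → X → ℂ) (u : ℂ) (hu : ‖u‖ = 1) :
    -(l * ((𝔼 f, ∑ i, ‖a i f‖ ^ 2 + 𝔼 g, ∑ i, ‖b i g‖ ^ 2) / 2)) ≤
      𝔼 f, 𝔼 g, (u * K f g * ∑ i, (starRingEnd ℂ) (a i f) * b i g).re := by
  have h1 : ∀ f, 𝔼 g, (u * K f g * ∑ i, (starRingEnd ℂ) (a i f) * b i g).re =
      ∑ i, (u * (starRingEnd ℂ) (a i f) * 𝔼 g, K f g * b i g).re := by
    intro f
    rw [← Complex.re_expect, ← Complex.re_sum]
    congr 1
    simp only [mul_expect, mul_sum]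
    rw [expect_sum_comm]
    exact sum_congr rfl fun i _ => expect_congr rfl fun g _ => by ring
  simp only [h1]
  rw [expect_sum_comm, expect_sum_comm, expect_sum_comm, ← sum_add_distrib, sum_div, mul_sum,
    ← sum_neg_distrib]
  refine sum_le_sum fun i _ => ?_
  have h2 := hK (b i)
  have h3 : 𝔼 f, -(l * ‖a i f‖ ^ 2 / 2 + ‖𝔼 g, K f g * b i g‖ ^ 2 / (2 * l)) ≤
      𝔼 f, (u * (starRingEnd ℂ) (a i f) * 𝔼 g, K f g * b i g).re :=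
    expect_le_expect fun f _ => amgm _ _ _ l hl hu
  refine le_trans ?_ h3
  rw [expect_neg_distrib, expect_add_distrib, ← expect_div, ← expect_div, ← mul_expect]
  have h4 : (𝔼 f, ‖𝔼 g, K f g * b i g‖ ^ 2) / (2 * l) ≤ l * (𝔼 g, ‖b i g‖ ^ 2) / 2 := by
    rw [div_le_div_iff₀ (by positivity) (by norm_num)]
    nlinarith
  linarith

lemma filt (q : ℕ) (w : ℂ) (hw : IsPrimitiveRoot w q) (m : ℤ) :
    ∑ t ∈ range q, (w ^ m) ^ t = (((q : ℝ) * ind ((q : ℤ) ∣ m) : ℝ) : ℂ) := by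
  by_cases h : (q : ℤ) ∣ m
  · rw [ind_pos h, (hw.zpow_eq_one_iff_dvd m).2 h]
    simp
  · rw [ind_neg h]
    have h1 : w ^ m ≠ 1 := fun h' => h ((hw.zpow_eq_one_iff_dvd m).1 h')
    have h2 : (w ^ m) ^ q = 1 := by
      rw [← zpow_natCast, ← zpow_mul, mul_comm, zpow_mul, zpow_natCast, hw.pow_eq_one, one_zpow]
    have h3 := mul_geom_sum (w ^ m) q
    rw [h2, sub_self] at h3
    rw [(mul_eq_zero.1 h3).resolve_left (sub_ne_zero.2 h1)]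
    simp

lemma point (q : ℕ) (hq : q ≠ 0) (w : ℂ) (hw : IsPrimitiveRoot w q) (h' : ℤ) (S : ℕ) (P : ℂ) :
    (q : ℝ) * (ind (2 * (q : ℤ) ∣ h' + h' - ((2 * S : ℕ) : ℤ)) * P.re) =
      ∑ t ∈ range q, ((w ^ t) ^ (-h') * (w ^ t) ^ S * P).re := by
  have hw0 : w ≠ 0 := hw.ne_zero hq
  have h1 : ind (2 * (q : ℤ) ∣ h' + h' - ((2 * S : ℕ) : ℤ)) = ind ((q : ℤ) ∣ -h' + S) := by
    refine ind_congr ?_
    have : h' + h' - ((2 * S : ℕ) : ℤ) = 2 * -(-h' + S) := by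
      push_cast
      ring
    rw [this, mul_dvd_mul_iff_left (by norm_num : (2 : ℤ) ≠ 0), dvd_neg]
  have h2 : ∀ t : ℕ, (w ^ t) ^ (-h') * (w ^ t) ^ S = (w ^ (-h' + S)) ^ t := by
    intro t
    rw [zpow_add₀ hw0, mul_pow, zpow_natCast, ← pow_mul, ← pow_mul, mul_comm t S,
      ← zpow_natCast w t, ← zpow_mul, ← zpow_natCast (w ^ (-h')) t, ← zpow_mul, mul_comm (-h')]
  simp only [h2]
  rw [← Complex.re_sum, ← sum_mul, filt q w hw, h1, Complex.re_ofReal_mul, mul_assoc]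

end MIX

theorem bMIX (hOP : OP) : MIX := by
  intro j s κ I _ _ _ a b h hh
  obtain ⟨h', rfl⟩ := hh
  have hq : 2 ^ s ≠ 0 := by positivity
  obtain ⟨w, hw⟩ : ∃ w : ℂ, IsPrimitiveRoot w (2 ^ s) := ⟨_, Complex.isPrimitiveRoot_exp _ hq⟩
  have hpos : 0 < Real.exp (-(Fintype.card κ / (100 * 4 ^ s))) := Real.exp_pos _
  have hw1 : ‖w‖ = 1 := hw.norm'_eq_one hq
  have h1 : (2 : ℝ) ^ s * 𝔼 f : κ → Y, 𝔼 g : κ → Y,
      ind (2 * 2 ^ s ∣ h' + h' - dT j f g) * (∑ i, (starRingEnd ℂ) (a i f) * b i g).re =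
      ∑ t ∈ range (2 ^ s), 𝔼 f : κ → Y, 𝔼 g : κ → Y,
        ((w ^ t) ^ (-h') * (w ^ t) ^ (∑ i, hl j (f i) (g i)) *
          ∑ i, (starRingEnd ℂ) (a i f) * b i g).re := by
    rw [← expect_sum_comm, mul_expect]
    refine expect_congr rfl fun f _ => ?_
    rw [← expect_sum_comm, mul_expect]
    refine expect_congr rfl fun g _ => ?_
    rw [← MIX.point (2 ^ s) hq w hw]
    simp only [dT, Nat.cast_pow, Nat.cast_ofNat]
  rw [h1]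
  obtain ⟨p, hp⟩ := Nat.exists_eq_succ_of_ne_zero hq
  have hC : 0 ≤ Real.exp (-(Fintype.card κ / (100 * 4 ^ s))) *
      ((𝔼 f, ∑ i, ‖a i f‖ ^ 2 + 𝔼 g, ∑ i, ‖b i g‖ ^ 2) / 2) := by
    have e1 : 0 ≤ 𝔼 f, ∑ i, ‖a i f‖ ^ 2 := expect_nonneg fun f _ => by positivity
    have e2 : 0 ≤ 𝔼 g, ∑ i, ‖b i g‖ ^ 2 := expect_nonneg fun f _ => by positivity
    positivity
  have h2 : ∀ t ∈ range p, -(Real.exp (-(Fintype.card κ / (100 * 4 ^ s))) *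
      ((𝔼 f, ∑ i, ‖a i f‖ ^ 2 + 𝔼 g, ∑ i, ‖b i g‖ ^ 2) / 2)) ≤
      𝔼 f : κ → Y, 𝔼 g : κ → Y,
        ((w ^ (t + 1)) ^ (-h') * (w ^ (t + 1)) ^ (∑ i, hl j (f i) (g i)) *
          ∑ i, (starRingEnd ℂ) (a i f) * b i g).re := by
    intro t ht
    have ht' : t + 1 < 2 ^ s := by
      have := mem_range.1 ht
      omega
    have e1 : (w ^ (t + 1)) ^ 2 ^ s = 1 := by
      rw [← pow_mul, mul_comm, pow_mul, hw.pow_eq_one, one_pow]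
    have e2 : w ^ (t + 1) ≠ 1 := hw.pow_ne_one_of_pos_of_lt (Nat.succ_ne_zero t) ht'
    have e3 : ‖(w ^ (t + 1)) ^ (-h')‖ = 1 := by
      rw [norm_zpow, norm_pow, hw1, one_pow, one_zpow]
    have e4 := fun c : (κ → Y) → ℂ => hOP j s κ (w ^ (t + 1)) c e1 e2
    exact MIX.term (X := κ → Y) (fun f g => (w ^ (t + 1)) ^ (∑ i, hl j (f i) (g i))) _ hpos e4
      a b _ e3
  have h3 := sum_le_sum h2
  rw [sum_const, card_range, nsmul_eq_mul] at h3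
  have h4 : (2 : ℝ) ^ s = p + 1 := by exact_mod_cast hp
  rw [hp, sum_range_succ', h4]
  simp only [pow_zero, one_zpow, one_pow, one_mul]
  nlinarith

end Pool.Agent.Lib.QY
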