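import Pool.Agent.Lib.QY.Blue

/-! Row MIX3: three tags with given residues. -/

namespace Pool.Agent.Lib.QY

open Finset Pool.Agent.Lib.QX
open scoped BigOperators

namespace MIX3

/-- the mixing bound for two sets -/
theorem key (hM : MIX) (j s : ℕ) (κ : Type) [Fintype κ] [DecidableEq κ]
    (P Q : (κ → Y) → Prop) (h : ℤ) (hh : Even h) :
    dens P * dens Q - 2 ^ s * Real.exp (-(Fintype.card κ / (100 * 4 ^ s))) ≤
      2 ^ s * 𝔼 f, 𝔼 g, ind (2 * 2 ^ s ∣ h - dT j f g) * (ind (P f) * ind (Q g)) := by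
  have h1 := hM j s κ Unit (fun _ f => ((ind (P f) : ℝ) : ℂ)) (fun _ g => ((ind (Q g) : ℝ) : ℂ))
    h hh
  have e1 : ∀ f g : κ → Y, (∑ _i : Unit, (starRingEnd ℂ) ((ind (P f) : ℝ) : ℂ) *
      ((ind (Q g) : ℝ) : ℂ)).re = ind (P f) * ind (Q g) := by
    intro f g
    rw [Fintype.sum_unique, Complex.conj_ofReal, ← Complex.ofReal_mul, Complex.ofReal_re]
  have e2 : ∀ (R : (κ → Y) → Prop),
      𝔼 f : κ → Y, ∑ _i : Unit, ‖((ind (R f) : ℝ) : ℂ)‖ ^ 2 ≤ 1 := by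
    intro R
    refine ex_le fun f => ?_
    rw [Fintype.sum_unique, Complex.norm_real, Real.norm_eq_abs, sq_abs]
    have := ind_nonneg (R f)
    have := ind_le_one (R f)
    nlinarith
  simp only [e1] at h1
  have e3 : 𝔼 f : κ → Y, 𝔼 g : κ → Y, ind (P f) * ind (Q g) = dens P * dens Q := by
    unfold QX.dens
    simp only [ex_mul_left]
    rw [ex_mul_right]
  rw [e3] at h1
  have hp : (0 : ℝ) ≤ 2 ^ s * Real.exp (-(Fintype.card κ / (100 * 4 ^ s))) := by positivity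
  have h4 := mul_le_mul_of_nonneg_left (show ((𝔼 f : κ → Y, ∑ _i : Unit,
    ‖((ind (P f) : ℝ) : ℂ)‖ ^ 2) + 𝔼 g : κ → Y, ∑ _i : Unit, ‖((ind (Q g) : ℝ) : ℂ)‖ ^ 2) / 2 ≤ 1 by
      have := e2 P
      have := e2 Q
      linarith) hp
  linarith

/-- few tags see a small part of a dense set at the right residue -/
theorem bad (hM : MIX) (j s : ℕ) (κ : Type) [Fintype κ] [DecidableEq κ]
    (P : (κ → Y) → Prop) (h : ℤ) (hh : Even h) (x : ℝ) (hx : 0 < x) (hP : x ≤ dens P)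
    (hl : 2 ^ s * Real.exp (-(Fintype.card κ / (100 * 4 ^ s))) ≤ x ^ 2 / 100) :
    dens (fun g => dens (fun f => P f ∧ 2 * 2 ^ s ∣ h - dT j f g) < x / (2 * 2 ^ s)) ≤ x / 50 := by
  set Q : (κ → Y) → Prop :=
    fun g => dens (fun f => P f ∧ 2 * 2 ^ s ∣ h - dT j f g) < x / (2 * 2 ^ s) with hQ
  have h1 := key hM j s κ P Q h hh
  have hq : (0 : ℝ) < 2 ^ s := by positivity
  have h2 : 𝔼 f : κ → Y, 𝔼 g : κ → Y, ind (2 * 2 ^ s ∣ h - dT j f g) * (ind (P f) * ind (Q g)) ≤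
      x / (2 * 2 ^ s) * dens Q := by
    rw [ex_comm]
    unfold QX.dens
    rw [← ex_mul_left]
    refine ex_mono fun g => ?_
    by_cases hg : Q g
    · rw [ind_pos hg]
      simp only [mul_one]
      have h3 : 𝔼 f : κ → Y, ind (2 * 2 ^ s ∣ h - dT j f g) * ind (P f) =
          dens (fun f => P f ∧ 2 * 2 ^ s ∣ h - dT j f g) := by
        unfold QX.dens
        simp only [ind_and, mul_comm]
      rw [h3]
      exact le_of_lt hg
    · rw [ind_neg hg]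
      simp
  have h4 := mul_le_mul_of_nonneg_left h2 hq.le
  have h5 : (2 : ℝ) ^ s * (x / (2 * 2 ^ s) * dens Q) = x / 2 * dens Q := by
    field_simp
  have h6 := mul_le_mul_of_nonneg_right hP (dens_nonneg Q)
  have h7 : x * dens Q ≤ x * (x / 50) := by nlinarith
  exact le_of_mul_le_mul_left h7 hx

end MIX3

theorem bMIX3 (hM : MIX) : MIX3 := by
  intro j s κ _ _ B h x hx hB hh hl
  have hq : (1 : ℝ) ≤ 2 ^ s := one_le_pow₀ (by norm_num)
  have hE := Real.exp_pos (-(Fintype.card κ / (100 * 4 ^ s) : ℝ))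
  set lam := Real.exp (-(Fintype.card κ / (100 * 4 ^ s) : ℝ)) with hlam
  have h8 : (8 : ℝ) ^ s = 2 ^ s * 2 ^ s * 2 ^ s := by
    rw [← mul_pow, ← mul_pow]; norm_num
  set q : ℝ := 2 ^ s with hqd
  have hq0 : 0 < q := by linarith
  have hl1 : q * lam * (q * q) ≤ x ^ 2 / 100 := by
    rw [h8] at hl
    nlinarith
  have hl2 : q * lam ≤ x ^ 2 / 100 := by
    have h1 : 1 ≤ q * q := by nlinarith
    have h2 : 0 < q * lam := by positivity
    nlinarith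
  have b2 := MIX3.bad hM j s κ (B 2) (h 2 0) (hh 2 0) x hx (hB 2 (by decide)) hl2
  have b3 := MIX3.bad hM j s κ (B 3) (h 3 0) (hh 3 0) x hx (hB 3 (by decide)) hl2
  obtain ⟨a0, h0, h2, h3⟩ : ∃ a0, B 0 a0 ∧
      x / (2 * 2 ^ s) ≤ dens (fun f => B 2 f ∧ 2 * 2 ^ s ∣ h 2 0 - dT j f a0) ∧
      x / (2 * 2 ^ s) ≤ dens (fun f => B 3 f ∧ 2 * 2 ^ s ∣ h 3 0 - dT j f a0) := by
    by_contra hc
    have h1 : dens (B 0) ≤ dens (fun g =>
        dens (fun f => B 2 f ∧ 2 * 2 ^ s ∣ h 2 0 - dT j f g) < x / (2 * 2 ^ s) ∨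
        dens (fun f => B 3 f ∧ 2 * 2 ^ s ∣ h 3 0 - dT j f g) < x / (2 * 2 ^ s)) := by
      refine dens_mono fun g hg => ?_
      by_contra hn
      rw [not_or, not_lt, not_lt] at hn
      exact hc ⟨g, hg, hn.1, hn.2⟩
    have h2 := h1.trans (dens_or_le _ _)
    have h3 := hB 0 (by decide)
    linarith
  have k1 := MIX3.key hM j s κ (fun f => B 2 f ∧ 2 * 2 ^ s ∣ h 2 0 - dT j f a0)
    (fun f => B 3 f ∧ 2 * 2 ^ s ∣ h 3 0 - dT j f a0) (h 2 3) (hh 2 3)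
  have hy : 0 < x / (2 * q) := by positivity
  have k2 := mul_le_mul h2 h3 hy.le (hy.le.trans h2)
  have k3 : q * lam < x / (2 * q) * (x / (2 * q)) := by
    have e : x / (2 * q) * (x / (2 * q)) = x ^ 2 / 4 / (q * q) := by field_simp; ring
    rw [e, lt_div_iff₀ (by positivity)]
    have : 0 < x ^ 2 := by positivity
    linarith
  have k4 : 0 < 𝔼 f : κ → Y, 𝔼 g : κ → Y, ind (2 * 2 ^ s ∣ h 2 3 - dT j f g) *
      (ind (B 2 f ∧ 2 * 2 ^ s ∣ h 2 0 - dT j f a0) *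
        ind (B 3 g ∧ 2 * 2 ^ s ∣ h 3 0 - dT j g a0)) := by
    refine (mul_pos_iff_of_pos_left hq0).1 ?_
    linarith
  obtain ⟨a2, k5⟩ := exists_pos_of_ex_pos k4
  obtain ⟨a3, k6⟩ := exists_pos_of_ex_pos k5
  rw [← ind_and, ← ind_and] at k6
  obtain ⟨r23, ⟨m2, r2⟩, m3, r3⟩ := of_ind_pos k6
  refine ⟨![a0, a0, a2, a3], ?_, ?_⟩
  · intro k hk
    fin_cases k
    · exact h0
    · exact absurd rfl hk
    · exact m2
    · exact m3
  · rintro k k' (⟨rfl, rfl⟩ | ⟨rfl, rfl⟩ | ⟨rfl, rfl⟩)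
    · exact r2
    · exact r3
    · exact r23

end Pool.Agent.Lib.QY
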