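import Pool.Agent.Lib.QY.Blue

/-! The operator bound for one letter. -/

namespace Pool.Agent.Lib.QY

open Finset Pool.Agent.Lib.QX
open scoped BigOperators

namespace OP1

/-- Gram kernel -/
noncomputable def gr {Z : Type} [Fintype Z] (K : Z → Z → ℂ) (a c : Z) : ℂ :=
  ∑ y, (starRingEnd ℂ) (K y a) * K y c

lemma gr_symm {Z : Type} [Fintype Z] (K : Z → Z → ℂ) (a c : Z) : ‖gr K a c‖ = ‖gr K c a‖ := by
  have : gr K a c = (starRingEnd ℂ) (gr K c a) := by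
    unfold gr
    rw [map_sum]
    refine Finset.sum_congr rfl fun y _ => ?_
    rw [map_mul, Complex.conj_conj, mul_comm]
  rw [this, Complex.norm_conj]

lemma schur {Z : Type} [Fintype Z] (K : Z → Z → ℂ) (b : Z → ℂ) (C : ℝ)
    (h : ∀ a, ∑ c, ‖gr K a c‖ ≤ C) :
    ∑ y, ‖∑ a, K y a * b a‖ ^ 2 ≤ C * ∑ a, ‖b a‖ ^ 2 := by
  have h1 : ((∑ y, ‖∑ a, K y a * b a‖ ^ 2 : ℝ) : ℂ) =
      ∑ a, ∑ c, (starRingEnd ℂ) (b a) * b c * gr K a c := by
    push_cast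
    have h2 : ∀ y, ((‖∑ a, K y a * b a‖ : ℝ) : ℂ) ^ 2 =
        ∑ a, ∑ c, (starRingEnd ℂ) (b a) * b c * ((starRingEnd ℂ) (K y a) * K y c) := by
      intro y
      rw [← Complex.conj_mul', map_sum, Finset.sum_mul_sum]
      refine Finset.sum_congr rfl fun a _ => Finset.sum_congr rfl fun c _ => ?_
      rw [map_mul]; ring
    simp only [h2]
    rw [Finset.sum_comm]
    refine Finset.sum_congr rfl fun a _ => ?_
    rw [Finset.sum_comm]
    refine Finset.sum_congr rfl fun c _ => ?_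
    unfold gr
    rw [Finset.mul_sum]
  have h3 : ∑ y, ‖∑ a, K y a * b a‖ ^ 2 ≤
      ∑ a, ∑ c, (‖b a‖ ^ 2 / 2 * ‖gr K a c‖ + ‖b c‖ ^ 2 / 2 * ‖gr K c a‖) := by
    have h4 : ∑ y, ‖∑ a, K y a * b a‖ ^ 2 ≤ ‖((∑ y, ‖∑ a, K y a * b a‖ ^ 2 : ℝ) : ℂ)‖ := by
      rw [Complex.norm_real]; exact le_abs_self _
    refine h4.trans ?_
    rw [h1]
    refine (norm_sum_le _ _).trans (Finset.sum_le_sum fun a _ => ?_)
    refine (norm_sum_le _ _).trans (Finset.sum_le_sum fun c _ => ?_)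
    rw [norm_mul, norm_mul, Complex.norm_conj, gr_symm K c a]
    have := norm_nonneg (gr K a c)
    nlinarith [mul_nonneg this (sq_nonneg (‖b a‖ - ‖b c‖))]
  refine h3.trans ?_
  simp only [Finset.sum_add_distrib]
  rw [Finset.sum_comm (f := fun a c => ‖b c‖ ^ 2 / 2 * ‖gr K c a‖), ← Finset.sum_add_distrib,
    Finset.mul_sum]
  refine Finset.sum_le_sum fun a _ => ?_
  rw [← Finset.mul_sum]
  nlinarith [mul_le_mul_of_nonneg_left (h a) (sq_nonneg ‖b a‖)]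

lemma pow_sub (x : ℂ) (hx : ‖x‖ = 1) (n : ℕ) : ‖1 - x ^ n‖ ≤ n * ‖1 - x‖ := by
  induction n with
  | zero => simp
  | succ n ih =>
    have h : 1 - x ^ (n + 1) = (1 - x ^ n) + x ^ n * (1 - x) := by ring
    have h2 := norm_add_le (1 - x ^ n) (x ^ n * (1 - x))
    rw [norm_mul, norm_pow, hx, one_pow, one_mul] at h2
    rw [h]; push_cast; linarith

lemma geom_sub (x : ℂ) (hx : ‖x‖ = 1) (n : ℕ) :
    ‖(n : ℂ) - ∑ i ∈ range n, x ^ i‖ ≤ (n : ℝ) ^ 2 / 2 * ‖1 - x‖ := by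
  induction n with
  | zero => simp
  | succ n ih =>
    have h : ((n + 1 : ℕ) : ℂ) - ∑ i ∈ range (n + 1), x ^ i =
        ((n : ℂ) - ∑ i ∈ range n, x ^ i) + (1 - x ^ n) := by
      rw [Finset.sum_range_succ]; push_cast; ring
    have h2 := norm_add_le ((n : ℂ) - ∑ i ∈ range n, x ^ i) (1 - x ^ n)
    have h3 := pow_sub x hx n
    have h4 := norm_nonneg (1 - x)
    rw [h]; push_cast; nlinarith

lemma gap (x : ℂ) (q : ℕ) (hq : 0 < q) (h : x ^ q = 1) (h1 : x ≠ 1) :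
    2 ≤ (q : ℝ) ^ 2 * (1 - x.re) := by
  have hx : ‖x‖ = 1 := Complex.norm_eq_one_of_pow_eq_one h hq.ne'
  have h0 : ∑ i ∈ range q, x ^ i = 0 := by
    have h2 := geom_sum_mul x q
    rw [h, sub_self] at h2
    exact (mul_eq_zero.1 h2).resolve_right (sub_ne_zero.2 h1)
  have h3 := geom_sub x hx q
  rw [h0, sub_zero, Complex.norm_natCast] at h3
  have hq' : (0 : ℝ) < q := by exact_mod_cast hq
  have h4 : 2 ≤ (q : ℝ) * ‖1 - x‖ := by
    by_contra hc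
    push Not at hc
    nlinarith
  have h5 : ‖1 - x‖ ^ 2 = 2 * (1 - x.re) := by
    have h6 : ‖x‖ ^ 2 = 1 := by rw [hx]; norm_num
    rw [Complex.sq_norm, Complex.normSq_apply] at h6 ⊢
    simp only [Complex.sub_re, Complex.one_re, Complex.sub_im, Complex.one_im]
    nlinarith
  have h7 : (2 : ℝ) ^ 2 ≤ ((q : ℝ) * ‖1 - x‖) ^ 2 := pow_le_pow_left₀ (by norm_num) h4 2
  rw [mul_pow, h5] at h7
  nlinarith

lemma act_sum (x c : ℂ) (hc : c * x = 1) (a : Y) :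
    ∑ y : Y, c ^ al y a * x ^ al y (a.1 + 1, a.2) = 4 + 4 * (x + c) := by
  rcases a with ⟨l, s, p⟩
  fin_cases l <;> cases s <;>
    simp [Fintype.sum_prod_type, Fin.sum_univ_three, al] <;>
    linear_combination (2 * c + 2 * x + 4) * hc

lemma row (j : ℕ) (θ : ℂ) (hθ : ‖θ‖ = 1) (a : Y) :
    ∑ c, ‖gr (fun y y' : Y => θ ^ hl j y y') a c‖ ≤ 144 - 4 * (1 - (θ ^ 3 ^ j).re) := by
  have hx : ‖θ ^ 3 ^ j‖ = 1 := by rw [norm_pow, hθ, one_pow]
  have h1 : ∀ c, ‖gr (fun y y' : Y => θ ^ hl j y y') a c‖ ≤ 12 := by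
    intro c
    unfold gr
    refine (norm_sum_le _ _).trans ?_
    simp [hθ]
  have h2 : gr (fun y y' : Y => θ ^ hl j y y') a (a.1 + 1, a.2) =
      ((4 + 8 * (θ ^ 3 ^ j).re : ℝ) : ℂ) := by
    have hu : ∀ z : ℂ, ‖z‖ = 1 → (starRingEnd ℂ) z * z = 1 := by
      intro z hz
      rw [Complex.conj_mul', hz]; norm_num
    have h3 := act_sum (θ ^ 3 ^ j) ((starRingEnd ℂ) (θ ^ 3 ^ j)) (hu _ hx) a
    rw [Complex.add_conj] at h3
    have h4 : gr (fun y y' : Y => θ ^ hl j y y') a (a.1 + 1, a.2) =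
        ∑ y : Y, (starRingEnd ℂ) (θ ^ 3 ^ j) ^ al y a * (θ ^ 3 ^ j) ^ al y (a.1 + 1, a.2) := by
      unfold gr
      refine Finset.sum_congr rfl fun y _ => ?_
      have h5 : pa y (a.1 + 1, a.2) = pa y a := rfl
      have h6 := hu (θ ^ (PW j * pa y a)) (by rw [norm_pow, hθ, one_pow])
      beta_reduce
      unfold hl
      rw [h5, pow_add, pow_add, map_mul, pow_mul θ (3 ^ j), pow_mul θ (3 ^ j), map_pow]
      linear_combination
        ((starRingEnd ℂ) (θ ^ 3 ^ j) ^ al y a * (θ ^ 3 ^ j) ^ al y (a.1 + 1, a.2)) * h6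
    rw [h4, h3]; push_cast; ring
  have h7 : |(θ ^ 3 ^ j).re| ≤ 1 := hx ▸ Complex.abs_re_le_norm _
  have h8 := abs_le.1 h7
  have h9 : ∑ c, ‖gr (fun y y' : Y => θ ^ hl j y y') a c‖ ≤
      ∑ c : Y, (12 - if c = (a.1 + 1, a.2) then 4 * (1 - (θ ^ 3 ^ j).re) else 0) := by
    refine Finset.sum_le_sum fun c _ => ?_
    split_ifs with hc
    · rw [hc, h2, Complex.norm_real, Real.norm_eq_abs, abs_le]
      constructor <;> linarith [h8.1, h8.2]
    · linarith [h1 c]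
  refine h9.trans (le_of_eq ?_)
  rw [Finset.sum_sub_distrib, Finset.sum_ite_eq']
  simp
  norm_num

end OP1

theorem bOP1 : OP1 := by
  intro j s θ b h h1
  have hq : 0 < 2 ^ s := by positivity
  have hθ : ‖θ‖ = 1 := Complex.norm_eq_one_of_pow_eq_one h hq.ne'
  have hx1 : θ ^ 3 ^ j ≠ 1 := by
    intro hx
    have hc : Nat.Coprime (3 ^ j) (2 ^ s) := Nat.Coprime.pow j s (by norm_num)
    exact h1 (orderOf_eq_one_iff.1 (Nat.eq_one_of_dvd_coprimes hc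
      (orderOf_dvd_of_pow_eq_one hx) (orderOf_dvd_of_pow_eq_one h)))
  have hxq : (θ ^ 3 ^ j) ^ 2 ^ s = 1 := by rw [← pow_mul, mul_comm, pow_mul, h, one_pow]
  have hg := OP1.gap _ _ hq hxq hx1
  have hs := OP1.schur (fun y y' : Y => θ ^ hl j y y') b _ (OP1.row j θ hθ)
  have h4 : (((2 ^ s : ℕ) : ℝ)) ^ 2 = 4 ^ s := by
    push_cast
    rw [← pow_mul, mul_comm, pow_mul]; norm_num
  rw [h4] at hg
  have h5 : (0 : ℝ) < 4 ^ s := by positivity
  have h6 := Real.add_one_le_exp (-(1 / (50 * (4 : ℝ) ^ s)))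
  have h7 : 1 / (50 * (4 : ℝ) ^ s) ≤ (1 - (θ ^ 3 ^ j).re) / 36 := by
    rw [div_le_div_iff₀ (by positivity) (by norm_num)]
    nlinarith
  have hc : Fintype.card Y = 12 := by simp
  have h8 : ∀ y : Y, ‖𝔼 y' : Y, θ ^ hl j y y' * b y'‖ ^ 2 =
      ‖∑ y' : Y, θ ^ hl j y y' * b y'‖ ^ 2 / 144 := by
    intro y
    rw [Fintype.expect_eq_sum_div_card, hc, norm_div, div_pow]
    norm_num
  have h9 : (0 : ℝ) ≤ ∑ a, ‖b a‖ ^ 2 := Finset.sum_nonneg fun a _ => sq_nonneg _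
  simp only [h8]
  rw [Fintype.expect_eq_sum_div_card, Fintype.expect_eq_sum_div_card, hc, ← Finset.sum_div]
  push_cast
  have h10 : 144 - 4 * (1 - (θ ^ 3 ^ j).re) ≤ 144 * Real.exp (-(1 / (50 * (4 : ℝ) ^ s))) := by
    linarith
  have h11 := mul_le_mul_of_nonneg_right h10 h9
  linarith

end Pool.Agent.Lib.QY
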