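import Pool.Agent.Lib.QY.Blue
import Pool.Agent.Lib.QX.R_FRAME
import Pool.Agent.Lib.QX.R_FL

/-! Orthogonality of families, and the passage to three sets. -/

namespace Pool.Agent.Lib.QY

open Finset Pool.Agent.Lib.QX
open scoped BigOperators

theorem bORT : ORT := by
  intro J β R T E _ _ _ _ _ _ _ I k k' ω K c c' hok
  have hH2 := I.hH k k' hok
  have hcr : 2 ^ I.k0 ∣ cross I.kB K c c' := by
    unfold cross
    refine Finset.dvd_sum fun B _ => Dvd.dvd.mul_right (pow_dvd_pow 2 (I.hk B).1) _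
  refine ⟨?_, ?_⟩
  · obtain ⟨a, ha⟩ := hcr
    obtain ⟨b, hb⟩ := hH2
    refine ⟨2 * b - a, ?_⟩
    rw [ha, hb]
    push_cast
    ring
  · intro D hD
    refine ⟨?_, ?_⟩
    · have hD' : (cross I.kB K c c' : ℝ) + 2 ^ I.k0 * (D : ℝ) = (I.H k k' : ℝ) := by
        exact_mod_cast hD
      have hp : (1 : ℝ) ≤ 2 ^ I.k0 := one_le_pow₀ (by norm_num)
      have hsum : |∑ B, 4 * (2 : ℝ) ^ I.kB B - 2 * (cross I.kB K c c' : ℝ)| ≤ 4 * 2 ^ J * #K := by
        unfold cross
        push_cast
        rw [Finset.mul_sum, ← Finset.sum_sub_distrib]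
        refine (Finset.abs_sum_le_sum_abs _ _).trans ?_
        have : ∀ B ∈ (univ : Finset β), |4 * (2 : ℝ) ^ I.kB B - 2 * (2 ^ I.kB B *
            (if B ∈ K then (hammingDist (c B) (c' B) : ℝ) else 2))| ≤
            if B ∈ K then 4 * 2 ^ J else 0 := by
          intro B _
          have hJ : (2 : ℝ) ^ I.kB B ≤ 2 ^ J := pow_le_pow_right₀ (by norm_num) (I.hk B).2
          have h0 : (0 : ℝ) < 2 ^ I.kB B := by positivity
          split_ifs with hB
          · have h4 : (hammingDist (c B) (c' B) : ℝ) ≤ 4 := by exact_mod_cast ham_le_four _ _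
            have h5 : (0 : ℝ) ≤ hammingDist (c B) (c' B) := by positivity
            rw [abs_le]
            constructor <;> nlinarith
          · have : 4 * (2 : ℝ) ^ I.kB B - 2 * (2 ^ I.kB B * 2) = 0 := by ring
            rw [this, abs_zero]
        refine (Finset.sum_le_sum this).trans ?_
        rw [Finset.sum_ite_mem, univ_inter, Finset.sum_const, nsmul_eq_mul]
        linarith
      have hkey : 2 ^ I.k0 * (2 * (D : ℝ) - Fintype.card R) =
          (2 * (I.H k k' : ℝ) - tot I.kB I.k0 (Fintype.card R)) +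
          (∑ B, 4 * (2 : ℝ) ^ I.kB B - 2 * (cross I.kB K c c' : ℝ)) := by
        rw [← hD', tot]; ring
      have h1 : |2 ^ I.k0 * (2 * (D : ℝ) - Fintype.card R)| ≤ I.off + 4 * 2 ^ J * #K := by
        rw [hkey]
        exact (abs_add_le _ _).trans (add_le_add (I.hoff k k' hok) hsum)
      rw [abs_mul, abs_of_pos (by positivity : (0 : ℝ) < 2 ^ I.k0)] at h1
      have h2 := abs_nonneg (2 * (D : ℝ) - Fintype.card R)
      nlinarith
    · intro W W' hW a a'
      refine ⟨?_, ?_⟩
      · intro g f g' f' h1 h2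
        have hp := I.par _ _ _ _ _ _ _ _ h1 h2
        rw [db_fam _ _ _ _ _ _ _ hW] at hp
        obtain ⟨x, hx⟩ := hp
        obtain ⟨y, hy⟩ := hH2
        have hx' : (cross I.kB K c c' : ℤ) + 2 ^ I.k0 * (hammingDist a a' : ℤ) =
            2 * 2 ^ I.k0 * x := by exact_mod_cast hx
        have hne : (2 : ℤ) ^ I.k0 ≠ 0 := by positivity
        refine ⟨(x : ℤ) - y, ?_⟩
        apply mul_left_cancel₀ hne
        linear_combination hx' - hD - hy
      · intro hh
        unfold Tri.spanF
        rw [Submodule.isOrtho_span]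
        rintro _ ⟨g, f, h1, rfl⟩ _ ⟨g', f', h2, rfl⟩
        apply I.orth k k' hok _ _ _ _ _ _ h1 h2
        rw [db_fam _ _ _ _ _ _ _ hW]
        rw [← hh] at hD
        exact_mod_cast hD

open RFL in
theorem bTRI : TRI := by
  intro j ρ φ ε N0 hρ hφ hε hLB β R κ κ' E _ _ _ _ _ _ _ _ _ _ _ H I ψ cc o hH hiso hcr ho hρ1 hκ2
  let I' : Tri (2 * j) β R (κ' → Y) E :=
    { k0 := I.k0
      kB := I.kB
      A := fun k y a f => I.A y a (ψ k f)
      v := fun k y a f => I.v y a (ψ k f)
      H := fun k k' => (H : ℤ) - cc k k'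
      off := o
      hk0 := I.hk0
      hk := I.hk
      hH := fun k k' h => by
        refine Dvd.dvd.trans ?_ (hcr k k' h).2.1
        exact mul_dvd_mul_left _ (pow_dvd_pow 2 I.hk0)
      hoff := fun k k' h => by
        have := (hcr k k' h).2.2
        push_cast
        exact this
      orth := fun k k' h y a f y' a' f' h1 h2 h3 => by
        apply I.orth _ _ _ _ _ _ h1 h2
        rw [(hcr k k' h).1]
        omega
      par := fun k k' y a f y' a' f' h1 h2 => I.par _ _ _ _ _ _ h1 h2 }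
  refine ⟨I', rfl, ?_, ?_⟩
  swap
  · intro μ hμ k hk
    refine (hμ k hk).trans (le_of_eq ?_)
    rw [ex_comm]
    refine Finset.expect_congr rfl fun y _ => ?_
    rw [ex_comm]
    rfl
  intro k ω K c W a hK hN0 hoff hden
  change o + _ ≤ _ at hoff
  classical
  set S := I'.spanF k ω K c W a with hS
  set A' : ({x // Act K W x} → Bool) → (κ' → Y) → Prop :=
    fun z f => I.A (fam ω K c W (ext K W z)) a (ψ k f) with hA'
  have hmem : ∀ z f, A' z f → I.v (fam ω K c W (ext K W z)) a (ψ k f) ∈ S := fun z f hz =>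
    Submodule.subset_span ⟨_, f, hz, rfl⟩
  set v' : ({x // Act K W x} → Bool) → (κ' → Y) → S :=
    fun z f => if h : A' z f then ⟨_, hmem z f h⟩ else 0 with hv'
  set k' : {x // Act K W x} → ℕ := fun x =>
    if (W x.1.1).1 = (W x.1.1).2 then I.kB x.1.1 + 2 else I.kB x.1.1 + 1 with hk'
  have hKr : 2 * (#K : ℝ) ≤ Fintype.card β := by exact_mod_cast hK
  have hcard : (Fintype.card {x // Act K W x} : ℝ) =
      ∑ B, if B ∈ K then 0 else (nl (W B) : ℝ) := by
    have := sum_act K W (fun _ => (1 : ℝ))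
    rw [Finset.sum_const, nsmul_eq_mul, mul_one, Finset.card_univ] at this
    rw [this]
    refine Finset.sum_congr rfl fun B _ => ?_
    unfold nl
    split_ifs <;> norm_num
  have hsK : ∀ y : ℝ, ∑ B, (if B ∈ K then y else 0) = #K * y := fun y => by
    rw [Finset.sum_ite_mem, univ_inter, Finset.sum_const, nsmul_eq_mul]
  have hc1 : (∑ B, (nl (W B) : ℝ)) - 2 * #K ≤ Fintype.card {x // Act K W x} := by
    rw [hcard, mul_comm, ← hsK, ← Finset.sum_sub_distrib]
    refine Finset.sum_le_sum fun B _ => ?_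
    unfold nl
    split_ifs <;> norm_num
  have hc2 : (Fintype.card β : ℝ) - #K ≤ Fintype.card {x // Act K W x} := by
    have e : (Fintype.card β : ℝ) = ∑ _B : β, (1 : ℝ) := by simp
    rw [hcard, e, ← mul_one (#K : ℝ), ← hsK, ← Finset.sum_sub_distrib]
    refine Finset.sum_le_sum fun B _ => ?_
    unfold nl
    split_ifs <;> norm_num
  have hc3 : ε * Fintype.card β / 2 ≤ ε * Fintype.card {x // Act K W x} := by
    have : (Fintype.card β : ℝ) / 2 ≤ Fintype.card {x // Act K W x} := by linarith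
    nlinarith
  have hc4 : (Fintype.card {x // Act K W x} : ℝ) ≤ 2 * Fintype.card β := by
    have e : 2 * (Fintype.card β : ℝ) = ∑ _B : β, (2 : ℝ) := by simp [mul_comm]
    rw [hcard, e]
    refine Finset.sum_le_sum fun B _ => ?_
    unfold nl
    split_ifs <;> norm_num
  have hc5 : ρ * Fintype.card {x // Act K W x} ≤ Fintype.card κ' :=
    (mul_le_mul_of_nonneg_left hc4 hρ).trans hρ1
  have hc6 : Fintype.card κ' ≤ Fintype.card {x // Act K W x} := by
    have h1 : (2 * Fintype.card κ' : ℝ) ≤ Fintype.card β := by exact_mod_cast hκ2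
    have : (Fintype.card κ' : ℝ) ≤ Fintype.card {x // Act K W x} := by linarith
    exact_mod_cast this
  have hmain := hLB {x // Act K W x} κ' k' H A' S v' ?_ hH ?_ hc5 hc6 ?_ ?_ ⟨?_, ?_⟩
  · exact le_trans (mul_le_mul_of_nonneg_left hc1 hφ) hmain
  · intro x
    have := (I.hk x.1.1).2
    simp only [hk']
    split_ifs <;> omega
  · have h1 : (2 * N0 : ℝ) ≤ Fintype.card β := by exact_mod_cast hN0
    have : (N0 : ℝ) ≤ Fintype.card {x // Act K W x} := by linarith
    exact_mod_cast this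
  · have h1 := sum_act K W (fun x => (2 : ℝ) ^
      (if (W x.1).1 = (W x.1).2 then I.kB x.1 + 2 else I.kB x.1 + 1))
    have h2 : ∑ x, (2 : ℝ) ^ k' x = ∑ B, 4 * (2 : ℝ) ^ I.kB B -
        ∑ B, if B ∈ K then 4 * (2 : ℝ) ^ I.kB B else 0 := by
      simp only [hk']
      rw [h1, ← Finset.sum_sub_distrib]
      refine Finset.sum_congr rfl fun B _ => ?_
      split_ifs <;> ring
    have h3 : ∑ B, (if B ∈ K then 4 * (2 : ℝ) ^ I.kB B else 0) ≤ #K * (4 * 2 ^ (2 * j)) := by
      rw [← hsK]
      refine Finset.sum_le_sum fun B _ => ?_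
      have hJ : (2 : ℝ) ^ I.kB B ≤ 2 ^ (2 * j) := pow_le_pow_right₀ (by norm_num) (I.hk B).2
      split_ifs <;> linarith
    have h4 : 0 ≤ ∑ B, (if B ∈ K then 4 * (2 : ℝ) ^ I.kB B else 0) :=
      Finset.sum_nonneg fun B _ => by split_ifs <;> positivity
    have h5 : (2 : ℝ) ^ I.k0 * Fintype.card R ≤ 2 ^ (2 * j) * Fintype.card R :=
      mul_le_mul_of_nonneg_right (pow_le_pow_right₀ (by norm_num) I.hk0) (by positivity)
    have h6 : (0 : ℝ) ≤ 2 ^ I.k0 * Fintype.card R := by positivity
    have h7 := abs_le.1 ho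
    unfold tot at h7
    refine le_trans ?_ (hoff.trans hc3)
    rw [h2, abs_le]
    constructor <;> nlinarith [h7.1, h7.2]
  · refine le_trans (Real.exp_le_exp.2 (by linarith)) (hden.trans (le_of_eq ?_))
    unfold densT hd
    rw [← ex_res K W (fun z => 𝔼 f, ind (A' z f))]
    refine Finset.expect_congr rfl fun g _ => ?_
    simp only [hA', fam_res]
    rfl
  · intro z f hz
    simp only [hv', dif_pos hz]
    intro h
    exact I.ne _ _ _ hz (congrArg Subtype.val h)
  · intro z f z' f' hz hz' hd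
    simp only [hv', dif_pos hz, dif_pos hz']
    rw [Submodule.coe_inner]
    apply I.orth _ _ _ _ _ _ hz hz'
    rw [hammingDist_self, mul_zero, add_zero, ← dw_ext, hiso]
    exact hd

end Pool.Agent.Lib.QY
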