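import Pool.Agent.Lib.QY.Blue
import Pool.Agent.Lib.QX.Main

namespace Pool.Agent.Lib.QY

open Finset Pool.Agent.Lib.QX
open scoped BigOperators

namespace BPAIR

variable {J : ℕ} {β R T E : Type} [Fintype β] [DecidableEq β] [Fintype R] [DecidableEq R]
  [Fintype T] [NormedAddCommGroup E] [InnerProductSpace ℂ E]

/-- sliced density of a hard pattern -/
noncomputable def shd (I : Tri J β R T E) (k : Fin 4) (ω : β → Om) (K : Finset β) (c : β → V4)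
    (W : β → Pr) (a0 : R → Bool) (D : ℤ) : ℝ :=
  𝔼 a, ind ((hammingDist a a0 : ℤ) = D) * hd (I.phi k a) ω K c W

theorem ssd_eq (I : Tri J β R T E) (k : Fin 4) (ω : β → Om) (K : Finset β) (c : β → V4)
    (M : β → Fin 4 → Pr) (a0 : R → Bool) (D : ℤ) :
    I.ssd k ω K c M a0 D = 𝔼 τ : β → Fin 4, shd I k ω K c (fun B => M B (τ B)) a0 D := by
  unfold Tri.ssd shd sd
  rw [ex_comm]
  refine Finset.expect_congr rfl fun a _ => ?_
  rw [ex_mul_left]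

theorem term_le (I : Tri J β R T E) (k : Fin 4) (ω : β → Om) (K : Finset β) (c : β → V4)
    (W : β → Pr) (a0 : R → Bool) (D : ℤ) (a : R → Bool) :
    ind ((hammingDist a a0 : ℤ) = D) * hd (I.phi k a) ω K c W ≤ 1 :=
  mul_le_one₀ (ind_le_one _) (hd_nonneg (fun _ => dens_nonneg _) _ _ _ _)
    (hd_le_one (fun _ => dens_le_one _) _ _ _ _)

/-- freezing more blocks at the best values -/
theorem freeze (I : Tri J β R T E) (k : Fin 4) (ω : β → Om) {K K' : Finset β} (hK : K ⊆ K') (c : β → V4)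
    (W W' : β → Pr) (hW : ∀ B, B ∉ K' → W' B = W B) (a0 : R → Bool) (D : ℤ) :
    ∃ c' : β → V4, shd I k ω K c W a0 D ≤ shd I k ω K' c' W' a0 D ∧
      ∀ a, I.spanF k ω K' c' W' a ≤ I.spanF k ω K c W a := by
  obtain ⟨g0, hg0⟩ := exists_ge_ex (fun g0 : β → Bool × Bool =>
    shd I k ω K' (fam ω K c W g0) W' a0 D)
  refine ⟨fam ω K c W g0, le_trans (le_of_eq ?_) hg0, fun a => ?_⟩
  · unfold shd
    rw [ex_comm]
    refine Finset.expect_congr rfl fun a _ => ?_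
    rw [ex_mul_left]
    congr 1
    unfold hd
    simp only [RPAIR.fam_freeze ω hK c W W' hW]
    exact (ex_splice K' (fun g => I.phi k a (fam ω K c W g))).symm
  · unfold Tri.spanF
    apply Submodule.span_mono
    rintro _ ⟨g, f, h1, rfl⟩
    rw [RPAIR.fam_freeze ω hK c W W' hW] at h1 ⊢
    exact ⟨_, f, h1, rfl⟩

theorem fat (I : Tri J β R T E) (k : Fin 4) (ω : β → Om) (K : Finset β) (c : β → V4)
    (W : β → Pr) (a0 : R → Bool) (D : ℤ) {x : ℝ} (hx : 0 < x)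
    (h : x / 2 ≤ shd I k ω K c W a0 D) :
    x / 4 ≤ dens (fun a => (hammingDist a a0 : ℤ) = D ∧ x / 4 ≤ hd (I.phi k a) ω K c W) := by
  have h1 := dens_ge_of_ex (a := x / 4) (by linarith) (term_le I k ω K c W a0 D)
  refine le_trans (by unfold shd at h; linarith) (h1.trans (dens_mono fun a ha => ?_))
  by_cases hD : (hammingDist a a0 : ℤ) = D
  · rw [ind_pos hD, one_mul] at ha
    exact ⟨hD, ha⟩
  · rw [ind_neg hD, zero_mul] at ha
    linarith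

end BPAIR

open BPAIR

theorem bPAIR (hO : ORT) : PAIR := by
  intro J φ ε εF N0 m0 hφ hε hFR β R T E _ _ _ _ _ _ _ _ I x θ r r2 C hF hr2 hm hxF hoff hb hN0
    hoff2 hxε t t' M1 M2 Typ L d1 d2 d12 g1 g2 hT hL
  have hx : 0 < x := lt_of_le_of_lt (by positivity) hr2
  have k20 : Ok 2 0 := Or.inl ⟨rfl, rfl⟩
  have k30 : Ok 3 0 := Or.inr (Or.inl ⟨rfl, rfl⟩)
  set f1 : (β → Fin 4) → ℝ := fun τ =>
    shd I 2 C.ω C.K (C.c 2) (fun B => M1 B (τ B)) C.a0 (C.D 2) with hf1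
  set f2 : (β → Fin 4) → ℝ := fun τ =>
    shd I 3 C.ω C.K (C.c 3) (fun B => M2 B (τ B)) C.a0 (C.D 3) with hf2
  rw [ssd_eq] at g1 g2
  have t1 : x / 2 ≤ dens (fun τ => x / 2 ≤ f1 τ) := by
    have := dens_ge_of_ex (f := f1) (a := x / 2) (by linarith)
      (fun τ => ex_le fun a => term_le _ _ _ _ _ _ _ _ a)
    linarith
  have t2 : x / 2 ≤ dens (fun τ => x / 2 ≤ f2 τ) := by
    have := dens_ge_of_ex (f := f2) (a := x / 2) (by linarith)
      (fun τ => ex_le fun a => term_le _ _ _ _ _ _ _ _ a)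
    linarith
  have n1 := RPAIR.far_lt near _ r2 x t1 hr2
  have n2 := RPAIR.far_lt near _ r2 x t2 hr2
  obtain ⟨τ, hτ, hτ'⟩ := exists_of_dens_lt (A := Typ)
    (B := fun τ => (¬ ∃ y, x / 2 ≤ f1 y ∧ hammingDist τ y ≤ r2) ∨
      (¬ ∃ y, x / 2 ≤ f2 y ∧ hammingDist τ y ≤ r2))
    (lt_of_le_of_lt (dens_or_le _ _) (by linarith))
  simp only [not_or, not_not] at hτ'
  obtain ⟨⟨τ1, a1, b1⟩, ⟨τ2, a2, b2⟩⟩ := hτ'
  set K' : Finset β := C.K ∪ univ.filter (fun B => τ B ≠ τ1 B) ∪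
    univ.filter (fun B => τ B ≠ τ2 B) with hK'
  have hKK : C.K ⊆ K' := fun B hB => by simp [hK', hB]
  have hKc : #K' ≤ r + 2 * r2 := by
    unfold hammingDist at b1 b2
    have a1 := Finset.card_union_le (C.K ∪ univ.filter (fun B => τ B ≠ τ1 B))
      (univ.filter (fun B => τ B ≠ τ2 B))
    have a2 := Finset.card_union_le C.K (univ.filter (fun B => τ B ≠ τ1 B))
    have := C.hK
    rw [hK']
    omega
  have hKr : (#K' : ℝ) ≤ r + 2 * r2 := by exact_mod_cast hKc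
  have k1 : ∀ B, B ∉ K' → M1 B (τ B) = M1 B (τ1 B) := by
    intro B hB
    have : τ B = τ1 B := by by_contra h; exact hB (by simp [hK', h])
    rw [this]
  have k2 : ∀ B, B ∉ K' → M2 B (τ B) = M2 B (τ2 B) := by
    intro B hB
    have : τ B = τ2 B := by by_contra h; exact hB (by simp [hK', h])
    rw [this]
  obtain ⟨c1, p1, q1⟩ := freeze I 2 C.ω hKK (C.c 2) (fun B => M1 B (τ1 B)) (fun B => M1 B (τ B)) k1
    C.a0 (C.D 2)
  obtain ⟨c2, p2, q2⟩ := freeze I 3 C.ω hKK (C.c 3) (fun B => M2 B (τ2 B)) (fun B => M2 B (τ B)) k2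
    C.a0 (C.D 3)
  have s1 := fat I 2 C.ω K' c1 _ C.a0 (C.D 2) hx (le_trans a1 p1)
  have s2 := fat I 3 C.ω K' c2 _ C.a0 (C.D 3) hx (le_trans a2 p2)
  obtain ⟨⟨D, hD⟩, hO2⟩ := hO J β R T E I 2 3 C.ω K' c1 c2 (Or.inr (Or.inr ⟨rfl, rfl⟩))
  obtain ⟨o1, o2⟩ := hO2 D hD
  have o3 := o2 (fun B => M1 B (τ B)) (fun B => M2 B (τ B)) (fun B _ => d12 B (τ B))
  have h2J : (0 : ℝ) ≤ 2 ^ J := by positivity
  obtain ⟨a, a', ⟨ha1, ha2⟩, ⟨ha1', ha2'⟩, hd⟩ := hFR R _ _ D hm (hxF.trans s1) (hxF.trans s2)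
    (by nlinarith) (by
      intro a a' ha ha'
      obtain ⟨g, hg⟩ := exists_pos_of_ex_pos (lt_of_lt_of_le (by linarith) ha.2)
      obtain ⟨g', hg'⟩ := exists_pos_of_ex_pos (lt_of_lt_of_le (by linarith) ha'.2)
      obtain ⟨f, hf⟩ := exists_of_dens_pos hg
      obtain ⟨f', hf'⟩ := exists_of_dens_pos hg'
      exact (o3 a a').1 g f g' f' hf hf')
  have hK2 : 2 * #K' ≤ Fintype.card β := by omega
  have hoffK : I.off + 2 ^ J * (4 * #K' + Fintype.card R) ≤ ε * Fintype.card β / 2 := by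
    nlinarith
  have r1 := hF 2 C.ω K' c1 (fun B => M1 B (τ B)) a hK2 hN0 hoffK
    (hxε.trans ha2)
  have r2' := hF 3 C.ω K' c2 (fun B => M2 B (τ B)) a' hK2 hN0 hoffK
    (hxε.trans ha2')
  refine ⟨I.spanF 2 C.ω K' c1 (fun B => M1 B (τ B)) a, I.spanF 3 C.ω K' c2 (fun B => M2 B (τ B)) a',
    ?_, ?_, (o3 a a').2 hd, ?_⟩
  · exact Submodule.IsOrtho.mono_left (q1 a)
      ((((hO J β R T E I 2 0 C.ω C.K (C.c 2) (C.c 0) k20).2 _ (C.hD 2 k20)).2 _ (pat0 t)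
        (fun B _ => d1 B (τ1 B)) a C.a0).2 ha1)
  · exact Submodule.IsOrtho.mono_left (q2 a')
      ((((hO J β R T E I 3 0 C.ω C.K (C.c 3) (C.c 0) k30).2 _ (C.hD 3 k30)).2 _ (pat0 t')
        (fun B _ => d2 B (τ2 B)) a' C.a0).2 ha1')
  · have hL' := hL τ hτ
    rw [Finset.sum_add_distrib] at hL'
    have : φ * (L - 4 * (r + 2 * r2)) ≤ φ * ((∑ B, (nl (M1 B (τ B)) : ℝ) - 2 * #K') +
        (∑ B, (nl (M2 B (τ B)) : ℝ) - 2 * #K')) :=
      mul_le_mul_of_nonneg_left (by linarith) hφ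
    linarith

end Pool.Agent.Lib.QY
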