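import Pool.Agent.Lib.QY.Blue
import Pool.Agent.Lib.QX.R_POS
import Pool.Agent.Lib.QX.R_FR
import Pool.Agent.Lib.QX.R_FRI
import Pool.Agent.Lib.QX.R_TP

/-! Row POS: the first linear lower bound with tags. -/

namespace Pool.Agent.Lib.QY

open Finset Pool.Agent.Lib.QX
open scoped BigOperators

namespace POS

open RPOS

theorem pow_le_exp3 (a : ℝ) (ha0 : 0 ≤ a) (ha : a ≤ 16) (j : ℕ) :
    a ^ j ≤ Real.exp (4 * j) := by
  have h1 : (2 : ℝ) ^ 4 ≤ Real.exp 4 := by exact_mod_cast two_pow_le_exp 4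
  calc a ^ j ≤ Real.exp 4 ^ j := pow_le_pow_left₀ ha0 (by linarith) j
    _ = Real.exp (4 * j) := by rw [← Real.exp_nat_mul, mul_comm]

theorem kap_le {j : ℕ} {L : ℝ} (h : 2 * (j : ℝ) + 3 ≤ L) :
    128 * (2 ^ (2 * j) + 4 * 12 ^ j) * L * Real.exp (-(7 * L)) ≤ 1 := by
  have hj : (0 : ℝ) ≤ j := Nat.cast_nonneg j
  have h1 : (2 : ℝ) ^ (2 * j) ≤ 12 ^ j := by
    rw [pow_mul]
    exact pow_le_pow_left₀ (by norm_num) (by norm_num) j
  have h2 : (12 : ℝ) ^ j ≤ Real.exp (2 * L) :=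
    (pow_le_exp3 12 (by norm_num) (by norm_num) j).trans (Real.exp_le_exp.2 (by linarith))
  have h3 : L ≤ Real.exp L := by linarith [Real.add_one_le_exp L]
  have h4 : (640 : ℝ) ≤ Real.exp (4 * L) := by
    have h5 : (2 : ℝ) ^ 10 ≤ Real.exp 10 := by exact_mod_cast two_pow_le_exp 10
    have h6 : Real.exp 10 ≤ Real.exp (4 * L) := Real.exp_le_exp.2 (by linarith)
    linarith
  have h7 : Real.exp (7 * L) = Real.exp (4 * L) * Real.exp (2 * L) * Real.exp L := by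
    rw [← Real.exp_add, ← Real.exp_add]
    congr 1
    ring
  have h8 : (0 : ℝ) ≤ 12 ^ j := by positivity
  rw [Real.exp_neg, ← div_eq_mul_inv, div_le_one (Real.exp_pos _), h7]
  calc 128 * (2 ^ (2 * j) + 4 * 12 ^ j) * L ≤ 640 * 12 ^ j * L :=
        mul_le_mul_of_nonneg_right (by linarith) (by linarith)
    _ ≤ _ := mul_le_mul (mul_le_mul h4 h2 h8 (Real.exp_pos _).le) h3 (by linarith)
        (by positivity)

theorem tag_le {j k0 : ℕ} {L ρ N M : ℝ} (h : 2 * (j : ℝ) + 3 ≤ L) (hρ : Real.exp (-L) ≤ ρ)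
    (hk : k0 ≤ 2 * j) (hN : 0 ≤ N) (hM : ρ * N ≤ M) :
    Real.exp (-(7 * L)) ^ 2 * N ≤ M / (100 * 4 ^ k0) := by
  have hj : (0 : ℝ) ≤ j := Nat.cast_nonneg j
  have h1 : (4 : ℝ) ^ k0 ≤ 16 ^ j := by
    calc (4 : ℝ) ^ k0 ≤ 4 ^ (2 * j) := pow_le_pow_right₀ (by norm_num) hk
      _ = 16 ^ j := by rw [pow_mul]; norm_num
  have h2 : (16 : ℝ) ^ j ≤ Real.exp (2 * L) :=
    (pow_le_exp3 16 (by norm_num) le_rfl j).trans (Real.exp_le_exp.2 (by linarith))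
  have h4 : (100 : ℝ) ≤ Real.exp (11 * L) := by
    have h5 : (2 : ℝ) ^ 7 ≤ Real.exp 7 := by exact_mod_cast two_pow_le_exp 7
    have h6 : Real.exp 7 ≤ Real.exp (11 * L) := Real.exp_le_exp.2 (by linarith)
    linarith
  have h7 : Real.exp (-(7 * L)) ^ 2 * (Real.exp (11 * L) * Real.exp (2 * L)) = Real.exp (-L) := by
    rw [sq, ← Real.exp_add, ← Real.exp_add, ← Real.exp_add]
    congr 1
    ring
  have h8 : (100 : ℝ) * 4 ^ k0 ≤ Real.exp (11 * L) * Real.exp (2 * L) :=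
    mul_le_mul h4 (h1.trans h2) (by positivity) (Real.exp_pos _).le
  have h9 : Real.exp (-(7 * L)) ^ 2 * (100 * 4 ^ k0) ≤ ρ := by
    refine le_trans ?_ hρ
    rw [← h7]
    exact mul_le_mul_of_nonneg_left h8 (by positivity)
  rw [le_div_iff₀ (by positivity)]
  have h10 := mul_le_mul_of_nonneg_right h9 hN
  linarith

/-- the last numerical contradiction -/
theorem last2 {L N ε κ M : ℝ} {d J k0 : ℕ} (hL : 1 ≤ L) (hN : 0 ≤ N) (hd : (d : ℝ) ≤ N / 4)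
    (hκ : κ = Real.exp (-(7 * L))) (hε : ε ≤ κ ^ 2 / 16) (hJ : (J : ℝ) ≤ L) (hk : k0 ≤ J)
    (hN1 : 10 + 88 * L < κ ^ 2 * N) (hN2 : 8 * (4 + L + 22 * L ^ 2) ≤ κ ^ 2 * N)
    (hM : κ ^ 2 * N ≤ M)
    (h : Real.exp (-(22 * L)) ^ (⌈Real.exp (-(22 * L)) * N⌉₊ + 1 + J)
        * (1 - Real.exp (-(22 * L))) ^ d
      ≤ 2 ^ k0 * ((4 * (2 * Real.exp (-(26 * L)))) ^ (⌈Real.exp (-(22 * L)) * N⌉₊ + 1 + J)
        + 4 * (8 * Real.exp (-(κ ^ 2 * N)) + Real.exp (-M)) / (Real.exp (-(ε * N)) / 2) ^ 2)) :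
    False := by
  refine last (ε := κ ^ 2 / 4) hL hN hd hκ le_rfl hN1 ?_
  generalize ⌈Real.exp (-(22 * L)) * N⌉₊ + 1 = p at h ⊢
  have h16 : (2 : ℝ) ^ 4 ≤ Real.exp (4 * L) := by exact_mod_cast two_pow_le_exp' 4 hL
  have hzt : Real.exp (-(22 * L)) = Real.exp (4 * L) * Real.exp (-(26 * L)) := by
    rw [← Real.exp_add]
    congr 1
    ring
  have he26 := Real.exp_pos (-(26 * L))
  have ht : 2 * (4 * (2 * Real.exp (-(26 * L)))) ≤ Real.exp (-(22 * L)) := by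
    rw [hzt]
    nlinarith
  have hk2 : (2 : ℝ) ^ k0 ≤ 2 ^ J := pow_le_pow_right₀ (by norm_num) hk
  have h1 : 2 ^ k0 * (4 * (2 * Real.exp (-(26 * L)))) ^ J ≤ Real.exp (-(22 * L)) ^ J := by
    calc 2 ^ k0 * (4 * (2 * Real.exp (-(26 * L)))) ^ J
        ≤ 2 ^ J * (4 * (2 * Real.exp (-(26 * L)))) ^ J :=
          mul_le_mul_of_nonneg_right hk2 (by positivity)
      _ = (2 * (4 * (2 * Real.exp (-(26 * L))))) ^ J := (mul_pow _ _ _).symm
      _ ≤ _ := pow_le_pow_left₀ (by positivity) ht J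
  have hX : 4 * (8 * Real.exp (-(κ ^ 2 * N)) + Real.exp (-M)) / (Real.exp (-(ε * N)) / 2) ^ 2 ≤
      16 * (16 * Real.exp (2 * (ε * N) - κ ^ 2 * N)) := by
    have h2 : Real.exp (-M) ≤ Real.exp (-(κ ^ 2 * N)) := Real.exp_le_exp.2 (by linarith)
    have h3 : Real.exp (2 * (ε * N) - κ ^ 2 * N) * Real.exp (-(ε * N)) ^ 2 =
        Real.exp (-(κ ^ 2 * N)) := by
      rw [sq (Real.exp _), ← Real.exp_add, ← Real.exp_add]
      congr 1
      ring
    have h4 := Real.exp_pos (-(κ ^ 2 * N))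
    rw [div_le_iff₀ (by positivity), div_pow]
    linarith
  have hY : 8 * Real.exp (-(κ ^ 2 * N)) / (Real.exp (-(κ ^ 2 / 4 * N)) / 2) =
      16 * Real.exp (κ ^ 2 / 4 * N - κ ^ 2 * N) := by
    rw [Real.exp_sub, Real.exp_neg, Real.exp_neg]
    have := Real.exp_pos (κ ^ 2 / 4 * N)
    have := Real.exp_pos (κ ^ 2 * N)
    field_simp
    norm_num
  have h2 : 2 ^ k0 * (16 * Real.exp (2 * (ε * N) - κ ^ 2 * N)) ≤
      Real.exp (-(22 * L)) ^ J * Real.exp (κ ^ 2 / 4 * N - κ ^ 2 * N) := by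
    have h3 : (2 : ℝ) ^ k0 ≤ Real.exp L :=
      (hk2.trans (two_pow_le_exp J)).trans (Real.exp_le_exp.2 hJ)
    have h4 : (2 : ℝ) ^ 4 ≤ Real.exp 4 := by exact_mod_cast two_pow_le_exp 4
    have h5 := mul_le_mul_of_nonneg_right hε hN
    have h6 : (J : ℝ) * L ≤ L * L := mul_le_mul_of_nonneg_right hJ (by linarith)
    calc 2 ^ k0 * (16 * Real.exp (2 * (ε * N) - κ ^ 2 * N))
        ≤ Real.exp L * (Real.exp 4 * Real.exp (2 * (ε * N) - κ ^ 2 * N)) :=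
          mul_le_mul h3 (mul_le_mul_of_nonneg_right (by linarith) (Real.exp_pos _).le)
            (by positivity) (Real.exp_pos _).le
      _ ≤ _ := by
          rw [← Real.exp_nat_mul, ← Real.exp_add, ← Real.exp_add, ← Real.exp_add]
          refine Real.exp_le_exp.2 ?_
          nlinarith
  rw [hY]
  have hw : 0 < Real.exp (-(22 * L)) ^ J := by positivity
  have hb : 0 ≤ (4 * (2 * Real.exp (-(26 * L)))) ^ p := by positivity
  have h3 := mul_le_mul_of_nonneg_left hX (show (0 : ℝ) ≤ 2 ^ k0 by positivity)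
  have h4 := mul_le_mul_of_nonneg_left h1 hb
  rw [pow_add, pow_add] at h
  refine le_of_mul_le_mul_left ?_ hw
  linarith

end POS

open RPOS in
theorem bPOS (hP1 : POS1) (hT : TIE) (hPA : PAR) : POS := by
  obtain ⟨εF, hεF, m0, hFR⟩ :=
    st_FR (st_FRI (st_TP2 st_TP)) (st_TAIL (st_TP2 st_TP))
  refine ⟨min (1 / 4) (εF / 234), lt_min (by norm_num) (by positivity), fun j ρ L hjL hρ => ?_⟩
  set c := min (1 / 4 : ℝ) (εF / 234) with hc
  have hc0 : 0 < c := lt_min (by norm_num) (by positivity)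
  have hc1 : c ≤ 1 / 4 := min_le_left _ _
  have hc2 : c ≤ εF / 234 := min_le_right _ _
  obtain ⟨J, hJ⟩ : ∃ J : ℕ, J = 2 * j := ⟨_, rfl⟩
  have hJ0 : (0 : ℝ) ≤ J := Nat.cast_nonneg J
  have hLJ : (J : ℝ) + 3 ≤ L := by rw [hJ]; push_cast; exact hjL
  have hL : 1 ≤ L := by linarith
  have hL0 : 0 < L := by linarith
  obtain ⟨κ, hκ⟩ : ∃ κ : ℝ, κ = Real.exp (-(7 * L)) := ⟨_, rfl⟩
  have hκ0 : 0 < κ := hκ ▸ Real.exp_pos _
  have hκ1 : 128 * (2 ^ J + 4 * 12 ^ j) * L * κ ≤ 1 := by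
    rw [hκ, hJ]
    exact POS.kap_le hjL
  obtain ⟨ε, hε0, hε1, hε2, hε3⟩ :
      ∃ ε : ℝ, 0 < ε ∧ ε ≤ εF / (3 * L) ∧ ε ≤ κ ^ 2 / 16 ∧ ε ≤ 1 / (64 * L) :=
    ⟨min (εF / (3 * L)) (min (κ ^ 2 / 16) (1 / (64 * L))),
      lt_min (by positivity) (lt_min (by positivity) (by positivity)), min_le_left _ _,
      (min_le_right _ _).trans (min_le_left _ _), (min_le_right _ _).trans (min_le_right _ _)⟩
  obtain ⟨N0, hN0⟩ := exists_nat_gt
    (L * m0 + 64 * L * (J * 2 ^ J) + 18 * L / εF + (10 + 88 * L) / κ ^ 2 +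
      8 * (4 + L + 22 * L ^ 2) / κ ^ 2)
  refine ⟨ε, hε0, N0, ?_⟩
  intro ι T _ _ _ _ k H A E _ _ _ v hk hH hN hT1 hT2 hoff hA hR
  rw [← hJ] at hk
  by_contra hd
  push Not at hd
  obtain ⟨N, hNι⟩ : ∃ N : ℝ, N = Fintype.card ι := ⟨_, rfl⟩
  have hNN : (N0 : ℝ) ≤ N := by rw [hNι]; exact_mod_cast hN
  rw [← hNι] at hd hoff hA hT1
  have p1 : 0 ≤ L * m0 := by positivity
  have p2 : 0 ≤ 64 * L * (J * 2 ^ J) := by positivity
  have p3 : 0 ≤ 18 * L / εF := by positivity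
  have p4 : 0 ≤ (10 + 88 * L) / κ ^ 2 := by positivity
  have p5 : 0 ≤ 8 * (4 + L + 22 * L ^ 2) / κ ^ 2 := by positivity
  have hN5 : 8 * (4 + L + 22 * L ^ 2) ≤ N * κ ^ 2 :=
    (div_le_iff₀ (by positivity)).1 (by linarith)
  have hN1 : L * m0 ≤ N := by linarith
  have hN2 : 64 * L * (J * 2 ^ J) ≤ N := by linarith
  have hN3 : 18 * L ≤ N * εF := (div_le_iff₀ hεF).1 (by linarith)
  have hN4 : 10 + 88 * L < N * κ ^ 2 := (div_lt_iff₀ (by positivity)).1 (by linarith)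
  have hNpos : 0 < N := by linarith
  obtain ⟨k0, hk0, hbig⟩ := big_class k J hk
  obtain ⟨ι', _, _, k', A', v', hR', hA', hk', hcard, -, hm, hs1, hs2⟩ :=
    hT ι (T → Y) E k (dT j) H J k0 A v hR hk hk0
  obtain ⟨A2, hsub, hA2, hpar⟩ := hPA ι' (T → Y) k' k0 A' fun j => (hk' j).1
  have hR2 : IsRepT k' (dT j) H A2 v' :=
    ⟨fun x f hx => hR'.1 x f (hsub x f hx),
      fun x f y g hx hy => hR'.2 x f y g (hsub x f hx) (hsub y g hy)⟩
  obtain ⟨m, hmm⟩ : ∃ m : ℝ, m = #{j | k' j = k0} := ⟨_, rfl⟩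
  have hNm : N ≤ L * m := by
    have h1 : N ≤ ((J : ℝ) + 1) * m := by
      rw [hNι, hmm]
      exact_mod_cast hbig.trans (Nat.mul_le_mul_left _ hm)
    have h2 : 0 ≤ m := by rw [hmm]; exact Nat.cast_nonneg _
    exact h1.trans (mul_le_mul_of_nonneg_right (by linarith) h2)
  have hm0 : m0 ≤ #{j | k' j = k0} := by
    have : (m0 : ℝ) ≤ m := le_of_mul_le_mul_left (hN1.trans hNm) hL0
    rw [hmm] at this
    exact_mod_cast this
  have hs1' : ∑ j, (2 : ℝ) ^ k' j ≤ ∑ i, (2 : ℝ) ^ k i := by exact_mod_cast hs1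
  have hs2' : ∑ i, (2 : ℝ) ^ k i ≤ ∑ j, (2 : ℝ) ^ k' j + J * 2 ^ J := by exact_mod_cast hs2
  have hoff' : |2 * (H : ℝ) - (∑ j, (2 : ℝ) ^ k' j + 4 * 12 ^ j * Fintype.card T)| ≤
      ε * N + J * 2 ^ J := by
    have := abs_le.1 hoff
    have h2 : (0 : ℝ) ≤ J * 2 ^ J := by positivity
    exact abs_le.2 ⟨by linarith, by linarith⟩
  obtain ⟨d, hdE⟩ : ∃ d : ℕ, d = Module.finrank ℂ E := ⟨_, rfl⟩
  rw [← hdE] at hd
  have hdL : (d : ℝ) * L ^ 2 ≤ c * N := by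
    rw [div_mul_eq_mul_div, lt_div_iff₀ (by positivity)] at hd
    exact hd.le
  have hd0 : (0 : ℝ) ≤ d := Nat.cast_nonneg d
  have hd4 : (d : ℝ) ≤ N / 4 := by
    have h1 : (d : ℝ) * 1 ≤ d * L ^ 2 := mul_le_mul_of_nonneg_left (by nlinarith) hd0
    have h2 : c * N ≤ 1 / 4 * N := mul_le_mul_of_nonneg_right hc1 hNpos.le
    linarith
  have he26 := Real.exp_pos (-(26 * L))
  have key := hP1 εF m0 hFR ι' T E k' H j J k0 A2 v' (Real.exp (-(ε * N)) / 2) N (κ * N)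
    (2 * Real.exp (-(26 * L))) (Real.exp (-(22 * L))) (⌈Real.exp (-(22 * L)) * N⌉₊ + 1 + J)
    hR2 hk' hH hpar (by positivity) (by linarith) hm0 (by rw [hNι]; exact_mod_cast hcard)
    (by rw [hNι]; exact_mod_cast hT2)
    (by positivity) (by positivity) ?_ (Real.exp_pos _) ?_ ?_ ?_
  · rw [← hdE, show (κ * N) ^ 2 / N = κ ^ 2 * N by field_simp] at key
    refine POS.last2 hL hNpos.le hd4 hκ hε2 (by linarith) hk0 (by linarith) (by linarith) ?_ key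
    rw [hκ]
    exact POS.tag_le hjL hρ (hJ ▸ hk0) hNpos.le hT1
  · have h1 := Real.add_one_le_exp (26 * L)
    rw [Real.exp_neg, ← div_eq_mul_inv, div_le_one (Real.exp_pos _)]
    linarith
  · exact Real.exp_lt_one_iff.2 (by linarith)
  · rw [← hmm]
    refine le_of_mul_le_mul_left ?_ hL0
    have h1 : ε * (64 * L) ≤ 1 := (le_div_iff₀ (by positivity)).1 hε3
    have h2 := mul_le_mul_of_nonneg_right h1 hNpos.le
    have h3 := mul_le_mul_of_nonneg_right hκ1 hNpos.le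
    have h4 := mul_le_mul_of_nonneg_left hoff' hL0.le
    linarith
  · rw [← hmm, ← hdE]
    have hlog : Real.log (2 / (2 * Real.exp (-(26 * L)))) = 26 * L := by
      rw [show 2 / (2 * Real.exp (-(26 * L))) = Real.exp (26 * L) by
        rw [Real.exp_neg]; field_simp, Real.log_exp]
    rw [hlog]
    have h4 : (2 : ℝ) ^ 2 ≤ Real.exp 2 := by exact_mod_cast two_pow_le_exp 2
    have h5 : εF * m ≥ 3 * d * (26 * L) + 4 + ε * N + 2 := by
      refine le_of_mul_le_mul_left ?_ hL0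
      have h1 : ε * (3 * L) ≤ εF := (le_div_iff₀ (by positivity)).1 hε1
      have h2 := mul_le_mul_of_nonneg_right h1 hNpos.le
      have h3 := mul_le_mul_of_nonneg_right hc2 hNpos.le
      have h6 := mul_le_mul_of_nonneg_left hNm hεF.le
      linarith
    have h6 : Real.exp (-(εF * m)) * Real.exp 2
        ≤ Real.exp (-(3 * d * (26 * L) + 4)) * Real.exp (-(ε * N)) := by
      rw [← Real.exp_add, ← Real.exp_add]
      exact Real.exp_le_exp.2 (by linarith)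
    have h7 := mul_le_mul_of_nonneg_left h4 (Real.exp_pos (-(εF * m))).le
    linarith

end Pool.Agent.Lib.QY
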