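import Pool.Agent.Lib.QY.Blue
import Pool.Agent.Lib.QX.Main

/-! Positivity with explicit numbers, with tags. -/

namespace Pool.Agent.Lib.QY

open Finset Pool.Agent.Lib.QX
open scoped BigOperators

namespace POS1

theorem ex_sub' {X : Type} [Fintype X] (U : X → Prop) [DecidablePred U] (F : X → ℝ) :
    𝔼 x, ind (U x) * F x = dens U * 𝔼 y : {u // U u}, F y.1 := by
  rw [dens_eq_card, Fintype.expect_eq_sum_div_card, Fintype.expect_eq_sum_div_card,
    Fintype.card_subtype]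
  have h1 : ∑ x, ind (U x) * F x = ∑ y : {u // U u}, F y.1 := by
    rw [← Finset.sum_subtype (s := {x | U x}) (p := U) (by simp) F, Finset.sum_filter]
    refine sum_congr rfl fun x _ => ?_
    rw [ind_eq_ite]
    split_ifs <;> simp
  rw [h1]
  rcases Nat.eq_zero_or_pos #{x | U x} with h | h
  · have : IsEmpty {u // U u} := by
      rw [← Fintype.card_eq_zero_iff, Fintype.card_subtype, h]
    simp
  · have h3 : (0 : ℝ) < #{x | U x} := by exact_mod_cast h
    rw [div_mul_div_comm, mul_comm (Fintype.card X : ℝ), mul_div_mul_left _ _ h3.ne']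

theorem gram_avg {X I : Type} [Fintype X] [Fintype I] (c c' : X → ℝ) (ξ ξ' : X → I → ℂ)
    (G : X → X → ℝ) (h : ∀ u u', ∑ i, (starRingEnd ℂ) (ξ u i) * ξ' u' i = (G u u' : ℂ)) :
    (∑ i, (starRingEnd ℂ) ((∑ u, (c u : ℂ) * ξ u i) / Fintype.card X) *
      ((∑ u, (c' u : ℂ) * ξ' u i) / Fintype.card X)).re =
      𝔼 u, 𝔼 u', c u * (c' u' * G u u') := by
  have : ∑ i, (starRingEnd ℂ) ((∑ u, (c u : ℂ) * ξ u i) / Fintype.card X) *
      ((∑ u, (c' u : ℂ) * ξ' u i) / Fintype.card X) =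
      ((𝔼 u, 𝔼 u', c u * (c' u' * G u u') : ℝ) : ℂ) := by
    simp only [Fintype.expect_eq_sum_div_card, map_div₀, map_sum, map_mul, Complex.conj_ofReal,
      map_natCast]
    push_cast
    simp only [← h, Finset.sum_div, Finset.mul_sum, Finset.sum_mul]
    rw [Finset.sum_comm]
    conv_rhs => rw [Finset.sum_comm]
    refine sum_congr rfl fun u' _ => ?_
    rw [Finset.sum_comm]
    refine sum_congr rfl fun u _ => sum_congr rfl fun i _ => ?_
    ring
  rw [this, Complex.ofReal_re]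

theorem sq_re {I : Type} [Fintype I] (a : I → ℂ) :
    ∑ i, ‖a i‖ ^ 2 = (∑ i, (starRingEnd ℂ) (a i) * a i).re := by
  rw [Complex.re_sum]
  refine sum_congr rfl fun i _ => ?_
  rw [Complex.conj_mul', ← Complex.ofReal_pow, Complex.ofReal_re]

theorem fin_arith {W d μ p a b : ℝ} (hμ : 0 < μ) (hd : μ / 2 ≤ d) (hp : 0 ≤ p) (hb : 0 ≤ b)
    (h : d * (d * W) ≤ p * (d * (d * a) + b)) : W ≤ p * (a + 4 * b / μ ^ 2) := by
  have d0 : 0 < d := by linarith
  have h1 : b ≤ d * (d * (4 * b / μ ^ 2)) := by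
    have : μ ^ 2 ≤ 4 * d ^ 2 := by nlinarith
    rw [show d * (d * (4 * b / μ ^ 2)) = 4 * d ^ 2 * b / μ ^ 2 by ring,
      le_div_iff₀ (by positivity)]
    nlinarith
  have h2 := mul_le_mul_of_nonneg_left h1 hp
  refine le_of_mul_le_mul_left (le_of_mul_le_mul_left ?_ d0) d0
  nlinarith

end POS1

open RPOS1 POS1 in
theorem bPOS1 (hGRAM : GRAM) (hMIX : MIX) (hTAILT : TAILT) : POS1 := by
  intro εF m0 hFR ι κ E _ _ _ _ _ _ _ k H j J k0 A v μ n r t z q hrep hk hH hpar hμ hA hm0 hn hκ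
    hr ht0 ht1 hz0 hz1 hoff hcap
  classical
  rw [← Fintype.card_subtype] at hm0 hoff hcap
  set U : ({i // ¬ k i = k0} → Bool) × (κ → Y) → Prop :=
    fun p => μ / 2 ≤ dens fun a => A (glue k k0 a p.1) p.2 with hU
  have hdU : μ / 2 ≤ dens U := by
    have := dens_ge_of_ex (f := fun p : ({i // ¬ k i = k0} → Bool) × (κ → Y) =>
      dens fun a => A (glue k k0 a p.1) p.2) (a := μ / 2) (by linarith) fun _ => dens_le_one _
    have e : densT A = 𝔼 p : ({i // ¬ k i = k0} → Bool) × (κ → Y),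
        dens fun a => A (glue k k0 a p.1) p.2 := by
      rw [ex_prod, ex_comm, densT, ex_comm]
      exact Finset.expect_congr rfl fun f _ => dens_glue k k0 fun x => A x f
    rw [← e] at this
    linarith
  have hne : Nonempty {p // U p} := by
    obtain ⟨u, hu⟩ := exists_of_dens_pos (lt_of_lt_of_le (by linarith) hdU)
    exact ⟨⟨u, hu⟩⟩
  have hc0 : ∀ p, U p → ∃ e : E, ‖e‖ = 1 ∧
      Real.exp (-(εF * Fintype.card {i // k i = k0})) ≤ dens fun a => A (glue k k0 a p.1) p.2 ∧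
        (1 - t) * ‖v (glue k k0 a p.1) p.2‖ ^ 2 ≤
          ‖inner ℂ (v (glue k k0 a p.1) p.2) e‖ ^ 2 := by
    intro p hp
    obtain ⟨e, he, hd⟩ := st_CAP st_WEL _ E (fun a => A (glue k k0 a p.1) p.2)
      (fun a => v (glue k k0 a p.1) p.2) t (fun a ha => hrep.1 _ _ ha)
      (exists_of_dens_pos (lt_of_lt_of_le (by linarith) hp)) ht0 ht1
    exact ⟨e, he, hcap.trans
      ((mul_le_mul_of_nonneg_left hp (Real.exp_pos _).le).trans hd)⟩
  have hc : ∀ p, ∃ e : E, ‖e‖ = 1 ∧ (U p →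
      Real.exp (-(εF * Fintype.card {i // k i = k0})) ≤ dens fun a => A (glue k k0 a p.1) p.2 ∧
        (1 - t) * ‖v (glue k k0 a p.1) p.2‖ ^ 2 ≤
          ‖inner ℂ (v (glue k k0 a p.1) p.2) e‖ ^ 2) := by
    intro p
    by_cases hp : U p
    · obtain ⟨e, he, hd⟩ := hc0 p hp
      exact ⟨e, he, fun _ => hd⟩
    · obtain ⟨p0⟩ := hne
      obtain ⟨e, he, -⟩ := hc0 p0.1 p0.2
      exact ⟨e, he, fun h => absurd h hp⟩
  choose e he hd using hc
  set Bad : ({i // ¬ k i = k0} → Bool) → ({i // ¬ k i = k0} → Bool) → Prop := fun u u' =>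
    2 * 2 ^ J * r < |2 * (dw (fun i : {i // ¬ k i = k0} => 2 ^ k i.1) u u' : ℝ)
      - ∑ i : {i // ¬ k i = k0}, ((2 ^ k i.1 : ℕ) : ℝ)| with hBad
  set BadT : (κ → Y) → (κ → Y) → Prop := fun f g =>
    2 * (4 * 12 ^ j) * r < |2 * (dT j f g : ℝ) - 4 * 12 ^ j * Fintype.card κ| with hBadT
  have good : ∀ p p', U p → U p' → ¬ Bad p.1 p'.1 → ¬ BadT p.2 p'.2 →
      (2 * 2 ^ k0 : ℤ) ∣ (H : ℤ) - dT j p.2 p'.2 → ‖inner ℂ (e p) (e p')‖ ^ 2 ≤ 4 * t := by
    intro p p' hp hp' hb hbT hres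
    obtain ⟨g, hg⟩ := dvd_heavy k k0 (fun i => (hk i).1) p.1 p'.1
    obtain ⟨h, hh⟩ := hres
    have p0 : (1 : ℝ) ≤ 2 ^ k0 := one_le_pow₀ one_le_two
    obtain ⟨a, a', ha, ha', hD⟩ := hFR _ _ _ (2 * h - g) hm0 (hd p hp) (hd p' hp') (by
      simp only [hBad, not_lt, hg] at hb
      simp only [hBadT, not_lt] at hbT
      rw [tot_split k k0] at hoff
      have hhR : (H : ℝ) - dT j p.2 p'.2 = 2 * 2 ^ k0 * h := by exact_mod_cast hh
      push_cast at hb hoff ⊢
      set S : ℝ := ∑ i : {i // ¬ k i = k0}, (2 : ℝ) ^ k i.1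
      set m : ℝ := (Fintype.card {i // k i = k0} : ℝ)
      set T : ℝ := 4 * 12 ^ j * (Fintype.card κ : ℝ)
      set D : ℝ := (dT j p.2 p'.2 : ℝ)
      have e1 : (2 : ℝ) ^ k0 * (2 * (2 * h - g) - m)
          = (2 * (H : ℝ) - (2 ^ k0 * m + S + T)) - (2 * (2 ^ k0 * g) - S) - (2 * D - T) := by
        linear_combination (-2 : ℝ) * hhR
      have e2 := abs_sub (2 * (H : ℝ) - (2 ^ k0 * m + S + T) - (2 * (2 ^ k0 * g) - S)) (2 * D - T)
      have e2' := abs_sub (2 * (H : ℝ) - (2 ^ k0 * m + S + T)) (2 * (2 ^ k0 * g) - S)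
      rw [← e1, abs_mul, abs_of_nonneg (by positivity : (0 : ℝ) ≤ 2 ^ k0)] at e2
      have e3 := le_mul_of_one_le_left (abs_nonneg (2 * (2 * (h : ℝ) - g) - m)) p0
      have e4 : (0 : ℝ) ≤ 2 ^ J * r := by positivity
      have e5 : (0 : ℝ) ≤ 12 ^ j * r := by positivity
      linarith) (by
      intro a a' ha ha'
      have := hpar _ _ _ _ ha.1 ha'.1
      rw [dw_glue, hg, ← mul_add, mul_comm 2, Nat.mul_dvd_mul_iff_left (by positivity)] at this
      obtain ⟨c, hc⟩ := this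
      exact ⟨c - h, by omega⟩)
    refine cap (hrep.1 _ _ ha.1) (hrep.1 _ _ ha'.1) (he p) (he p')
      (hrep.2 _ _ _ _ ha.1 ha'.1 ?_) ha.2 ha'.2
    rw [dw_glue, hg]
    zify
    linear_combination (2 : ℤ) ^ k0 * hD - hh
  set x : ℝ := Real.exp (-(r ^ 2 / n)) with hx
  have tail1 : ∀ u, dens (Bad u) ≤ 4 * x := fun u =>
    tail _ (fun i : {i // ¬ k i = k0} => 2 ^ k i.1) (2 ^ J) n r u (by positivity)
      (fun i => by
        push_cast
        exact pow_le_pow_right₀ one_le_two (hk i.1).2)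
      (le_trans (by exact_mod_cast Fintype.card_subtype_le _) hn) hr
  have tail2 : ∀ f, dens (BadT f) ≤ 4 * x := fun f => hTAILT j κ n r f hκ hr
  obtain ⟨I, _, ξ, hξ⟩ := hGRAM E q
  set G : ({i // ¬ k i = k0} → Bool) × (κ → Y) → ({i // ¬ k i = k0} → Bool) × (κ → Y) → ℝ :=
    fun p p' => ‖inner ℂ (e p) (e p')‖ ^ (2 * q) with hG
  have G0 : ∀ p p', 0 ≤ G p p' := fun p p' => by positivity
  have G1 : ∀ p p', G p p' ≤ 1 := fun p p' => by
    have := norm_inner_le_norm (𝕜 := ℂ) (e p) (e p')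
    rw [he, he, mul_one] at this
    exact pow_le_one₀ (norm_nonneg _) this
  set a : I → (κ → Y) → ℂ := fun i f => (∑ u : {i // ¬ k i = k0} → Bool,
    (ind (U (u, f)) : ℂ) * ξ (e (u, f)) i) / Fintype.card ({i // ¬ k i = k0} → Bool) with ha
  have hK : ∀ f g, (∑ i, (starRingEnd ℂ) (a i f) * a i g).re =
      𝔼 u, 𝔼 u', ind (U (u, f)) * (ind (U (u', g)) * G (u, f) (u', g)) := fun f g =>
    gram_avg (fun u => ind (U (u, f))) (fun u => ind (U (u, g))) (fun u => ξ (e (u, f)))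
      (fun u => ξ (e (u, g))) (fun u u' => G (u, f) (u', g)) fun u u' => hξ _ _
  have hM := hMIX j k0 κ I a a H (by exact_mod_cast hH)
  have hsq : 𝔼 f, ∑ i, ‖a i f‖ ^ 2 ≤ 1 := ex_le fun f => by
    rw [sq_re, hK]
    refine ex_le fun u => ex_le fun u' => ?_
    exact mul_le_one₀ (ind_le_one _) (mul_nonneg (ind_nonneg _) (G0 _ _))
      (mul_le_one₀ (ind_le_one _) (G0 _ _) (G1 _ _))
  have swap : ∀ F : ({i // ¬ k i = k0} → Bool) × (κ → Y) →
      ({i // ¬ k i = k0} → Bool) × (κ → Y) → ℝ,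
      𝔼 f, 𝔼 g, 𝔼 u, 𝔼 u', F (u, f) (u', g) = 𝔼 p, 𝔼 p', F p p' := fun F => by
    rw [ex_prod, ex_comm (fun u f => 𝔼 p', F (u, f) p')]
    refine Finset.expect_congr rfl fun f _ => ?_
    rw [ex_comm]
    refine Finset.expect_congr rfl fun u _ => ?_
    rw [ex_prod, ex_comm]
  have two : ∀ F : ({i // ¬ k i = k0} → Bool) × (κ → Y) →
      ({i // ¬ k i = k0} → Bool) × (κ → Y) → ℝ,
      𝔼 p, 𝔼 p', ind (U p) * (ind (U p') * F p p') =
        dens U * (dens U * 𝔼 y : {p // U p}, 𝔼 y' : {p // U p}, F y.1 y'.1) := fun F => by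
    simp only [ex_mul_left, ex_sub']
  have low : dens U * (dens U * (z ^ q * (1 - z) ^ Module.finrank ℂ E)) ≤
      𝔼 f, 𝔼 g, (∑ i, (starRingEnd ℂ) (a i f) * a i g).re := by
    simp only [hK]
    rw [swap fun p p' => ind (U p) * (ind (U p') * G p p'), two]
    exact mul_le_mul_of_nonneg_left (mul_le_mul_of_nonneg_left
      (st_WEL {p // U p} E (fun y => e y.1) q z (fun y => he _) hz0 hz1) (dens_nonneg _))
      (dens_nonneg _)
  have up : 𝔼 f, 𝔼 g, ind ((2 * 2 ^ k0 : ℤ) ∣ (H : ℤ) - dT j f g) *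
      (∑ i, (starRingEnd ℂ) (a i f) * a i g).re ≤
      dens U * (dens U * (4 * t) ^ q) + 8 * x := by
    simp only [hK, ← ex_mul_left]
    rw [swap fun p p' => ind ((2 * 2 ^ k0 : ℤ) ∣ (H : ℤ) - dT j p.2 p'.2) *
      (ind (U p) * (ind (U p') * G p p'))]
    have t0 : 0 ≤ (4 * t) ^ q := by positivity
    have pt : ∀ p p', ind ((2 * 2 ^ k0 : ℤ) ∣ (H : ℤ) - dT j p.2 p'.2) *
        (ind (U p) * (ind (U p') * G p p')) ≤ ind (U p) * (ind (U p') * (4 * t) ^ q) +
          (ind (Bad p.1 p'.1) + ind (BadT p.2 p'.2)) := by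
      intro p p'
      have b1 := ind_nonneg (Bad p.1 p'.1)
      have b2 := ind_nonneg (BadT p.2 p'.2)
      by_cases h1 : U p
      swap
      · rw [ind_neg h1]; simp only [zero_mul, mul_zero]; linarith
      by_cases h2 : U p'
      swap
      · rw [ind_neg h2]; simp only [zero_mul, mul_zero]; linarith
      rw [ind_pos h1, ind_pos h2]
      by_cases h3 : (2 * 2 ^ k0 : ℤ) ∣ (H : ℤ) - dT j p.2 p'.2
      swap
      · rw [ind_neg h3]; linarith
      rw [ind_pos h3]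
      have := G1 p p'
      by_cases h4 : Bad p.1 p'.1
      · rw [ind_pos h4]; linarith
      by_cases h5 : BadT p.2 p'.2
      · rw [ind_pos h5]; linarith
      have : G p p' ≤ (4 * t) ^ q := by
        simp only [hG, pow_mul]
        exact pow_le_pow_left₀ (by positivity) (good p p' h1 h2 h4 h5 h3) q
      linarith
    refine (ex_mono fun p => ex_mono fun p' => pt p p').trans ?_
    simp only [ex_add]
    rw [two fun _ _ => (4 * t) ^ q]
    simp only [ex_const]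
    have c1 : 𝔼 p : ({i // ¬ k i = k0} → Bool) × (κ → Y),
        𝔼 p' : ({i // ¬ k i = k0} → Bool) × (κ → Y), ind (Bad p.1 p'.1) ≤ 4 * x :=
      ex_le fun p => by
        rw [ex_prod]
        simp only [ex_const]
        exact tail1 p.1
    have c2 : 𝔼 p : ({i // ¬ k i = k0} → Bool) × (κ → Y),
        𝔼 p' : ({i // ¬ k i = k0} → Bool) × (κ → Y), ind (BadT p.2 p'.2) ≤ 4 * x :=
      ex_le fun p => by
        rw [ex_prod]
        simp only [ex_const]
        exact tail2 p.2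
    linarith
  set l : ℝ := Real.exp (-(Fintype.card κ / (100 * 4 ^ k0))) with hl
  have l0 : 0 ≤ l := (Real.exp_pos _).le
  have x0 : 0 ≤ x := (Real.exp_pos _).le
  have p0 : (0 : ℝ) ≤ 2 ^ k0 := by positivity
  refine fin_arith hμ hdU p0 (by positivity) ?_
  have s1 := mul_le_mul_of_nonneg_left up p0
  have s2 := mul_le_mul_of_nonneg_left hsq (mul_nonneg p0 l0)
  linarith

end Pool.Agent.Lib.QY
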