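import Pool.Agent.Lib.QY.Blue
import Pool.Agent.Lib.QX.Main

/-! Choice of the frames and of the reservoir value, three sets. -/

namespace Pool.Agent.Lib.QY

open Finset Pool.Agent.Lib.QX
open scoped BigOperators

open RSEL

theorem bSEL1 : SEL1 := by
  intro J β R T E _ _ _ _ _ _ _ I μ th th1 r hden hth hth1 hr hC
  have hN := near
  have hP := st_PLR st_LAM
  have hb : (#{K : Finset β | #K ≤ 3 * r} : ℝ) * (Fintype.card β + 1) * (4 * th) / th1 ≤
      μ / 4 := by
    rw [div_le_iff₀ hth1]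
    linarith
  have hμ0 : 0 < μ := lt_of_le_of_lt (by positivity) hr
  set Φ : Fin 4 → (β → V4) → ℝ := fun k y => 𝔼 a, I.phi k a y with hΦ
  have hphi0 : ∀ k a y, 0 ≤ I.phi k a y := fun k a y => dens_nonneg _
  have hphi1 : ∀ k a y, I.phi k a y ≤ 1 := fun k a y => dens_le_one _
  have hΦ0 : ∀ k y, 0 ≤ Φ k y := fun k y => ex_nonneg fun a => hphi0 k a y
  have hΦ1 : ∀ k y, Φ k y ≤ 1 := fun k y => ex_le fun a => hphi1 k a y
  have hΦμ : ∀ k, k ≠ 1 → μ ≤ 𝔼 y, Φ k y := hden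
  -- role 0
  set f0 : (β → Om) → ℝ := fun ω => dens (fun a => (∃ f, I.A 0 (pl ω 0) a f) ∧
    Rob (I.phi 0 a) 0 ω th th1 (3 * r)) with hf0
  have hG0 : μ / 4 ≤ dens (fun ω => μ / 4 ≤ f0 ω) := by
    have h1 := dens_ge_of_ex (f := f0) (a := μ / 4) (by linarith) (fun ω => dens_le_one _)
    have h2 : 𝔼 a, (𝔼 ω : β → Om, I.phi 0 a (pl ω (role 0)) - 𝔼 ω : β → Om,
        I.phi 0 a (pl ω (role 0)) * ind (¬ Rob (I.phi 0 a) 0 ω th th1 (3 * r))) ≤
        𝔼 ω, f0 ω := by
      simp only [hf0, QX.dens]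
      rw [ex_comm (fun (ω : β → Om) (a : R → Bool) => ind ((∃ f, I.A 0 (pl ω 0) a f) ∧
        Rob (I.phi 0 a) 0 ω th th1 (3 * r)))]
      refine ex_mono fun a => ?_
      rw [← ex_sub]
      refine ex_mono fun ω => ?_
      rw [ind_and, ind_not]
      have e1 : I.phi 0 a (pl ω (role 0)) ≤ ind (∃ f, I.A 0 (pl ω 0) a f) := by
        by_cases h : ∃ f, I.A 0 (pl ω 0) a f
        · rw [ind_pos h]; exact hphi1 _ _ _
        · rw [ind_neg h]
          by_contra hc
          exact h (exists_of_dens_pos (not_le.1 hc))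
      have e2 := ind_nonneg (Rob (I.phi 0 a) 0 ω th th1 (3 * r))
      nlinarith
    have h3 : 𝔼 a, (𝔼 y, I.phi 0 a y - μ / 4) ≤ 𝔼 ω, f0 ω := by
      refine le_trans (ex_mono fun a => ?_) h2
      obtain ⟨e1, e2⟩ := hP β (I.phi 0 a) 0 th th1 (3 * r) (hphi0 0 a) hth hth1
      rw [e1]
      linarith
    rw [ex_sub, ex_const, ← ex_comm] at h3
    have h4 := hΦμ 0 (by decide)
    change 𝔼 y, Φ 0 y - μ / 4 ≤ _ at h3
    linarith
  -- roles 2 and 3
  have hG : ∀ (k : Fin 4) (n n' : Fin 5), k ≠ 1 → role n' = role n →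
      μ / 4 ≤ dens (fun ω : β → Om =>
      Rob (Φ k) n ω th th1 (3 * r) ∧ Rob (Φ k) n' ω th th1 (3 * r)) := by
    intro k n n' hk1 hn
    have hm := hΦμ k hk1
    obtain ⟨e1, e2⟩ := hP β (Φ k) n th th1 (3 * r) (hΦ0 k) hth hth1
    obtain ⟨-, e3⟩ := hP β (Φ k) n' th th1 (3 * r) (hΦ0 k) hth hth1
    rw [hn] at e3
    have : 𝔼 ω : β → Om, (Φ k (pl ω (role n)) -
        Φ k (pl ω (role n)) * ind (¬ Rob (Φ k) n ω th th1 (3 * r)) -
        Φ k (pl ω (role n)) * ind (¬ Rob (Φ k) n' ω th th1 (3 * r))) ≤ dens (fun ω : β → Om =>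
        Rob (Φ k) n ω th th1 (3 * r) ∧ Rob (Φ k) n' ω th th1 (3 * r)) := by
      exact ex_mono fun ω => ind_two _ _ (hΦ0 k _) (hΦ1 k _)
    rw [ex_sub, ex_sub, e1] at this
    linarith
  have n0 := far_lt hN _ r μ hG0 hr
  have n2 := far_lt hN _ r μ (hG 2 1 3 (by decide) rfl) hr
  have n3 := far_lt hN _ r μ (hG 3 2 4 (by decide) rfl) hr
  obtain ⟨ω, -, hω⟩ := exists_of_dens_lt (A := fun _ : β → Om => True)
    (B := fun x => (¬ ∃ y, μ / 4 ≤ f0 y ∧ hammingDist x y ≤ r) ∨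
      ((¬ ∃ y, (Rob (Φ 2) 1 y th th1 (3 * r) ∧ Rob (Φ 2) 3 y th th1 (3 * r)) ∧ hammingDist x y ≤ r) ∨
      (¬ ∃ y, (Rob (Φ 3) 2 y th th1 (3 * r) ∧ Rob (Φ 3) 4 y th th1 (3 * r)) ∧ hammingDist x y ≤ r)))
    (by
      have h1 : dens (fun _ : β → Om => True) = 1 := by
        unfold QX.dens; simp only [ind_pos trivial, ex_const]
      rw [h1]
      refine lt_of_le_of_lt (dens_or_le _ _) ?_
      have := dens_or_le
        (fun x : β → Om => ¬ ∃ y, (Rob (Φ 2) 1 y th th1 (3 * r) ∧ Rob (Φ 2) 3 y th th1 (3 * r)) ∧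
          hammingDist x y ≤ r)
        (fun x => ¬ ∃ y, (Rob (Φ 3) 2 y th th1 (3 * r) ∧ Rob (Φ 3) 4 y th th1 (3 * r)) ∧
          hammingDist x y ≤ r)
      linarith)
  simp only [not_or, not_not] at hω
  obtain ⟨⟨ω0, g0, d0⟩, ⟨ω2, ⟨g1, g3⟩, d2⟩, ⟨ω3, ⟨g2, g4⟩, d3⟩⟩ := hω
  set K : Finset β := univ.filter (fun B => ω B ≠ ω0 B) ∪ univ.filter (fun B => ω B ≠ ω2 B) ∪
    univ.filter (fun B => ω B ≠ ω3 B) with hK
  have hKc : #K ≤ 3 * r := by
    unfold hammingDist at d0 d2 d3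
    have a1 := Finset.card_union_le
      (univ.filter (fun B => ω B ≠ ω0 B) ∪ univ.filter (fun B => ω B ≠ ω2 B))
      (univ.filter (fun B => ω B ≠ ω3 B))
    have a2 := Finset.card_union_le (univ.filter (fun B => ω B ≠ ω0 B))
      (univ.filter (fun B => ω B ≠ ω2 B))
    rw [hK]
    omega
  have k0 : ∀ B, B ∉ K → ω B = ω0 B := by
    intro B hB; by_contra h; exact hB (by simp [hK, h])
  have k2 : ∀ B, B ∉ K → ω B = ω2 B := by
    intro B hB; by_contra h; exact hB (by simp [hK, h])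
  have k3 : ∀ B, B ∉ K → ω B = ω3 B := by
    intro B hB; by_contra h; exact hB (by simp [hK, h])
  refine ⟨{ ω := ω, K := K, c := ![pl ω0 0, pl ω0 0, pl ω2 2, pl ω3 3],
            C0 := fun a => (∃ f, I.A 0 (pl ω0 0) a f) ∧ Rob (I.phi 0 a) 0 ω0 th th1 (3 * r),
            hK := hKc, hC := g0, mem := ?_, g0 := ?_, g1 := ?_ }⟩
  · intro a ha
    refine ⟨fun _ => (false, false), ?_⟩
    have : fam ω K (pl ω0 0) (fun _ => (0, 0)) (fun _ => (false, false)) = pl ω0 0 := by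
      funext B
      unfold fam
      by_cases hB : B ∈ K
      · simp [hB]
      · simp only [hB, if_false]
        funext q
        simp [opt, pl, k0 B hB]
    change ∃ f, I.A 0 (fam ω K (pl ω0 0) (fun _ => (0, 0)) (fun _ => (false, false))) a f
    rw [this]
    exact ha.1
  · intro a ha
    have := ha.2 K hKc
    simp only [sd_menu0] at this
    change ∑ u : β → Bool, lam u * ind (hd (I.phi 0 a) ω K (pl ω0 0) (pat0 u) < th) ≤ th1
    simp only [hd_congr k0]
    exact this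
  · intro n hn
    have key : ∀ (ω' : β → Om) (n : Fin 5), (∀ B, B ∉ K → ω B = ω' B) →
        Rob (Φ (role n)) n ω' th th1 (3 * r) → ∑ u : β → Bool, lam u *
        ind (𝔼 a, sd (I.phi (role n) a) ω K (pl ω' (role n)) (menu n u) < th) ≤ th1 := by
      intro ω' n hk hR
      have := hR K hKc
      simp only [hΦ, sd_ex] at this
      simp only [sd_congr hk]
      exact this
    fin_cases n
    · exact absurd rfl hn
    · exact key ω2 1 k2 g1
    · exact key ω3 2 k3 g2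
    · exact key ω2 3 k2 g3
    · exact key ω3 4 k3 g4

theorem bSEL2 (hO : ORT) : SEL2 := by
  have hL := st_LAM
  intro e3 e2 m0 hDN he J β R T E _ _ _ _ _ _ _ I μ th th1 r ⟨P⟩ hμ hth1 hm hth hC hoff
  set x : ℝ := Real.exp (-(e3 * Fintype.card R)) with hx
  set y : ℝ := Real.exp (-(e2 * Fintype.card R)) with hy
  have hxy : x ≤ y := by
    apply Real.exp_le_exp.2
    have : (0 : ℝ) ≤ Fintype.card R := by positivity
    nlinarith
  have hok : ∀ n : Fin 5, n ≠ 0 → Ok (role n) 0 := by unfold Ok; decide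
  have hex : ∀ k : Fin 4, ∃ D : ℤ, Ok k 0 →
      (cross I.kB P.K (P.c k) (P.c 0) : ℤ) + 2 ^ I.k0 * D = I.H k 0 := by
    intro k
    by_cases h : Ok k 0
    · obtain ⟨D, hD⟩ := (hO J β R T E I k 0 P.ω P.K (P.c k) (P.c 0) h).1
      exact ⟨D, fun _ => hD⟩
    · exact ⟨0, fun h' => absurd h' h⟩
  choose D hD using hex
  set g : Fin 5 → (β → Bool) → (R → Bool) → ℝ := fun n u a =>
    sd (I.phi (role n) a) P.ω P.K (P.c (role n)) (menu n u) with hg
  set bad : Fin 5 → (β → Bool) → (R → Bool) → Prop := fun n u c =>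
    th ≤ 𝔼 a, g n u a ∧ I.ssd (role n) P.ω P.K (P.c (role n)) (menu n u) c (D (role n)) < x with hbad
  have h1 : ∀ n : Fin 5, n ≠ 0 → ∀ u, dens (fun c => P.C0 c ∧ bad n u c) ≤ y := by
    intro n hn u
    by_cases hu : th ≤ 𝔼 a, g n u a
    · obtain ⟨hr1, hr2⟩ := (hO J β R T E I (role n) 0 P.ω P.K (P.c (role n)) (P.c 0)
        (hok n hn)).2 _ (hD (role n) (hok n hn))
      refine le_trans (dens_mono fun c hc => ?_) (hDN R (g n u) P.C0 (D (role n)) hm
        (fun a => ⟨sd_nonneg (fun _ => dens_nonneg _) _ _ _ _,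
          sd_le_one (fun _ => dens_le_one _) _ _ _ _⟩) (hth.trans hu) ?_ ?_)
      · exact ⟨hc.1, hc.2.2⟩
      · refine hr1.trans (le_trans ?_ hoff)
        have : (#P.K : ℝ) ≤ r := by exact_mod_cast P.hK
        have h4 : (0 : ℝ) ≤ 4 * 2 ^ J := by positivity
        nlinarith
      · intro a c ha hc
        obtain ⟨τ, hτ⟩ := exists_pos_of_ex_pos ha
        obtain ⟨g1, hg1⟩ := exists_pos_of_ex_pos hτ
        obtain ⟨f1, hf1⟩ := exists_of_dens_pos hg1
        obtain ⟨g2, f2, hg2⟩ := P.mem c hc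
        exact (hr2 (fun B => menu n u B (τ B)) (fun _ => (0, 0))
          (fun B _ => dis_menu n (u B) (τ B) hn) a c).1 g1 f1 g2 f2 hf1 hg2
    · have : dens (fun c => P.C0 c ∧ bad n u c) ≤ dens (fun _ : R → Bool => False) :=
        dens_mono fun c hc => hu hc.2.1
      refine this.trans ?_
      unfold QX.dens
      simp only [ind_neg not_false, ex_const]
      exact (Real.exp_pos _).le
  set S : (R → Bool) → ℝ := fun c => ∑ n ∈ (univ : Finset (Fin 5)).erase 0,
    ∑ u : β → Bool, lam u * ind (bad n u c) with hS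
  have h2 : 𝔼 c, ind (P.C0 c) * S c ≤ th1 * dens P.C0 := by
    have e1 : ∀ c, ind (P.C0 c) * S c = ∑ n ∈ (univ : Finset (Fin 5)).erase 0,
        ∑ u : β → Bool, lam u * ind (P.C0 c ∧ bad n u c) := by
      intro c
      simp only [hS]
      rw [Finset.mul_sum]
      refine Finset.sum_congr rfl fun n _ => ?_
      rw [Finset.mul_sum]
      refine Finset.sum_congr rfl fun u _ => ?_
      rw [ind_and (P.C0 c)]; ring
    simp only [e1]
    rw [ex_sum]
    have e2 : ∀ n ∈ (univ : Finset (Fin 5)).erase 0, 𝔼 c, ∑ u : β → Bool,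
        lam u * ind (P.C0 c ∧ bad n u c) ≤ (Fintype.card β + 1) * y := by
      intro n hn
      rw [ex_sum]
      have : ∀ u ∈ (univ : Finset (β → Bool)), 𝔼 c, lam u * ind (P.C0 c ∧ bad n u c) ≤
          lam u * y := by
        intro u _
        rw [ex_mul_left]
        exact mul_le_mul_of_nonneg_left (h1 n (Finset.ne_of_mem_erase hn) u) (lam_nonneg u)
      refine (Finset.sum_le_sum this).trans ?_
      rw [← Finset.sum_mul]
      exact mul_le_mul_of_nonneg_right (hL β).1 (Real.exp_pos _).le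
    refine (Finset.sum_le_sum e2).trans ?_
    rw [Finset.sum_const, nsmul_eq_mul]
    have e3 : (#((univ : Finset (Fin 5)).erase 0) : ℝ) = 4 := by
      norm_num [Finset.card_erase_of_mem]
    rw [e3]
    have := P.hC
    nlinarith
  have h3 : ∃ c, P.C0 c ∧ S c ≤ th1 := by
    by_contra hc
    push Not at hc
    obtain ⟨c0, hc0⟩ := exists_of_dens_pos (lt_of_lt_of_le (by linarith) P.hC)
    have : 𝔼 c, th1 * ind (P.C0 c) < 𝔼 c, ind (P.C0 c) * S c := by
      refine Finset.expect_lt_expect (fun c _ => ?_) ⟨c0, mem_univ _, ?_⟩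
      · by_cases h : P.C0 c
        · rw [ind_pos h]; linarith [hc c h]
        · rw [ind_neg h]; linarith
      · rw [ind_pos hc0]; linarith [hc c0 hc0]
    rw [ex_mul_left] at this
    exact absurd h2 (not_le.2 this)
  obtain ⟨c0, hc0, hS0⟩ := h3
  refine ⟨{ ω := P.ω, K := P.K, c := P.c, a0 := c0, D := D,
            Good := fun u => th ≤ hd (I.phi 0 c0) P.ω P.K (P.c 0) (pat0 u) ∧ ∀ n : Fin 5, n ≠ 0 →
              x ≤ I.ssd (role n) P.ω P.K (P.c (role n)) (menu n u) c0 (D (role n)),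
            hK := P.hK, hD := hD, bad := ?_, g0 := fun u hu => (hxy.trans hth).trans hu.1,
            g1 := fun u hu => hu.2 }⟩
  intro p hp0 hp1
  have e1 : ∀ u : β → Bool, ind (¬ (th ≤ hd (I.phi 0 c0) P.ω P.K (P.c 0) (pat0 u) ∧
      ∀ n : Fin 5, n ≠ 0 → x ≤ I.ssd (role n) P.ω P.K (P.c (role n)) (menu n u) c0 (D (role n)))) ≤
      ind (hd (I.phi 0 c0) P.ω P.K (P.c 0) (pat0 u) < th) +
        ∑ n ∈ (univ : Finset (Fin 5)).erase 0, (ind (𝔼 a, g n u a < th) + ind (bad n u c0)) := by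
    intro u
    have hnn : ∀ n, 0 ≤ ind (𝔼 a, g n u a < th) + ind (bad n u c0) := fun n =>
      add_nonneg (ind_nonneg _) (ind_nonneg _)
    have hs0 := Finset.sum_nonneg (s := (univ : Finset (Fin 5)).erase 0) fun n _ => hnn n
    by_cases a1 : th ≤ hd (I.phi 0 c0) P.ω P.K (P.c 0) (pat0 u)
    · by_cases a2 : ∀ n : Fin 5, n ≠ 0 →
          x ≤ I.ssd (role n) P.ω P.K (P.c (role n)) (menu n u) c0 (D (role n))
      · rw [ind_neg (not_not.2 ⟨a1, a2⟩)]
        exact add_nonneg (ind_nonneg _) hs0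
      · push Not at a2
        obtain ⟨n, hn, hlt⟩ := a2
        have b1 := Finset.single_le_sum (s := (univ : Finset (Fin 5)).erase 0)
          (f := fun n => ind (𝔼 a, g n u a < th) + ind (bad n u c0)) (fun n _ => hnn n)
          (Finset.mem_erase.2 ⟨hn, mem_univ n⟩)
        have b2 : 1 ≤ ind (𝔼 a, g n u a < th) + ind (bad n u c0) := by
          by_cases b3 : 𝔼 a, g n u a < th
          · rw [ind_pos b3]; linarith [ind_nonneg (bad n u c0)]
          · rw [ind_neg b3, ind_pos (show bad n u c0 from ⟨not_lt.1 b3, hlt⟩)]; linarith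
        have b4 := ind_nonneg (hd (I.phi 0 c0) P.ω P.K (P.c 0) (pat0 u) < th)
        refine (ind_le_one _).trans ?_
        linarith
    · rw [ind_pos (not_le.1 a1)]
      refine (ind_le_one _).trans ?_
      linarith
  have e2 : ∑ u : β → Bool, mu p u * ind (¬ (th ≤ hd (I.phi 0 c0) P.ω P.K (P.c 0) (pat0 u) ∧
      ∀ n : Fin 5, n ≠ 0 → x ≤ I.ssd (role n) P.ω P.K (P.c (role n)) (menu n u) c0 (D (role n)))) ≤
      ∑ u : β → Bool, lam u * (ind (hd (I.phi 0 c0) P.ω P.K (P.c 0) (pat0 u) < th) +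
        ∑ n ∈ (univ : Finset (Fin 5)).erase 0, (ind (𝔼 a, g n u a < th) + ind (bad n u c0))) :=
    Finset.sum_le_sum fun u _ => mul_le_mul ((hL β).2 p hp0 hp1 u) (e1 u) (ind_nonneg _)
      (lam_nonneg u)
  refine e2.trans ?_
  simp only [mul_add, Finset.sum_add_distrib, Finset.mul_sum]
  rw [Finset.sum_comm (s := univ) (t := (univ : Finset (Fin 5)).erase 0),
    Finset.sum_comm (s := univ) (t := (univ : Finset (Fin 5)).erase 0)]
  have a0 := P.g0 c0 hc0
  have a1 : ∑ n ∈ (univ : Finset (Fin 5)).erase 0, ∑ u : β → Bool,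
      lam u * ind (𝔼 a, g n u a < th) ≤ 4 * th1 := by
    refine (Finset.sum_le_sum fun n hn => P.g1 n (Finset.ne_of_mem_erase hn)).trans ?_
    rw [Finset.sum_const, nsmul_eq_mul]
    have e3 : (#((univ : Finset (Fin 5)).erase 0) : ℝ) = 4 := by
      norm_num [Finset.card_erase_of_mem]
    rw [e3]
  simp only [hS] at hS0
  linarith

end Pool.Agent.Lib.QY
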