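import Pool.Agent.Lib.QY.Blue
import Pool.Agent.Lib.QX.R_TP

/-! A common frame for the tags of the three roles. -/

namespace Pool.Agent.Lib.QY

open Finset Pool.Agent.Lib.QX
open scoped BigOperators

namespace SPL1

theorem act_inj (y g g' : Y) (h : act g y = act g' y) : g = g' := by
  obtain ⟨a, b, c⟩ := g
  obtain ⟨a', b', c'⟩ := g'
  obtain ⟨d, e, f⟩ := y
  simp only [act, Prod.mk.injEq] at h ⊢
  obtain ⟨h1, h2, h3⟩ := h
  exact ⟨add_right_cancel h1, Bool.xor_left_inj.1 h2, Bool.xor_left_inj.1 h3⟩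

variable {γ : Type} [Fintype γ] [DecidableEq γ]

/-- the point of role `k` in the frame `ω` with letters `f` -/
def pt (k : Fin 4) (ω : γ → Gp) (f : γ → Y) : γ → Gp :=
  fun B x => act (ω B x) (emb k (f B) x)

theorem ex_pt (Φ : (γ → Gp) → ℝ) (k : Fin 4) (f : γ → Y) :
    𝔼 ω : γ → Gp, Φ (pt k ω f) = 𝔼 z, Φ z := by
  have hi : Function.Injective fun ω : γ → Gp => pt k ω f := by
    intro ω ω' h
    funext B x
    exact act_inj _ _ _ (congrFun (congrFun h B) x)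
  exact ex_equiv (Equiv.ofBijective _ (Finite.injective_iff_bijective.1 hi)) Φ

theorem good_dens (Φ : (γ → Gp) → ℝ) (μ : ℝ) (k : Fin 4) (hμ : 0 ≤ μ) (h1 : ∀ z, Φ z ≤ 1)
    (hm : μ ≤ 𝔼 z, Φ z) :
    μ / 2 ≤ dens fun ω : γ → Gp => μ / 2 ≤ 𝔼 f : γ → Y, Φ (pt k ω f) := by
  have h := dens_ge_of_ex (f := fun ω : γ → Gp => 𝔼 f : γ → Y, Φ (pt k ω f)) (a := μ / 2)
    (by linarith) (fun ω => ex_le fun f => h1 _)
  have h2 : 𝔼 ω : γ → Gp, 𝔼 f : γ → Y, Φ (pt k ω f) = 𝔼 z, Φ z := by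
    rw [ex_comm (fun (ω : γ → Gp) (f : γ → Y) => Φ (pt k ω f))]
    rw [Finset.expect_congr rfl fun f _ => ex_pt Φ k f, ex_const]
  rw [h2] at h
  linarith

theorem far_lt (G : (γ → Gp) → Prop) (r : ℕ) (μ : ℝ) (hG : μ / 2 ≤ dens G)
    (hr : 6 * Real.exp (-((r : ℝ) ^ 2 / Fintype.card γ)) < μ) :
    dens (fun ω : γ → Gp => ¬ ∃ y, G y ∧ hammingDist ω y ≤ r) < 1 / 3 := by
  have h := st_NEAR (st_TP2 st_TP) Gp γ G r
  have h0 := dens_nonneg fun ω : γ → Gp => ¬ ∃ y, G y ∧ hammingDist ω y ≤ r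
  have he := Real.exp_pos (-((r : ℝ) ^ 2 / Fintype.card γ))
  by_contra hc
  have hc' := not_lt.1 hc
  have h3 := mul_le_mul hG hc' (by norm_num) (dens_nonneg G)
  linarith

theorem freeze (Φ : (γ → Gp) → ℝ) (k : Fin 4) (K : Finset γ) (ω ω' : γ → Gp) (a : ℝ)
    (h : ∀ B, B ∉ K → ω B = ω' B) (ha : a ≤ 𝔼 f : γ → Y, Φ (pt k ω' f)) :
    ∃ c : γ → Gp, a ≤ 𝔼 f : {B // B ∉ K} → Y,
      Φ fun B => if h : B ∈ K then c B else fun x => act (ω B x) (emb k (f ⟨B, h⟩) x) := by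
  let e : ({B // B ∈ K} → Y) × ({B // B ∉ K} → Y) ≃ (γ → Y) :=
    (Equiv.piEquivPiSubtypeProd (fun B => B ∈ K) fun _ => Y).symm
  rw [← ex_equiv e fun f => Φ (pt k ω' f), ex_prod] at ha
  obtain ⟨f1, hf1⟩ := exists_ge_ex fun f1 : {B // B ∈ K} → Y =>
    𝔼 f2 : {B // B ∉ K} → Y, Φ (pt k ω' (e (f1, f2)))
  refine ⟨fun B => if hB : B ∈ K then fun x => act (ω' B x) (emb k (f1 ⟨B, hB⟩) x) else ω B,
    (ha.trans hf1).trans (le_of_eq (Finset.expect_congr rfl fun f2 _ => congrArg Φ ?_))⟩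
  funext B
  by_cases hB : B ∈ K
  · have : e (f1, f2) B = f1 ⟨B, hB⟩ := dif_pos hB
    simp only [dif_pos hB]
    rw [← this]
    rfl
  · have : e (f1, f2) B = f2 ⟨B, hB⟩ := dif_neg hB
    rw [dif_neg hB, ← this, h B hB]
    rfl

end SPL1

open SPL1 in
theorem bSPL1 : SPL1 := by
  intro γ _ _ Φ μ r hΦ hm hr
  have hμ : 0 ≤ μ := by
    have := Real.exp_pos (-((r : ℝ) ^ 2 / Fintype.card γ))
    linarith
  have hf := fun k => far_lt _ r μ (good_dens Φ μ k hμ (fun z => (hΦ z).2) hm) hr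
  let F : Fin 4 → (γ → Gp) → Prop := fun k ω =>
    ¬ ∃ y, (μ / 2 ≤ 𝔼 f : γ → Y, Φ (pt k y f)) ∧ hammingDist ω y ≤ r
  have hF : ∀ k, dens (F k) < 1 / 3 := hf
  have h1 := dens_or_le (F 0) fun ω => F 2 ω ∨ F 3 ω
  have h2 := dens_or_le (F 2) (F 3)
  have h3 := dens_not fun ω => F 0 ω ∨ F 2 ω ∨ F 3 ω
  obtain ⟨ω, hω⟩ := exists_of_dens_pos (A := fun ω => ¬ (F 0 ω ∨ F 2 ω ∨ F 3 ω))
    (by linarith [hF 0, hF 2, hF 3])
  obtain ⟨y0, g0, d0⟩ := not_not.1 fun h : F 0 ω => hω (Or.inl h)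
  obtain ⟨y2, g2, d2⟩ := not_not.1 fun h : F 2 ω => hω (Or.inr (Or.inl h))
  obtain ⟨y3, g3, d3⟩ := not_not.1 fun h : F 3 ω => hω (Or.inr (Or.inr h))
  let S : (γ → Gp) → Finset γ := fun y => univ.filter fun B => ω B ≠ y B
  let K : Finset γ := S y0 ∪ S y2 ∪ S y3
  have hK : #K ≤ 3 * r := by
    have a1 : #K ≤ #(S y0 ∪ S y2) + #(S y3) := Finset.card_union_le _ _
    have a2 : #(S y0 ∪ S y2) ≤ #(S y0) + #(S y2) := Finset.card_union_le _ _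
    have e0 : #(S y0) ≤ r := d0
    have e2 : #(S y2) ≤ r := d2
    have e3 : #(S y3) ≤ r := d3
    omega
  have hout : ∀ B, B ∉ K → ω B = y0 B ∧ ω B = y2 B ∧ ω B = y3 B := by
    intro B hB
    simp only [K, S, Finset.mem_union, Finset.mem_filter, Finset.mem_univ, true_and, not_or,
      not_not] at hB
    exact ⟨hB.1.1, hB.1.2, hB.2⟩
  have key : ∀ k : Fin 4, ∃ c : γ → Gp, k ≠ 1 → μ / 2 ≤ 𝔼 f : {B // B ∉ K} → Y,
      Φ fun B => if h : B ∈ K then c B else fun x => act (ω B x) (emb k (f ⟨B, h⟩) x) := by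
    intro k
    have hk : k = 0 ∨ k = 1 ∨ k = 2 ∨ k = 3 := by revert k; decide
    rcases hk with rfl | rfl | rfl | rfl
    · obtain ⟨c, hc⟩ := freeze Φ 0 K ω y0 _ (fun B hB => (hout B hB).1) g0
      exact ⟨c, fun _ => hc⟩
    · exact ⟨ω, fun h => absurd rfl h⟩
    · obtain ⟨c, hc⟩ := freeze Φ 2 K ω y2 _ (fun B hB => (hout B hB).2.1) g2
      exact ⟨c, fun _ => hc⟩
    · obtain ⟨c, hc⟩ := freeze Φ 3 K ω y3 _ (fun B hB => (hout B hB).2.2) g3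
      exact ⟨c, fun _ => hc⟩
  choose c hc using key
  exact ⟨ω, K, c, hK, hc⟩

end Pool.Agent.Lib.QY
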