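import Pool.Agent.Lib.QY.Blue

/-! Splitting the tags along a given decomposition. -/

namespace Pool.Agent.Lib.QY

open Finset Pool.Agent.Lib.QX
open scoped BigOperators

namespace SPL2

section
variable {γ α κ : Type}

/-- a tag from groups of twelve letters and free letters -/
def glue (e : κ ≃ (γ × (Fin 4 × Fin 3)) ⊕ α) (z : γ → Gp) (a : α → Y) : κ → Y :=
  fun i => Sum.elim (fun p => z p.1 p.2) a (e i)

/-- gluing as a bijection -/
def glueE (e : κ ≃ (γ × (Fin 4 × Fin 3)) ⊕ α) : ((γ → Gp) × (α → Y)) ≃ (κ → Y) where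
  toFun p := glue e p.1 p.2
  invFun f := (fun B x => f (e.symm (Sum.inl (B, x))), fun i => f (e.symm (Sum.inr i)))
  left_inv p := by
    refine Prod.ext ?_ ?_
    · funext B x
      simp only [glue, Equiv.apply_symm_apply, Sum.elim_inl]
    · funext i
      simp only [glue, Equiv.apply_symm_apply, Sum.elim_inr]
  right_inv f := by
    funext i
    obtain ⟨u, rfl⟩ := e.symm.surjective i
    rcases u with ⟨B, x⟩ | u
    · simp only [glue, Equiv.apply_symm_apply, Sum.elim_inl]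
    · simp only [glue, Equiv.apply_symm_apply, Sum.elim_inr]

variable [Fintype γ] [DecidableEq γ] [Fintype α] [DecidableEq α] [Fintype κ] [DecidableEq κ]

theorem ex_glue (e : κ ≃ (γ × (Fin 4 × Fin 3)) ⊕ α) (Φ : (κ → Y) → ℝ) :
    𝔼 z : γ → Gp, 𝔼 a : α → Y, Φ (glue e z a) = 𝔼 f, Φ f := by
  rw [← ex_equiv (glueE e) Φ, ex_prod]
  rfl

omit [DecidableEq γ] [DecidableEq α] [DecidableEq κ] in
theorem dT_glue (j : ℕ) (e : κ ≃ (γ × (Fin 4 × Fin 3)) ⊕ α) (z z' : γ → Gp) (a a' : α → Y) :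
    dT j (glue e z a) (glue e z' a') =
      2 * ∑ B, ∑ x, hl j (z B x) (z' B x) + dT j a a' := by
  unfold dT
  rw [← Equiv.sum_comp e.symm, Fintype.sum_sum_type, Fintype.sum_prod_type, mul_add]
  simp only [glue, Equiv.apply_symm_apply, Sum.elim_inl, Sum.elim_inr]

end

theorem hl_self (j : ℕ) (y : Y) : hl j y y = 0 := by
  simp [hl, al, pa]

theorem dT_self {κ : Type} [Fintype κ] (j : ℕ) (f : κ → Y) : dT j f f = 0 := by
  simp [dT, hl_self]

theorem dT_le {κ : Type} [Fintype κ] (j : ℕ) (f g : κ → Y) :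
    dT j f g ≤ 4 * 12 ^ j * Fintype.card κ := by
  have h : ∑ i, hl j (f i) (g i) ≤ ∑ _i : κ, 2 * 12 ^ j :=
    Finset.sum_le_sum fun i _ => hl_le j _ _
  rw [Finset.sum_const, Finset.card_univ, smul_eq_mul] at h
  unfold dT
  nlinarith

theorem grp_le (j : ℕ) (u w : Gp) : ∑ x, hl j (u x) (w x) ≤ 2 * 12 ^ (j + 1) := by
  have h : ∑ x, hl j (u x) (w x) ≤ ∑ _x : Fin 4 × Fin 3, 2 * 12 ^ j :=
    Finset.sum_le_sum fun i _ => hl_le j _ _
  rw [Finset.sum_const, Finset.card_univ, smul_eq_mul, Fintype.card_prod, Fintype.card_fin,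
    Fintype.card_fin] at h
  rw [pow_succ]
  omega

section
variable {γ : Type} [Fintype γ] [DecidableEq γ]

/-- the groups of a role -/
def zz (ω : γ → Gp) (K : Finset γ) (c : Fin 4 → γ → Gp) (k : Fin 4) (f : {B // B ∉ K} → Y) :
    γ → Gp :=
  fun B => if h : B ∈ K then c k B else fun x => act (ω B x) (emb k (f ⟨B, h⟩) x)

/-- half of the cross distance on the groups -/
def cr (j : ℕ) (K : Finset γ) (c : Fin 4 → γ → Gp) (k k' : Fin 4) : ℕ :=
  ∑ B, if B ∈ K then ∑ x, hl j (c k B x) (c k' B x) else 12 ^ (j + 1)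

theorem same (hE : EMB) (j : ℕ) (ω : γ → Gp) (K : Finset γ) (c : Fin 4 → γ → Gp) (k : Fin 4)
    (f g : {B // B ∉ K} → Y) :
    ∑ B, ∑ x, hl j (zz ω K c k f B x) (zz ω K c k g B x) = ∑ B, hl (j + 1) (f B) (g B) := by
  rw [← Fintype.sum_subtype_add_sum_subtype (fun B => B ∈ K)]
  rw [Finset.sum_eq_zero, zero_add]
  · refine Finset.sum_congr rfl fun B _ => ?_
    simp only [zz, dif_neg B.2]
    exact (hE j (ω B) (f B) (g B)).1 k
  · refine fun B _ => Finset.sum_eq_zero fun x _ => ?_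
    simp only [zz, dif_pos B.2, hl_self]

theorem crossed (hE : EMB) (j : ℕ) (ω : γ → Gp) (K : Finset γ) (c : Fin 4 → γ → Gp)
    {k k' : Fin 4} (hk : Ok k k') (f g : {B // B ∉ K} → Y) :
    ∑ B, ∑ x, hl j (zz ω K c k f B x) (zz ω K c k' g B x) = cr j K c k k' := by
  refine Finset.sum_congr rfl fun B _ => ?_
  by_cases h : B ∈ K
  · simp only [zz, dif_pos h, if_pos h]
  · simp only [zz, dif_neg h, if_neg h]
    exact (hE j (ω B) (f ⟨B, h⟩) (g ⟨B, h⟩)).2 k k' hk

theorem sum_K (K : Finset γ) (a : ℕ) : ∑ B, (if B ∈ K then a else 0) = #K * a := by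
  rw [Finset.sum_ite_mem, Finset.univ_inter, Finset.sum_const, smul_eq_mul]

theorem cr_le (j : ℕ) (K : Finset γ) (c : Fin 4 → γ → Gp) (k k' : Fin 4) :
    cr j K c k k' ≤ Fintype.card γ * 12 ^ (j + 1) + #K * 12 ^ (j + 1) := by
  have h : cr j K c k k' ≤ ∑ B : γ, (12 ^ (j + 1) + if B ∈ K then 12 ^ (j + 1) else 0) := by
    refine Finset.sum_le_sum fun B _ => ?_
    have := grp_le j (c k B) (c k' B)
    split_ifs <;> omega
  rwa [Finset.sum_add_distrib, sum_K, Finset.sum_const, Finset.card_univ, smul_eq_mul] at h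

theorem le_cr (j : ℕ) (K : Finset γ) (c : Fin 4 → γ → Gp) (k k' : Fin 4) :
    Fintype.card γ * 12 ^ (j + 1) ≤ cr j K c k k' + #K * 12 ^ (j + 1) := by
  have h : ∑ _B : γ, 12 ^ (j + 1) ≤
      ∑ B : γ, ((if B ∈ K then ∑ x, hl j (c k B x) (c k' B x) else 12 ^ (j + 1)) +
        if B ∈ K then 12 ^ (j + 1) else 0) := by
    refine Finset.sum_le_sum fun B _ => ?_
    split_ifs <;> omega
  rwa [Finset.sum_add_distrib, sum_K, Finset.sum_const, Finset.card_univ, smul_eq_mul] at h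

theorem card_off (K : Finset γ) : Fintype.card {B // B ∉ K} + #K = Fintype.card γ := by
  rw [Fintype.card_subtype, Finset.filter_notMem_eq_sdiff,
    Finset.card_sdiff_add_card_eq_card (Finset.subset_univ K), Finset.card_univ]

end

end SPL2

open SPL2 in
theorem bSPL2 (hE : EMB) (h1 : SPL1) (h3 : MIX3) : SPL2 := by
  intro j s γ α κ _ _ _ _ _ _ e Φ H r μ hH hΦ hμ hr hα
  have hμ0 : 0 < μ := lt_trans (by positivity) hr
  obtain ⟨ω, K, c, hK, hc⟩ := h1 γ (fun z => 𝔼 a : α → Y, Φ (glue e z a)) μ r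
    (fun z => ⟨ex_nonneg fun a => (hΦ _).1, ex_le fun a => (hΦ _).2⟩)
    (by rw [ex_glue]; exact hμ) hr
  have hB : ∀ k : Fin 4, k ≠ 1 →
      μ / 4 ≤ dens (fun a : α → Y => μ / 4 ≤ 𝔼 f, Φ (glue e (zz ω K c k f) a)) := by
    intro k hk
    have h2 : μ / 2 ≤ 𝔼 f, 𝔼 a : α → Y, Φ (glue e (zz ω K c k f) a) := hc k hk
    rw [ex_comm] at h2
    have h4 := dens_ge_of_ex (X := α → Y) (f := fun a => 𝔼 f, Φ (glue e (zz ω K c k f) a))
      (a := μ / 4) (by linarith) (fun a => ex_le fun f => (hΦ _).2)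
    linarith
  obtain ⟨a, ha, hd⟩ := h3 j s α (fun k a => μ / 4 ≤ 𝔼 f, Φ (glue e (zz ω K c k f) a))
    (fun k k' => (H : ℤ) - 2 * cr j K c k k') (μ / 4) (by linarith) hB
    (fun k k' => Even.sub ((Int.even_coe_nat H).2 hH) (even_two_mul _)) hα
  have hoff := card_off K
  have hκ : Fintype.card κ = Fintype.card γ * 12 + Fintype.card α := by
    rw [Fintype.card_congr e, Fintype.card_sum, Fintype.card_prod, Fintype.card_prod,
      Fintype.card_fin, Fintype.card_fin]
  refine ⟨{B // B ∉ K}, inferInstance, inferInstance, fun k f => glue e (zz ω K c k f) (a k),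
    fun k k' => 2 * cr j K c k k' + dT j (a k) (a k'), by omega, by omega, ?_, ?_, ha⟩
  · intro k f g
    rw [dT_glue, dT_self, same hE, add_zero]
    rfl
  · intro k k' hk
    refine ⟨fun f g => by rw [dT_glue, crossed hE j ω K c hk], ?_, ?_⟩
    · have h5 := hd k k' hk
      push_cast
      rwa [sub_sub] at h5
    · have a1 : (cr j K c k k' : ℝ) ≤ Fintype.card γ * 12 ^ (j + 1) + #K * 12 ^ (j + 1) := by
        exact_mod_cast cr_le j K c k k'
      have a2 : (Fintype.card γ : ℝ) * 12 ^ (j + 1) ≤ cr j K c k k' + #K * 12 ^ (j + 1) := by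
        exact_mod_cast le_cr j K c k k'
      have a3 : (dT j (a k) (a k') : ℝ) ≤ 4 * 12 ^ j * Fintype.card α := by
        exact_mod_cast dT_le j (a k) (a k')
      have a4 : (0 : ℝ) ≤ dT j (a k) (a k') := Nat.cast_nonneg _
      have a5 : (#K : ℝ) ≤ 3 * r := by exact_mod_cast hK
      have a6 : (#K : ℝ) * 12 ^ j ≤ 3 * r * 12 ^ j :=
        mul_le_mul_of_nonneg_right a5 (by positivity)
      rw [pow_succ] at a1 a2
      rw [hκ, abs_le]
      push_cast
      constructor <;> nlinarith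

end Pool.Agent.Lib.QY
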