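import Pool.Agent.Lib.QY.Blue

/-! Row SPLIT: the arithmetic of the splitting of the tags. -/

namespace Pool.Agent.Lib.QY

open Finset Pool.Agent.Lib.QX
open scoped BigOperators

namespace SPLIT

lemma sizes (τ : ℝ) (m : ℕ) (h0 : 0 < τ) (h1 : τ ≤ 1 / 200) (hm : 1 ≤ τ * m) :
    ∃ g a r : ℕ, m = 12 * g + a ∧ 0 < g ∧ τ * m ≤ a ∧ (a : ℝ) ≤ 13 * (τ * m) ∧ τ * m ≤ r ∧
      (r : ℝ) ≤ 2 * (τ * m) := by
  have hm0 : (0 : ℝ) ≤ m := Nat.cast_nonneg m
  have hτm : τ * m ≤ m / 200 := by nlinarith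
  have hx : 0 ≤ ((m : ℝ) - τ * m) / 12 := by linarith
  have hf := Nat.floor_le hx
  have hf' := Nat.lt_floor_add_one (((m : ℝ) - τ * m) / 12)
  set g := ⌊((m : ℝ) - τ * m) / 12⌋₊ with hg
  have h12 : 12 * g ≤ m := by
    have : ((12 * g : ℕ) : ℝ) ≤ m := by push_cast; linarith
    exact_mod_cast this
  obtain ⟨a, ha⟩ := Nat.exists_eq_add_of_le h12
  have ha' : (m : ℝ) = 12 * g + a := by exact_mod_cast ha
  have hc := Nat.le_ceil (τ * m)
  have hc' := Nat.ceil_lt_add_one (show 0 ≤ τ * m by linarith)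
  refine ⟨g, a, ⌈τ * m⌉₊, ha, ?_, by linarith, by linarith, hc, by linarith⟩
  have : (0 : ℝ) < g := by linarith
  exact_mod_cast this

lemma exp1 (τ e m g r : ℝ) (h0 : 0 < τ) (hg : 0 < g) (hgm : g ≤ m) (hr : τ * m ≤ r)
    (he : e ≤ τ ^ 2 / 2) (hm : 12 ≤ τ ^ 2 * m) :
    6 * Real.exp (-(r ^ 2 / g)) < Real.exp (-(e * m)) := by
  have hm0 : 0 < m := by linarith
  have hτm : 0 < τ * m := mul_pos h0 hm0
  have h1 : τ ^ 2 * m ≤ r ^ 2 / g := by
    rw [le_div_iff₀ hg]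
    have h2 : (τ * m) ^ 2 ≤ r ^ 2 := pow_le_pow_left₀ hτm.le hr 2
    have h3 : τ ^ 2 * m * g ≤ τ ^ 2 * m * m := mul_le_mul_of_nonneg_left hgm (by linarith)
    nlinarith
  have h4 : e * m ≤ τ ^ 2 / 2 * m := mul_le_mul_of_nonneg_right he hm0.le
  have h5 : Real.exp (-(r ^ 2 / g)) * Real.exp 6 ≤ Real.exp (-(e * m)) := by
    rw [← Real.exp_add]
    exact Real.exp_le_exp.2 (by linarith)
  have h6 : (6 : ℝ) + 1 ≤ Real.exp 6 := Real.add_one_le_exp 6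
  have h7 := Real.exp_pos (-(r ^ 2 / g))
  nlinarith

lemma exp2 (τ e m a μ P Q : ℝ) (hQ : 0 < Q) (hm0 : 0 ≤ m) (ha : τ * m ≤ a)
    (he : e ≤ τ / (400 * Q)) (hm : 1600 * P * (200 * Q) ≤ τ * m)
    (hμ : Real.exp (-(e * m)) ≤ μ) :
    100 * P * Real.exp (-(a / (100 * Q))) ≤ (μ / 4) ^ 2 := by
  have h1 : e * m ≤ τ * m / (400 * Q) := by
    have := mul_le_mul_of_nonneg_right he hm0
    rwa [div_mul_eq_mul_div] at this
  have h2 : τ * m / (100 * Q) ≤ a / (100 * Q) := div_le_div_of_nonneg_right ha (by linarith)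
  have h3 : 1600 * P ≤ τ * m / (200 * Q) := by
    rw [le_div_iff₀ (by linarith)]
    exact hm
  have e1 : τ * m / (100 * Q) = 4 * (τ * m / (400 * Q)) := by field_simp; ring
  have e2 : τ * m / (200 * Q) = 2 * (τ * m / (400 * Q)) := by field_simp; ring
  have h4 : Real.exp (-(a / (100 * Q))) * Real.exp (1600 * P) ≤ Real.exp (-(e * m)) ^ 2 := by
    rw [← Real.exp_add, sq, ← Real.exp_add]
    exact Real.exp_le_exp.2 (by linarith)
  have h5 : 1600 * P + 1 ≤ Real.exp (1600 * P) := Real.add_one_le_exp _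
  have h6 := Real.exp_pos (-(a / (100 * Q)))
  have h7 : Real.exp (-(e * m)) ^ 2 ≤ μ ^ 2 := pow_le_pow_left₀ (Real.exp_pos _).le hμ 2
  have h8 : Real.exp (-(a / (100 * Q))) * (1600 * P + 1) ≤
      Real.exp (-(a / (100 * Q))) * Real.exp (1600 * P) := mul_le_mul_of_nonneg_left h5 h6.le
  nlinarith

end SPLIT

theorem bSPLIT (h2 : SPL2) : SPLIT := by
  intro j s η hη
  have hW : (0 : ℝ) < 12 ^ j := by positivity
  have hQ : (0 : ℝ) < 4 ^ s := by positivity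
  have hP : (0 : ℝ) < 8 ^ s := by positivity
  obtain ⟨τ, h0, h1, hτ⟩ : ∃ τ : ℝ, 0 < τ ∧ τ ≤ 1 / 200 ∧ 340 * 12 ^ j * τ ≤ η := by
    refine ⟨min (1 / 200) (η / (340 * 12 ^ j)), lt_min (by norm_num) (by positivity),
      min_le_left _ _, ?_⟩
    have := min_le_right (1 / 200 : ℝ) (η / (340 * 12 ^ j))
    rw [le_div_iff₀ (by positivity)] at this
    linarith
  refine ⟨min (τ ^ 2 / 2) (τ / (400 * 4 ^ s)), lt_min (by positivity) (by positivity),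
    ⌈12 / τ ^ 2⌉₊ + ⌈1600 * 8 ^ s * (200 * 4 ^ s) / τ⌉₊, ?_⟩
  intro κ _ _ Φ H hH hΦ hm hμ
  have hm0 : (0 : ℝ) ≤ Fintype.card κ := Nat.cast_nonneg _
  have hm1 : 12 ≤ τ ^ 2 * Fintype.card κ := by
    have h : 12 / τ ^ 2 ≤ (Fintype.card κ : ℝ) :=
      Nat.ceil_le.1 (le_trans (Nat.le_add_right _ _) hm)
    rw [div_le_iff₀ (by positivity)] at h
    linarith
  have hm2 : 1600 * 8 ^ s * (200 * 4 ^ s) ≤ τ * Fintype.card κ := by
    have h : 1600 * 8 ^ s * (200 * 4 ^ s) / τ ≤ (Fintype.card κ : ℝ) :=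
      Nat.ceil_le.1 (le_trans (Nat.le_add_left _ _) hm)
    rw [div_le_iff₀ h0] at h
    linarith
  have hm3 : 1 ≤ τ * Fintype.card κ := by
    have h : 0 ≤ τ * Fintype.card κ := mul_nonneg h0.le hm0
    nlinarith
  obtain ⟨g, a, r, hs, hg, ha1, ha2, hr1, hr2⟩ := SPLIT.sizes τ (Fintype.card κ) h0 h1 hm3
  have hs' : (Fintype.card κ : ℝ) = 12 * g + a := by exact_mod_cast hs
  have hg' : (0 : ℝ) < g := by exact_mod_cast hg
  have ha0 : (0 : ℝ) ≤ a := Nat.cast_nonneg _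
  have e : κ ≃ (Fin g × (Fin 4 × Fin 3)) ⊕ Fin a := Fintype.equivOfCardEq (by
    simp only [Fintype.card_sum, Fintype.card_prod, Fintype.card_fin]
    omega)
  obtain ⟨κ', i1, i2, ψ, c, k1, k2, k3, k4, k5⟩ := h2 j s (Fin g) (Fin a) κ e Φ H r (𝔼 f, Φ f)
    hH hΦ le_rfl
    (by
      rw [Fintype.card_fin]
      exact lt_of_lt_of_le (SPLIT.exp1 τ _ (Fintype.card κ) g r h0 hg' (by linarith) hr1
        (min_le_left _ _) hm1) hμ)
    (by
      rw [Fintype.card_fin]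
      exact SPLIT.exp2 τ _ (Fintype.card κ) a _ _ _ hQ hm0 ha1 (min_le_right _ _) hm2 hμ)
  rw [Fintype.card_fin] at k1 k2
  simp only [Fintype.card_fin] at k4
  have k2' : (g : ℝ) ≤ Fintype.card κ' + 3 * r := by exact_mod_cast k2
  have hτm : τ * Fintype.card κ ≤ Fintype.card κ / 200 := by nlinarith
  have key : 4 * 12 ^ j * (36 * (r : ℝ) + a) ≤ η * Fintype.card κ := by
    have u1 : 36 * (r : ℝ) + a ≤ 85 * (τ * Fintype.card κ) := by linarith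
    have u2 := mul_le_mul_of_nonneg_left u1 (show (0 : ℝ) ≤ 4 * 12 ^ j by positivity)
    have u3 := mul_le_mul_of_nonneg_right hτ hm0
    nlinarith
  refine ⟨κ', i1, i2, ψ, c, ?_, by omega, ?_, k3, fun k k' hk => ⟨(k4 k k' hk).1, (k4 k k' hk).2.1,
    le_trans (k4 k k' hk).2.2 key⟩, k5⟩
  · have : (Fintype.card κ : ℝ) ≤ 24 * Fintype.card κ' := by linarith
    exact_mod_cast this
  · have u1 : (Fintype.card κ : ℝ) ≤ 12 * Fintype.card κ' + (36 * r + a) := by linarith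
    have u2 := mul_le_mul_of_nonneg_left u1 (show (0 : ℝ) ≤ 4 * 12 ^ j by positivity)
    rw [pow_succ]
    nlinarith

end Pool.Agent.Lib.QY
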