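import Pool.Agent.Lib.QY.Blue
import Pool.Agent.Lib.QX.R_TP

/-! Tail of the tag distance from a point. -/

namespace Pool.Agent.Lib.QY

open Finset Pool.Agent.Lib.QX
open scoped BigOperators

namespace TAILT

/-- both signs reversed -/
def flp (y : Y) : Y := (y.1, !y.2.1, !y.2.2)

lemma flp_flp (y : Y) : flp (flp y) = y := by
  simp [flp]

lemma al_flp : ∀ y y' : Y, al y (flp y') + al y y' = 2 := by
  decide

lemma pa_flp : ∀ y y' : Y, pa y (flp y') + pa y y' = 1 := by
  decide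

lemma hl_flp (j : ℕ) (y y' : Y) : hl j y (flp y') + hl j y y' = 2 * 12 ^ j := by
  have h1 := al_flp y y'
  have h2 := pa_flp y y'
  have h3 := PW_eq j
  calc hl j y (flp y') + hl j y y'
      = 3 ^ j * (al y (flp y') + al y y') + PW j * (pa y (flp y') + pa y y') := by
        unfold hl; ring
    _ = 2 * 12 ^ j := by rw [h1, h2]; omega

lemma dT_cast {κ : Type} [Fintype κ] (j : ℕ) (f g : κ → Y) :
    (dT j f g : ℝ) = ∑ i, 2 * (hl j (f i) (g i) : ℝ) := by
  rw [dT, ← Finset.mul_sum]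
  push_cast
  rfl

lemma dT_flp {κ : Type} [Fintype κ] (j : ℕ) (f g : κ → Y) :
    (dT j f (fun i => flp (g i)) : ℝ) = 4 * 12 ^ j * Fintype.card κ - dT j f g := by
  rw [dT_cast, dT_cast, eq_sub_iff_add_eq, ← Finset.sum_add_distrib]
  have h : ∀ i, 2 * (hl j (f i) (flp (g i)) : ℝ) + 2 * (hl j (f i) (g i) : ℝ) = 4 * 12 ^ j := by
    intro i
    have h1 : ((hl j (f i) (flp (g i)) + hl j (f i) (g i) : ℕ) : ℝ) = ((2 * 12 ^ j : ℕ) : ℝ) := by
      rw [hl_flp]
    push_cast at h1
    linarith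
  rw [Finset.sum_congr rfl fun i _ => h i, Finset.sum_const, Finset.card_univ, nsmul_eq_mul]
  ring

lemma dT_lip {κ : Type} [Fintype κ] [DecidableEq κ] (j : ℕ) (f x y : κ → Y) :
    (dT j f y : ℝ) - dT j f x ≤ 4 * 12 ^ j * hammingDist x y := by
  rw [dT_cast, dT_cast, ← Finset.sum_sub_distrib, hammingDist, Finset.card_filter]
  push_cast
  rw [Finset.mul_sum]
  refine Finset.sum_le_sum fun i _ => ?_
  by_cases h : x i = y i
  · simp [h]
  · have h1 : ((hl j (f i) (y i) : ℕ) : ℝ) ≤ ((2 * 12 ^ j : ℕ) : ℝ) := by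
      exact_mod_cast hl_le j (f i) (y i)
    have h2 : (0 : ℝ) ≤ hl j (f i) (x i) := Nat.cast_nonneg _
    push_cast at h1
    rw [if_pos h]
    linarith

lemma dens_flp {κ : Type} [Fintype κ] [DecidableEq κ] (A : (κ → Y) → Prop) :
    dens (fun x : κ → Y => A fun i => flp (x i)) = dens A := by
  let e : (κ → Y) ≃ (κ → Y) :=
    { toFun := fun x i => flp (x i)
      invFun := fun x i => flp (x i)
      left_inv := fun x => by funext i; exact flp_flp _
      right_inv := fun x => by funext i; exact flp_flp _ }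
  exact ex_equiv e fun x => ind (A x)

end TAILT

theorem bTAILT : TAILT := by
  intro j κ _ _ n r a hn hr
  have hTP2 : TP2 := st_TP2 st_TP
  have hn0 : 0 ≤ n := (Nat.cast_nonneg _).trans hn
  have hflp := TAILT.dT_flp j a
  have hlip := TAILT.dT_lip j a
  have hW : (0 : ℝ) ≤ 4 * 12 ^ j := by positivity
  generalize (4 * 12 ^ j : ℝ) = W at hflp hlip hW ⊢
  generalize W * (Fintype.card κ : ℝ) = S at hflp ⊢
  have half : 1 / 2 ≤ dens fun x => 2 * (dT j a x : ℝ) ≤ S := by
    have h1 := TAILT.dens_flp fun x => 2 * (dT j a x : ℝ) ≤ S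
    have h2 := dens_not fun x => 2 * (dT j a x : ℝ) ≤ S
    have h3 : dens (fun x => ¬2 * (dT j a x : ℝ) ≤ S) ≤
        dens fun x : κ → Y => 2 * (dT j a (fun i => TAILT.flp (x i)) : ℝ) ≤ S := by
      refine dens_mono fun x hx => ?_
      rw [hflp]
      linarith [not_le.1 hx]
    linarith
  have up : dens (fun x => 2 * W * r < 2 * (dT j a x : ℝ) - S) ≤
      2 * Real.exp (-(r ^ 2 / n)) := by
    have h1 := hTP2 Y κ (fun x => 2 * (dT j a x : ℝ) ≤ S)
      (fun x => 2 * W * r < 2 * (dT j a x : ℝ) - S) r (r / n) (by positivity) fun x y hx hy => by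
        have h2 := hlip x y
        have h3 : W * r < W * hammingDist x y := by linarith
        exact (lt_of_mul_lt_mul_left h3 hW).le
    have h2 : Real.exp ((r / n) ^ 2 * Fintype.card κ - 2 * (r / n) * r) ≤
        Real.exp (-(r ^ 2 / n)) := by
      rw [← RTP.opt]
      exact Real.exp_le_exp.2 (by nlinarith [sq_nonneg (r / n)])
    have h3 := dens_nonneg fun x => 2 * W * r < 2 * (dT j a x : ℝ) - S
    nlinarith
  have dn : dens (fun x => 2 * W * r < -(2 * (dT j a x : ℝ) - S)) ≤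
      2 * Real.exp (-(r ^ 2 / n)) := by
    refine le_trans (le_of_eq ?_) up
    rw [← TAILT.dens_flp fun x => 2 * W * r < 2 * (dT j a x : ℝ) - S]
    congr 1
    funext x
    rw [hflp]
    congr 1
    ring
  have h4 := dens_or_le (fun x => 2 * W * r < 2 * (dT j a x : ℝ) - S)
    fun x => 2 * W * r < -(2 * (dT j a x : ℝ) - S)
  have h5 : dens (fun x => 2 * W * r < |2 * (dT j a x : ℝ) - S|) ≤ dens fun x =>
      2 * W * r < 2 * (dT j a x : ℝ) - S ∨ 2 * W * r < -(2 * (dT j a x : ℝ) - S) :=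
    dens_mono fun x hx => lt_abs.1 hx
  linarith

end Pool.Agent.Lib.QY
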