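import Pool.Agent.Lib.QY.Blue

/-! Tensor powers of an averaging operator, and the operator bound for tags. -/

namespace Pool.Agent.Lib.QY

open Finset Pool.Agent.Lib.QX
open scoped BigOperators

namespace TENS

theorem ex_cons {Z M : Type} [Fintype Z] [AddCommMonoid M] [Module ℚ≥0 M] (n : ℕ)
    (F : (Fin (n + 1) → Z) → M) :
    𝔼 g, F g = 𝔼 y : Z, 𝔼 g' : Fin n → Z, F (Fin.cons y g') := by
  rw [← Fintype.expect_equiv (Fin.consEquiv fun _ : Fin (n + 1) => Z)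
    (fun p => F (Fin.cons p.1 p.2)) F (fun _ => rfl), ← Finset.univ_product_univ,
    Finset.expect_product]

theorem fin_case {Z : Type} [Fintype Z] [Nonempty Z] (K : Z → Z → ℂ) (l : ℝ) (hl : 0 ≤ l)
    (h : ∀ b : Z → ℂ, 𝔼 y, ‖𝔼 y', K y y' * b y'‖ ^ 2 ≤ l * 𝔼 y, ‖b y‖ ^ 2) (n : ℕ) :
    ∀ b : (Fin n → Z) → ℂ,
      𝔼 f : Fin n → Z, ‖𝔼 g : Fin n → Z, (∏ i, K (f i) (g i)) * b g‖ ^ 2 ≤
        l ^ n * 𝔼 g, ‖b g‖ ^ 2 := by
  induction n with
  | zero =>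
    intro b
    simp [Finset.expect]
  | succ n ih =>
    intro b
    have h1 : ∀ (y : Z) (f' : Fin n → Z),
        𝔼 g : Fin (n + 1) → Z, (∏ i, K ((Fin.cons y f' : Fin (n + 1) → Z) i) (g i)) * b g =
          𝔼 y' : Z, K y y' *
            𝔼 g' : Fin n → Z, (∏ i, K (f' i) (g' i)) * b (Fin.cons y' g') := by
      intro y f'
      rw [ex_cons]
      refine Finset.expect_congr rfl fun y' _ => ?_
      rw [Finset.mul_expect]
      refine Finset.expect_congr rfl fun g' _ => ?_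
      rw [Fin.prod_univ_succ]
      simp only [Fin.cons_zero, Fin.cons_succ]
      ring
    rw [ex_cons n (fun f => ‖𝔼 g : Fin (n + 1) → Z, (∏ i, K (f i) (g i)) * b g‖ ^ 2),
      ex_cons n (fun g => ‖b g‖ ^ 2)]
    simp only [h1]
    rw [ex_comm]
    calc 𝔼 f' : Fin n → Z, 𝔼 y : Z, ‖𝔼 y' : Z, K y y' *
            𝔼 g' : Fin n → Z, (∏ i, K (f' i) (g' i)) * b (Fin.cons y' g')‖ ^ 2
        ≤ 𝔼 f' : Fin n → Z, l * 𝔼 y' : Z,
            ‖𝔼 g' : Fin n → Z, (∏ i, K (f' i) (g' i)) * b (Fin.cons y' g')‖ ^ 2 :=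
          ex_mono fun f' => h _
      _ = l * 𝔼 y' : Z, 𝔼 f' : Fin n → Z,
            ‖𝔼 g' : Fin n → Z, (∏ i, K (f' i) (g' i)) * b (Fin.cons y' g')‖ ^ 2 := by
          rw [ex_mul_left, ex_comm]
      _ ≤ l * 𝔼 y' : Z, l ^ n * 𝔼 g' : Fin n → Z, ‖b (Fin.cons y' g')‖ ^ 2 :=
          mul_le_mul_of_nonneg_left (ex_mono fun y' => ih fun g' => b (Fin.cons y' g')) hl
      _ = l ^ (n + 1) * 𝔼 y' : Z, 𝔼 g' : Fin n → Z, ‖b (Fin.cons y' g')‖ ^ 2 := by
          rw [ex_mul_left]; ring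

end TENS

theorem bTENS : TENS := by
  intro Z _ _ K l hl h κ _ _ b
  let e : κ ≃ Fin (Fintype.card κ) := Fintype.equivFin κ
  let E : (Fin (Fintype.card κ) → Z) ≃ (κ → Z) := Equiv.arrowCongr e.symm (Equiv.refl Z)
  have hE : ∀ (f : Fin (Fintype.card κ) → Z) (i : κ), E f i = f (e i) := fun _ _ => rfl
  have h0 := TENS.fin_case K l hl h (Fintype.card κ) fun g => b (E g)
  rw [← ex_equiv E (fun g => ‖b g‖ ^ 2),
    ← ex_equiv E (fun f => ‖𝔼 g : κ → Z, (∏ i, K (f i) (g i)) * b g‖ ^ 2)]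
  refine le_trans (le_of_eq ?_) h0
  refine Finset.expect_congr rfl fun f _ => ?_
  have h2 : 𝔼 g : Fin (Fintype.card κ) → Z, (∏ i, K (f i) (g i)) * b (E g) =
      𝔼 g : κ → Z, (∏ i, K (E f i) (g i)) * b g := by
    refine Fintype.expect_equiv E _ _ fun g => ?_
    simp only [hE]
    rw [Equiv.prod_comp e (fun i => K (f i) (g i))]
  rw [h2]

theorem bOP (h1 : OP1) (h2 : TENS) : OP := by
  intro j s κ _ _ θ b hθ hne
  have h := h2 Y (fun y y' => θ ^ hl j y y') (Real.exp (-(1 / (50 * 4 ^ s)))) (Real.exp_pos _).le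
    (fun b => h1 j s θ b hθ hne) κ b
  simp only [Finset.prod_pow_eq_pow_sum] at h
  have h3 : Real.exp (-(Fintype.card κ / (100 * 4 ^ s))) ^ 2 =
      Real.exp (-(1 / (50 * 4 ^ s))) ^ Fintype.card κ := by
    rw [← Real.exp_nat_mul, ← Real.exp_nat_mul]
    congr 1
    have : (4 : ℝ) ^ s ≠ 0 := by positivity
    push_cast
    field_simp
    ring
  rw [h3]
  exact h

end Pool.Agent.Lib.QY
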