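import Pool.Agent.Lib.QY.Blue
import Pool.Agent.Lib.QX.R_CHILD
import Pool.Agent.Lib.QX.R_TIE

/-! Child instances, parity classes, tying and the normal form, with tags. -/

namespace Pool.Agent.Lib.QY

open Finset Pool.Agent.Lib.QX
open scoped BigOperators

open RCHILD in
theorem bCHILD : CHILD := by
  intro ι σ ι' T E _ _ _ _ _ _ _ _ k d H A v e π k' hR he hk
  have h1 : 𝔼 p : ι → Bool, 𝔼 y : ι' → Bool, 𝔼 f, ind (A (tl (up e π y) p) f) = densT A := by
    rw [ex_comm]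
    simp only [fun y => ex_equiv (tl (up e π y)) fun p => 𝔼 f, ind (A p f)]
    exact ex_const _
  obtain ⟨p, hp⟩ := exists_ge_ex fun p : ι → Bool =>
    𝔼 y : ι' → Bool, 𝔼 f, ind (A (tl (up e π y) p) f)
  refine ⟨fun y => A (tl (up e π y) p), fun y => v (tl (up e π y) p),
    ⟨fun y f hy => hR.1 _ _ hy, fun y f y' g hy hy' h => hR.2 _ _ _ _ hy hy' ?_⟩, h1 ▸ hp⟩
  rw [← h, dw, dw]
  congr 1
  have h2 : ∑ x, (if y (π x) = y' (π x) then 0 else 2 ^ k (e x)) =
      ∑ i, if tl (up e π y) p i = tl (up e π y') p i then 0 else 2 ^ k i :=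
    Fintype.sum_of_injective e he _ _ (fun i hi => by simp [tl, up_off π _ hi])
      fun x => by simp [tl, up_e he]
  rw [← h2, ← sum_fiberwise univ π]
  refine sum_congr rfl fun j _ => ?_
  rw [← hk j, sum_congr rfl (g := fun x => if y j = y' j then 0 else 2 ^ k (e x))
    fun x hx => by rw [(mem_filter.1 hx).2]]
  split_ifs <;> simp

theorem bPAR : PAR := by
  intro ι T _ _ _ k k0 A hk
  let c : (ι → Bool) → ℕ := fun x => ∑ i, if k i = k0 ∧ x i = true then 1 else 0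
  have key : ∀ x y, Even (c x + c y) → 2 * 2 ^ k0 ∣ dw (fun i => 2 ^ k i) x y := by
    intro x y h
    have h1 : 2 * 2 ^ k0 ∣ dw (fun i => 2 ^ k i) x y + 2 ^ k0 * (c x + c y) := by
      simp only [dw, c, ← sum_add_distrib, mul_sum]
      refine dvd_sum fun i _ => ?_
      by_cases h2 : k i = k0
      · cases x i <;> cases y i <;> simp [h2, ← two_mul, mul_comm]
      · have h3 : 2 * 2 ^ k0 ∣ 2 ^ k i := by
          rw [← pow_succ']
          exact pow_dvd_pow 2 (by have := hk i; omega)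
        simp only [h2, false_and, if_false, add_zero, mul_zero]
        split_ifs
        exacts [dvd_zero _, h3]
    refine (Nat.dvd_add_left ?_).1 h1
    rw [mul_comm 2]
    exact Nat.mul_dvd_mul_left _ h.two_dvd
  have h0 : densT A ≤ densT (fun x f => A x f ∧ Even (c x)) +
      densT fun x f => A x f ∧ ¬ Even (c x) := by
    unfold densT
    rw [← ex_add]
    refine ex_mono fun x => ?_
    rw [← ex_add]
    exact ex_mono fun f => (ind_mono fun hx => by tauto).trans (ind_or_le _ _)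
  rcases le_total (densT fun x f => A x f ∧ Even (c x))
    (densT fun x f => A x f ∧ ¬ Even (c x)) with h | h
  · exact ⟨fun x f => A x f ∧ ¬ Even (c x), fun x f hx => hx.1, by linarith,
      fun x f y g hx hy => key x y (Nat.even_add.2 (iff_of_false hx.2 hy.2))⟩
  · exact ⟨fun x f => A x f ∧ Even (c x), fun x f hx => hx.1, by linarith,
      fun x f y g hx hy => key x y (hx.2.add hy.2)⟩

open RTIE

theorem bTIE : TIE := by
  intro ι T E _ _ _ _ _ k d H J k0 A v hR hk h0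
  obtain ⟨e, he, hm⟩ := st_GRP ι (J + 1) (cls k univ J) (fun i => 2 ^ (k0 - i)) (cls_disj k univ J)
  have hke : ∀ x, k (e x) = x.1 := fun x => (mem_cls.1 (hm x)).2
  obtain ⟨A', v', hR', hd⟩ := bCHILD ι _ (Σ i : Fin (J + 1), Fin (#(cls k univ J i) / 2 ^ (k0 - i)))
    T E k d H A v e (fun x => ⟨x.1, x.2.1⟩) (fun j => max j.1 k0) hR he (fun j => by
      simp only [hke]
      rw [sum_fib (fun i => #(cls k univ J i) / 2 ^ (k0 - i)) (fun i => 2 ^ (k0 - i))
        (fun i => 2 ^ (i : ℕ)) j, pow_max])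
  have hc : Fintype.card (Σ i : Fin (J + 1), Fin (#(cls k univ J i) / 2 ^ (k0 - i)))
      = ∑ i : Fin (J + 1), #(cls k univ J i) / 2 ^ (k0 - i) := by
    simp
  have hw := sum_sig (fun i : Fin (J + 1) => #(cls k univ J i) / 2 ^ (k0 - i))
    (fun i => 2 ^ max (i : ℕ) k0)
  have hv := sum_cls k univ J hk (fun i => 2 ^ i)
  refine ⟨_, inferInstance, inferInstance, _, A', v', hR', hd, fun j => ⟨le_max_right _ _,
    max_le (Nat.le_of_lt_succ j.1.2) h0⟩, ?_, ?_, ?_, ?_, ?_⟩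
  · have h1 := sum_cls k univ J hk (fun _ => 1)
    simp only [Finset.sum_const, smul_eq_mul, mul_one, Finset.card_univ] at h1
    rw [hc, h1]
    exact Finset.sum_le_sum fun i _ => Nat.div_le_self _ _
  · have h1 := sum_cls k univ J hk (fun i => if k0 ≤ i then 1 else 0)
    rw [hc, Finset.card_filter, h1]
    refine Finset.sum_le_sum fun i _ => ?_
    split_ifs with h
    · have : k0 - i = 0 := by omega
      rw [this]
      simp
    · simp
  · have h1 := sum_cls k univ J hk (fun i => if i = k0 then 1 else 0)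
    have h2 := sum_sig (fun i : Fin (J + 1) => #(cls k univ J i) / 2 ^ (k0 - i))
      (fun i => if max (i : ℕ) k0 = k0 then 1 else 0)
    rw [Finset.card_filter, Finset.card_filter, h1, h2]
    refine Finset.sum_le_sum fun i _ => ?_
    by_cases h : (i : ℕ) = k0
    · have : k0 - i = 0 := by omega
      rw [this, if_pos h, if_pos (by omega)]
      simp
    · rw [if_neg h]
      simp
  · rw [hw, hv]
    refine Finset.sum_le_sum fun i _ => ?_
    rw [← pow_max, ← mul_assoc]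
    exact Nat.mul_le_mul_right _ (Nat.div_mul_le_self _ _)
  · rw [hw, hv]
    have h3 : ∑ i : Fin (J + 1), (if (i : ℕ) < J then 2 ^ J else 0) = J * 2 ^ J := by
      rw [Fin.sum_univ_castSucc]
      simp
    rw [← h3, ← Finset.sum_add_distrib]
    exact Finset.sum_le_sum fun i _ => rem_le _ _ _ _ (Nat.le_of_lt_succ i.2) h0

theorem bNFORM : NFORM := by
  intro ι T E _ _ _ _ _ k d H J k0 m A v hR hk h0 hm
  obtain ⟨ι', _, _, k', A', v', hR', hd', hk', c1, c2, c3, c4, c5⟩ :=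
    bTIE ι T E k d H J k0 A v hR hk h0
  obtain ⟨R, hRs, hRc⟩ := Finset.exists_subset_card_eq (hm.trans c3)
  have hRk : ∀ a ∈ R, k' a = k0 := fun a ha => (mem_filter.1 (hRs ha)).2
  obtain ⟨e1, he1, hm1⟩ := st_GRP ι' (J + 1) (cls k' Rᶜ J) (fun _ => 4) (cls_disj k' Rᶜ J)
  let β : Type := Σ i : Fin (J + 1), Fin (#(cls k' Rᶜ J i) / 4)
  let e : (β × Fin 4) ⊕ R → ι' := Sum.elim (fun p => e1 ⟨p.1.1, (p.1.2, p.2)⟩) Subtype.val
  have hn : ∀ x, e1 x ∉ R := fun x => mem_compl.1 (mem_cls.1 (hm1 x)).1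
  have he : Function.Injective e := by
    rintro (⟨⟨i, b⟩, c⟩ | a) (⟨⟨i', b'⟩, c'⟩ | a') h
    · have := he1 h
      cases this
      rfl
    · have h' : (a' : ι') = e1 ⟨i, (b, c)⟩ := h.symm
      exact absurd (h' ▸ a'.2) (hn _)
    · have h' : (a : ι') = e1 ⟨i', (b', c')⟩ := h
      exact absurd (h' ▸ a.2) (hn _)
    · exact congrArg Sum.inr (Subtype.ext h)
  have k1 : ∀ p : β × Fin 4, k' (e (Sum.inl p)) = p.1.1 := fun p => (mem_cls.1 (hm1 _)).2
  have k2 : ∀ a : R, k' (e (Sum.inr a)) = k0 := fun a => hRk a a.2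
  obtain ⟨A2, v2, hR2, hd2⟩ := bCHILD ι' _ ((β × Fin 4) ⊕ R) T E k' d H A' v' e id (fun j => k' (e j))
    hR' he (fun j => by
      simp only [id]
      rw [Finset.filter_eq', if_pos (mem_univ _), Finset.sum_singleton])
  obtain ⟨A3, h3, hd3, hp3⟩ := bPAR _ T (fun j => k' (e j)) k0 A2 (fun j => (hk' _).1)
  have hdw := dw_join (fun B : β => (B.1 : ℕ)) k0 (fun j => k' (e j)) k1 k2
  let I : InstT J β R T E d H :=
    { k0 := k0
      kB := fun B => B.1
      A := fun y a => A3 (join y a)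
      v := fun y a => v2 (join y a)
      hk0 := h0
      hk := fun B => by
        rw [← k1 (B, 0)]
        exact hk' _
      ne := fun y a f h => hR2.1 _ _ (h3 _ _ h)
      orth := fun y a f y' a' f' h h' hh =>
        hR2.2 _ _ _ _ (h3 _ _ h) (h3 _ _ h') (by rw [hdw, hh])
      par := fun y a f y' a' f' h h' => by
        rw [← hdw]
        exact hp3 _ _ _ _ h h' }
  have hcR : Fintype.card R = m := by rw [Fintype.card_coe, hRc]
  have hcβ : Fintype.card β = ∑ i : Fin (J + 1), #(cls k' Rᶜ J i) / 4 := by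
    simp [β]
  have hkJ : ∀ x, k' x ≤ J := fun x => (hk' x).2
  refine ⟨β, R, inferInstance, inferInstance, inferInstance, inferInstance, I, hcR, ?_, ?_, ?_, ?_⟩
  · have : 𝔼 f, 𝔼 y, 𝔼 a, ind (I.A y a f) = densT A3 := by
      unfold densT
      rw [ex_comm (fun x f => ind (A3 x f))]
      refine Finset.expect_congr rfl fun f _ => ?_
      rw [← ex_equiv (joinE β R), ex_prod]
      rfl
    rw [this]
    linarith
  · have h1 := sum_cls k' Rᶜ J hkJ (fun _ => 1)
    simp only [Finset.sum_const, smul_eq_mul, mul_one] at h1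
    have h2 := Finset.card_add_card_compl R
    have h4 : ∑ i : Fin (J + 1), #(cls k' Rᶜ J i) ≤
        ∑ i : Fin (J + 1), (4 * (#(cls k' Rᶜ J i) / 4) + 3) :=
      Finset.sum_le_sum fun i _ => by omega
    rw [Finset.sum_add_distrib, ← Finset.mul_sum, ← hcβ, Finset.sum_const, Finset.card_univ,
      Fintype.card_fin, smul_eq_mul] at h4
    omega
  · have h1 := Fintype.card_le_of_injective e he
    rw [Fintype.card_sum, Fintype.card_prod, Fintype.card_fin, hcR] at h1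
    omega
  · have h1 := sum_cls k' Rᶜ J hkJ (fun i => 2 ^ i)
    have h2 := Finset.sum_add_sum_compl R (fun x => 2 ^ k' x)
    have h4 : ∑ x ∈ R, 2 ^ k' x = 2 ^ k0 * m := by
      rw [Finset.sum_congr rfl (g := fun _ => 2 ^ k0) fun x hx => by rw [hRk x hx],
        Finset.sum_const, smul_eq_mul, hRc, mul_comm]
    have h5 : ∑ B : β, 4 * 2 ^ (B.1 : ℕ) =
        ∑ i : Fin (J + 1), #(cls k' Rᶜ J i) / 4 * (4 * 2 ^ (i : ℕ)) :=
      sum_sig (fun i : Fin (J + 1) => #(cls k' Rᶜ J i) / 4) (fun i => 4 * 2 ^ (i : ℕ))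
    have h6 : ∑ i : Fin (J + 1), #(cls k' Rᶜ J i) / 4 * (4 * 2 ^ (i : ℕ)) ≤
        ∑ i : Fin (J + 1), #(cls k' Rᶜ J i) * 2 ^ (i : ℕ) :=
      Finset.sum_le_sum fun i _ => by
        rw [← mul_assoc]
        exact Nat.mul_le_mul_right _ (Nat.div_mul_le_self _ _)
    have h7 : ∑ i : Fin (J + 1), #(cls k' Rᶜ J i) * 2 ^ (i : ℕ) ≤
        ∑ i : Fin (J + 1), (#(cls k' Rᶜ J i) / 4 * (4 * 2 ^ (i : ℕ)) + 3 * 2 ^ J) :=
      Finset.sum_le_sum fun i _ => by
        have a1 : 2 ^ (i : ℕ) ≤ 2 ^ J :=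
          Nat.pow_le_pow_right (by norm_num) (Nat.le_of_lt_succ i.2)
        have a2 : #(cls k' Rᶜ J i) ≤ #(cls k' Rᶜ J i) / 4 * 4 + 3 := by omega
        calc #(cls k' Rᶜ J i) * 2 ^ (i : ℕ)
            ≤ (#(cls k' Rᶜ J i) / 4 * 4 + 3) * 2 ^ (i : ℕ) := Nat.mul_le_mul_right _ a2
          _ = #(cls k' Rᶜ J i) / 4 * (4 * 2 ^ (i : ℕ)) + 3 * 2 ^ (i : ℕ) := by ring
          _ ≤ _ := Nat.add_le_add_left (Nat.mul_le_mul_left _ a1) _
    rw [Finset.sum_add_distrib, Finset.sum_const, Finset.card_univ, Fintype.card_fin,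
      smul_eq_mul] at h7
    have a : ∑ B : β, 4 * 2 ^ (B.1 : ℕ) + 2 ^ k0 * m ≤ ∑ i, 2 ^ k i := by omega
    have b : ∑ i, 2 ^ k i ≤ ∑ B : β, 4 * 2 ^ (B.1 : ℕ) + 2 ^ k0 * m + 4 * (J + 1) * 2 ^ J := by
      have : 4 * (J + 1) * 2 ^ J = (J + 1) * (3 * 2 ^ J) + J * 2 ^ J + 2 ^ J := by ring
      linarith [Nat.zero_le (2 ^ J)]
    have a' : (∑ B : β, 4 * (2 : ℝ) ^ (B.1 : ℕ) + 2 ^ k0 * (m : ℝ)) ≤ ∑ i, (2 : ℝ) ^ k i := by
      exact_mod_cast a
    have b' : ∑ i, (2 : ℝ) ^ k i ≤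
        (∑ B : β, 4 * (2 : ℝ) ^ (B.1 : ℕ) + 2 ^ k0 * (m : ℝ)) + 4 * (J + 1) * 2 ^ J := by
      exact_mod_cast b
    have e0 : tot I.kB I.k0 m = ∑ B : β, 4 * (2 : ℝ) ^ (B.1 : ℕ) + 2 ^ k0 * (m : ℝ) := rfl
    rw [e0, abs_le]
    constructor
    · have : (0 : ℝ) ≤ 4 * (J + 1) * 2 ^ J := by positivity
      linarith
    · linarith

end Pool.Agent.Lib.QY
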