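import Pool.Agent.Lib.QY.Blue

/-! Removing the tags: a letter of level zero is a point on four coordinates. -/

namespace Pool.Agent.Lib.QY

open Finset Pool.Agent.Lib.QX
open scoped BigOperators

namespace TOP

/-- a letter as a point of the four dimensional cube -/
def lt (y : Y) : Fin 4 → Bool := fun r => xor y.2.1 (row y.1.succ r)

theorem lt_dist : ∀ (y y' : Y) (t : Fin 4 → Bool),
    ∑ r, (if xor (t r) (lt y r) = xor (t r) (lt y' r) then 0 else 1) = 2 * al y y' := by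
  intro y y' t
  have h : ∀ r, (xor (t r) (lt y r) = xor (t r) (lt y' r)) ↔ (lt y r = lt y' r) := by
    intro r; cases t r <;> simp
  simp only [h]
  clear h
  revert y y'
  decide +kernel

/-- joining two points along a splitting of the coordinates -/
def jn {ι σ N : Type} (e : ι ⊕ σ ≃ N) (x : ι → Bool) (u : σ → Bool) : N → Bool :=
  fun i => Sum.elim x u (e.symm i)

theorem dw_jn {ι σ N : Type} [Fintype ι] [Fintype σ] [Fintype N] (e : ι ⊕ σ ≃ N)
    (x y : ι → Bool) (u u' : σ → Bool) :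
    dw (fun _ => 2 ^ 0) (jn e x u) (jn e y u') =
      dw (fun _ => 2 ^ 0) x y + dw (fun _ => 2 ^ 0) u u' := by
  unfold dw
  rw [← e.sum_comp, Fintype.sum_sum_type]
  simp [jn]

theorem ex_jn {ι σ N : Type} [Fintype ι] [Fintype σ] [Fintype N] [DecidableEq ι]
    [DecidableEq σ] [DecidableEq N] (e : ι ⊕ σ ≃ N) (F : (N → Bool) → ℝ) :
    𝔼 x : ι → Bool, 𝔼 u : σ → Bool, F (jn e x u) = 𝔼 z, F z := by
  let q : ((ι → Bool) × (σ → Bool)) ≃ (N → Bool) :=
    (Equiv.sumArrowEquivProdArrow ι σ Bool).symm.trans (Equiv.arrowCongr e (Equiv.refl Bool))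
  rw [← ex_equiv q F, ex_prod]
  rfl

/-- the point carried by a tag after the translation `t` -/
def tg {κ : Type} (t : κ × Fin 4 → Bool) (f : κ → Y) : κ × Fin 4 → Bool :=
  fun z => xor (t z) (lt (f z.1) z.2)

theorem ex_tg {κ : Type} [Fintype κ] [DecidableEq κ] (f : κ → Y) (F : (κ × Fin 4 → Bool) → ℝ) :
    𝔼 t : κ × Fin 4 → Bool, F (tg t f) = 𝔼 t, F t := by
  have h : Function.Involutive fun t : κ × Fin 4 → Bool => tg t f := by
    intro t; funext z; simp [tg]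
  exact Fintype.expect_equiv h.toPerm _ _ fun _ => rfl

theorem dw_tg {κ : Type} [Fintype κ] (t : κ × Fin 4 → Bool) (f g : κ → Y) :
    dw (fun _ => 2 ^ 0) (tg t f) (tg t g) = dT 0 f g := by
  unfold dw dT
  rw [Fintype.sum_prod_type, Finset.mul_sum]
  refine Finset.sum_congr rfl fun b _ => ?_
  have := lt_dist (f b) (g b) fun r => t (b, r)
  simp only [hl, PW, pow_zero, one_mul, zero_mul, add_zero]
  exact this

theorem ex_tag {ι κ N : Type} [Fintype ι] [Fintype κ] [Fintype N] [DecidableEq ι]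
    [DecidableEq κ] [DecidableEq N] (e : ι ⊕ κ × Fin 4 ≃ N) (F : (N → Bool) → ℝ) :
    𝔼 t : κ × Fin 4 → Bool, 𝔼 x : ι → Bool, 𝔼 f : κ → Y, F (jn e x (tg t f)) = 𝔼 z, F z := by
  have h : ∀ (x : ι → Bool) (f : κ → Y), 𝔼 t : κ × Fin 4 → Bool, F (jn e x (tg t f)) =
      𝔼 u : κ × Fin 4 → Bool, F (jn e x u) := fun x f => ex_tg f fun u => F (jn e x u)
  have h2 : ∀ x : ι → Bool, 𝔼 t : κ × Fin 4 → Bool, 𝔼 f : κ → Y, F (jn e x (tg t f)) =
      𝔼 u : κ × Fin 4 → Bool, F (jn e x u) := fun x => by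
    rw [ex_comm]
    simp only [h]
    exact ex_const _
  rw [ex_comm, ← ex_jn e F]
  simp only [h2]

theorem exists_tag {ι κ N : Type} [Fintype ι] [Fintype κ] [Fintype N] [DecidableEq ι]
    [DecidableEq κ] [DecidableEq N] (e : ι ⊕ κ × Fin 4 ≃ N) (A : (N → Bool) → Prop) :
    ∃ t : κ × Fin 4 → Bool,
      dens A ≤ densT fun (x : ι → Bool) (f : κ → Y) => A (jn e x (tg t f)) := by
  obtain ⟨t, ht⟩ := exists_ge_ex fun t : κ × Fin 4 → Bool =>
    𝔼 x : ι → Bool, 𝔼 f : κ → Y, ind (A (jn e x (tg t f)))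
  rw [ex_tag e fun z => ind (A z)] at ht
  exact ⟨t, ht⟩

end TOP

open TOP

theorem bTOP (hM : MAIN) : TOP := by
  intro δ hδ
  by_cases h1 : 1 ≤ δ
  · refine ⟨1, one_pos, 0, fun H A E _ _ _ v _ _ _ _ => ?_⟩
    have a1 : (1 - δ) * (2 * (H : ℝ)) ≤ 0 :=
      mul_nonpos_of_nonpos_of_nonneg (by linarith) (by positivity)
    exact a1.trans (Nat.cast_nonneg _)
  have h1' : δ < 1 := not_le.1 h1
  obtain ⟨ε, hε, N0, hL⟩ := hM (δ / 2) (δ / 16) (by linarith) (by linarith)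
  refine ⟨ε / 2, by linarith, N0 + ⌈8 / δ⌉₊, fun H A E _ _ _ v hH hN hA hv => ?_⟩
  obtain ⟨m, hm⟩ : ∃ m : ℕ, m = ⌈δ / 16 * (2 * (H : ℝ))⌉₊ := ⟨_, rfl⟩
  have hH0 : (0 : ℝ) ≤ H := Nat.cast_nonneg _
  have b1 : δ / 16 * (2 * (H : ℝ)) ≤ m := hm ▸ Nat.le_ceil _
  have b2 : (m : ℝ) ≤ δ / 16 * (2 * (H : ℝ)) + 1 := hm ▸ (Nat.ceil_lt_add_one (by positivity)).le
  have b3 : 8 ≤ δ * H := by
    have a1 : 8 / δ ≤ (⌈8 / δ⌉₊ : ℝ) := Nat.le_ceil _
    have a2 : ((⌈8 / δ⌉₊ : ℕ) : ℝ) ≤ H := by exact_mod_cast (by omega : ⌈8 / δ⌉₊ ≤ H)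
    have a3 := (div_le_iff₀ hδ).1 (a1.trans a2)
    linarith
  have b4 : 4 * (m : ℝ) ≤ δ * H := by linarith
  have b5 : δ * H ≤ H := mul_le_of_le_one_left hH0 h1'.le
  have b6 : 4 * m ≤ H := by exact_mod_cast b4.trans b5
  obtain ⟨n, hn⟩ : ∃ n : ℕ, n + 4 * m = 2 * H := ⟨2 * H - 4 * m, by omega⟩
  have hn' : (n : ℝ) + 4 * m = 2 * H := by exact_mod_cast hn
  have hm0 : (0 : ℝ) ≤ m := Nat.cast_nonneg _
  let e : Fin n ⊕ Fin m × Fin 4 ≃ Fin (2 * H) := Fintype.equivOfCardEq (by simp; omega)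
  obtain ⟨t, ht⟩ := exists_tag e A
  have h5 := hL (Fin n) (Fin m) (fun _ => 0) H (fun x f => A (jn e x (tg t f))) E
    (fun x f => v (jn e x (tg t f))) (fun _ => le_rfl) hH (by rw [Fintype.card_fin]; omega)
    (by
      simp only [Fintype.card_fin]
      refine le_trans (mul_le_mul_of_nonneg_left ?_ (by linarith)) b1
      linarith)
    (by simp only [Fintype.card_fin]; omega)
    (by
      simp only [pow_zero, Finset.sum_const, Finset.card_univ, Fintype.card_fin, nsmul_eq_mul,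
        mul_one]
      rw [hn', sub_self, abs_zero]
      positivity)
    (by
      refine le_trans (Real.exp_le_exp.2 ?_) (hA.trans ht)
      simp only [Fintype.card_fin]
      have a1 : (H : ℝ) ≤ n := by linarith
      have a2 := mul_le_mul_of_nonneg_left a1 hε.le
      linarith)
    ⟨fun x f hx => hv.1 _ hx, fun x f y g hx hy hd => hv.2 _ _ hx hy (by
      rw [dw_jn, dw_tg]; exact hd)⟩
  refine le_trans ?_ h5
  simp only [Fintype.card_fin]
  have c1 : (1 - δ / 2) * (2 * (H : ℝ)) ≤ n := by linarith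
  have c2 := mul_le_mul_of_nonneg_left c1 (by linarith : (0 : ℝ) ≤ 1 - δ / 2)
  have c3 : 0 ≤ δ * (δ * H) := by positivity
  linarith

end Pool.Agent.Lib.QY
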