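import Pool.Agent.Lib.QX.Kit

/-! Definitions and rows: dense subsets of weighted cubes with octahedral tags. -/

namespace Pool.Agent.Lib.QY

open Finset Pool.Agent.Lib.QX
open scoped BigOperators

/-- tag letters: a line out of three, a sign, a passive sign -/
abbrev Y : Type := Fin 3 × Bool × Bool

/-- octahedral distance: 0, 1 (different lines), 2 (opposite) -/
def al (y y' : Y) : ℕ := if y.1 = y'.1 then (if y.2.1 = y'.2.1 then 0 else 2) else 1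

/-- passive distance -/
def pa (y y' : Y) : ℕ := if y.2.2 = y'.2.2 then 0 else 1

/-- half of the passive weight at level `j` -/
def PW : ℕ → ℕ
  | 0 => 0
  | j + 1 => 18 * 3 ^ j + 12 * PW j

/-- half of the distance of two letters at level `j` -/
def hl (j : ℕ) (y y' : Y) : ℕ := 3 ^ j * al y y' + PW j * pa y y'

/-- distance of two tags at level `j`; a letter weighs `4 * 12 ^ j` -/
def dT {κ : Type} [Fintype κ] (j : ℕ) (f g : κ → Y) : ℕ := 2 * ∑ i, hl j (f i) (g i)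

/-- translation of a letter -/
def act (g y : Y) : Y := (g.1 + y.1, xor g.2.1 y.2.1, xor g.2.2 y.2.2)

/-- three lines in three letters, orthogonal to each other and to the constant line -/
def tri : Fin 3 → Fin 3 → Fin 3 × Bool :=
  ![![(0, false), (0, true), (1, false)], ![(1, false), (1, false), (2, false)],
    ![(1, false), (2, false), (2, true)]]

/-- the active triple of a role -/
def atr : Fin 4 → Fin 4 := ![0, 0, 1, 2]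

/-- signs of the constant line -/
def sg : Fin 4 → Fin 4 → Bool :=
  ![![false, false, false, false], ![false, false, false, false], ![false, false, false, true],
    ![true, false, false, true]]

/-- groups of twelve letters -/
abbrev Gp : Type := Fin 4 × Fin 3 → Y

/-- a letter of the next level as a group of twelve letters, for role `k` -/
def emb (k : Fin 4) (y : Y) : Gp := fun x =>
  if x.1 = atr k then ((tri y.1 x.2).1, xor (tri y.1 x.2).2 y.2.1, xor (row k x.1) y.2.2)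
  else (0, xor (sg k x.1) y.2.2, xor (row k x.1) y.2.2)

/-- the pairs of roles that have to be orthogonal -/
def Ok (k k' : Fin 4) : Prop := (k = 2 ∧ k' = 0) ∨ (k = 3 ∧ k' = 0) ∨ (k = 2 ∧ k' = 3)

lemma PW_eq (j : ℕ) : 2 * 3 ^ j + PW j = 2 * 12 ^ j := by
  induction j with
  | zero => rfl
  | succ j ih => rw [PW, pow_succ, pow_succ]; omega

lemma hl_comm (j : ℕ) (y y' : Y) : hl j y y' = hl j y' y := by
  simp only [hl, al, pa, eq_comm]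

lemma dT_comm {κ : Type} [Fintype κ] (j : ℕ) (f g : κ → Y) : dT j f g = dT j g f := by
  simp only [dT, hl_comm j (f _)]

lemma hl_le (j : ℕ) (y y' : Y) : hl j y y' ≤ 2 * 12 ^ j := by
  have h1 : al y y' ≤ 2 := by unfold al; split_ifs <;> omega
  have h2 : pa y y' ≤ 1 := by unfold pa; split_ifs <;> omega
  have h3 := Nat.mul_le_mul_left (3 ^ j) h1
  have h4 := Nat.mul_le_mul_left (PW j) h2
  have := PW_eq j
  unfold hl
  omega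

lemma hl_act (j : ℕ) (g y y' : Y) : hl j (act g y) (act g y') = hl j y y' := by
  simp [hl, al, pa, act]

/-- density of a tagged set -/
noncomputable def densT {X T : Type} [Fintype X] [Fintype T] (A : X → T → Prop) : ℝ :=
  𝔼 x, 𝔼 f, ind (A x f)

/-- orthogonal representation with tags -/
def IsRepT {ι T E : Type} [Fintype ι] [NormedAddCommGroup E] [InnerProductSpace ℂ E]
    (k : ι → ℕ) (d : T → T → ℕ) (H : ℕ) (A : (ι → Bool) → T → Prop) (v : (ι → Bool) → T → E) :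
    Prop :=
  (∀ x f, A x f → v x f ≠ 0) ∧ ∀ x f y g, A x f → A y g →
    dw (fun i => 2 ^ k i) x y + d f g = H → inner ℂ (v x f) (v y g) = 0

/-- the lower bound at level `j`, explicit constants -/
def LBat (j : ℕ) (ρ φ ε : ℝ) (N0 : ℕ) : Prop :=
  ∀ (ι κ : Type) [Fintype ι] [DecidableEq ι] [Fintype κ] [DecidableEq κ] (k : ι → ℕ) (H : ℕ)
    (A : (ι → Bool) → (κ → Y) → Prop) (E : Type) [NormedAddCommGroup E] [InnerProductSpace ℂ E]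
    [FiniteDimensional ℂ E] (v : (ι → Bool) → (κ → Y) → E),
    (∀ i, k i ≤ 2 * j) → Even H → N0 ≤ Fintype.card ι →
    ρ * Fintype.card ι ≤ Fintype.card κ → Fintype.card κ ≤ Fintype.card ι →
    |2 * (H : ℝ) - (∑ i, (2 : ℝ) ^ k i + 4 * 12 ^ j * Fintype.card κ)| ≤ ε * Fintype.card ι →
    Real.exp (-(ε * Fintype.card ι)) ≤ densT A → IsRepT k (dT j) H A v →
    φ * Fintype.card ι ≤ Module.finrank ℂ E

/-- the lower bound at level `j` -/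
def LB (j : ℕ) (ρ φ : ℝ) : Prop := ∃ ε : ℝ, 0 < ε ∧ ∃ N0 : ℕ, LBat j ρ φ ε N0

/-- total weight of blocks and reservoir -/
noncomputable def tot {β : Type} [Fintype β] (kB : β → ℕ) (k0 m : ℕ) : ℝ :=
  ∑ B, 4 * (2 : ℝ) ^ kB B + 2 ^ k0 * m

/-- a tagged instance in normal form -/
structure InstT (J : ℕ) (β R T E : Type) [Fintype β] [DecidableEq β] [Fintype R] [DecidableEq R]
    [NormedAddCommGroup E] [InnerProductSpace ℂ E] (d : T → T → ℕ) (H : ℕ) where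
  k0 : ℕ
  kB : β → ℕ
  A : (β → V4) → (R → Bool) → T → Prop
  v : (β → V4) → (R → Bool) → T → E
  hk0 : k0 ≤ J
  hk : ∀ B, k0 ≤ kB B ∧ kB B ≤ J
  ne : ∀ y a f, A y a f → v y a f ≠ 0
  orth : ∀ y a f y' a' f', A y a f → A y' a' f' →
    db kB y y' + 2 ^ k0 * hammingDist a a' + d f f' = H → inner ℂ (v y a f) (v y' a' f') = 0
  par : ∀ y a f y' a' f', A y a f → A y' a' f' →
    2 * 2 ^ k0 ∣ db kB y y' + 2 ^ k0 * hammingDist a a'

/-- three sets, one for each role, with a target for each pair of roles -/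
structure Tri (J : ℕ) (β R T E : Type) [Fintype β] [DecidableEq β] [Fintype R] [DecidableEq R]
    [NormedAddCommGroup E] [InnerProductSpace ℂ E] where
  k0 : ℕ
  kB : β → ℕ
  A : Fin 4 → (β → V4) → (R → Bool) → T → Prop
  v : Fin 4 → (β → V4) → (R → Bool) → T → E
  H : Fin 4 → Fin 4 → ℤ
  off : ℝ
  hk0 : k0 ≤ J
  hk : ∀ B, k0 ≤ kB B ∧ kB B ≤ J
  hH : ∀ k k', Ok k k' → 2 * 2 ^ k0 ∣ H k k'
  hoff : ∀ k k', Ok k k' → |2 * (H k k' : ℝ) - tot kB k0 (Fintype.card R)| ≤ off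
  orth : ∀ k k', Ok k k' → ∀ y a f y' a' f', A k y a f → A k' y' a' f' →
    ((db kB y y' + 2 ^ k0 * hammingDist a a' : ℕ) : ℤ) = H k k' →
    inner ℂ (v k y a f) (v k' y' a' f') = 0
  par : ∀ k k' y a f y' a' f', A k y a f → A k' y' a' f' →
    2 * 2 ^ k0 ∣ db kB y y' + 2 ^ k0 * hammingDist a a'

section
variable {J : ℕ} {β R T E : Type} [Fintype β] [DecidableEq β] [Fintype R] [DecidableEq R]
  [Fintype T] [NormedAddCommGroup E] [InnerProductSpace ℂ E]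

/-- density of the tags over a point -/
noncomputable def Tri.phi (I : Tri J β R T E) (k : Fin 4) (a : R → Bool) : (β → V4) → ℝ :=
  fun y => dens (I.A k y a)

/-- all three sets have density at least `μ` -/
def Tri.Den (I : Tri J β R T E) (μ : ℝ) : Prop := ∀ k, k ≠ 1 → μ ≤ 𝔼 y, 𝔼 a, I.phi k a y

/-- span of the vectors over a family at the reservoir value `a`, all tags -/
def Tri.spanF (I : Tri J β R T E) (k : Fin 4) (ω : β → Om) (K : Finset β) (c : β → V4)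
    (W : β → Pr) (a : R → Bool) : Submodule ℂ E :=
  Submodule.span ℂ {x | ∃ g f, I.A k (fam ω K c W g) a f ∧ x = I.v k (fam ω K c W g) a f}

/-- sliced soft density -/
noncomputable def Tri.ssd (I : Tri J β R T E) (k : Fin 4) (ω : β → Om) (K : Finset β)
    (c : β → V4) (M : β → Fin 4 → Pr) (a0 : R → Bool) (D : ℤ) : ℝ :=
  𝔼 a, ind ((hammingDist a a0 : ℤ) = D) * sd (I.phi k a) ω K c M

/-- dense families have large rank -/
def Tri.Rk (I : Tri J β R T E) (φ ε : ℝ) (N0 : ℕ) : Prop :=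
  ∀ (k : Fin 4) (ω : β → Om) (K : Finset β) (c : β → V4) (W : β → Pr) (a : R → Bool),
    2 * #K ≤ Fintype.card β → 2 * N0 ≤ Fintype.card β →
    I.off + 2 ^ J * (4 * #K + Fintype.card R) ≤ ε * Fintype.card β / 2 →
    Real.exp (-(ε * Fintype.card β / 2)) ≤ hd (I.phi k a) ω K c W →
    φ * ((∑ B, (nl (W B) : ℝ)) - 2 * #K) ≤ Module.finrank ℂ (I.spanF k ω K c W a)

/-- frames, frozen blocks and candidates for the reservoir value of role 0 -/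
structure Pre (I : Tri J β R T E) (μ th th1 : ℝ) (r : ℕ) where
  ω : β → Om
  K : Finset β
  c : Fin 4 → β → V4
  C0 : (R → Bool) → Prop
  hK : #K ≤ r
  hC : μ / 4 ≤ dens C0
  mem : ∀ a, C0 a → ∃ g f, I.A 0 (fam ω K (c 0) (fun _ => (0, 0)) g) a f
  g0 : ∀ a, C0 a →
    ∑ u : β → Bool, lam u * ind (hd (I.phi 0 a) ω K (c 0) (pat0 u) < th) ≤ th1
  g1 : ∀ n : Fin 5, n ≠ 0 → ∑ u : β → Bool, lam u *
    ind (𝔼 a, sd (I.phi (role n) a) ω K (c (role n)) (menu n u) < th) ≤ th1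

/-- the configuration after the choice of the reservoir value of role 0 -/
structure Conf (I : Tri J β R T E) (x θ : ℝ) (r : ℕ) where
  ω : β → Om
  K : Finset β
  c : Fin 4 → β → V4
  a0 : R → Bool
  D : Fin 4 → ℤ
  Good : (β → Bool) → Prop
  hK : #K ≤ r
  hD : ∀ k : Fin 4, Ok k 0 → (cross I.kB K (c k) (c 0) : ℤ) + 2 ^ I.k0 * D k = I.H k 0
  bad : ∀ p : ℝ, 0 ≤ p → p ≤ 1 → ∑ u : β → Bool, mu p u * ind (¬ Good u) ≤ θ
  g0 : ∀ u, Good u → x ≤ hd (I.phi 0 a0) ω K (c 0) (pat0 u)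
  g1 : ∀ u, Good u → ∀ n : Fin 5, n ≠ 0 →
    x ≤ I.ssd (role n) ω K (c (role n)) (menu n u) a0 (D (role n))

/-- the monotone family of subspaces -/
def Conf.P {I : Tri J β R T E} {x θ : ℝ} {r : ℕ} (C : Conf I x θ r) (t : β → Bool) :
    Submodule ℂ E :=
  I.spanF 0 C.ω C.K (C.c 0) (pat0 t) C.a0

end

/-- the gadget -/
def EMB : Prop := ∀ (j : ℕ) (g : Gp) (y y' : Y),
  (∀ k, ∑ x, hl j (act (g x) (emb k y x)) (act (g x) (emb k y' x)) = hl (j + 1) y y') ∧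
  ∀ k k', Ok k k' →
    ∑ x, hl j (act (g x) (emb k y x)) (act (g x) (emb k' y' x)) = 12 ^ (j + 1)

/-- operator bound for a nontrivial root of unity -/
def OP : Prop := ∀ (j s : ℕ) (κ : Type) [Fintype κ] [DecidableEq κ] (θ : ℂ) (b : (κ → Y) → ℂ),
  θ ^ 2 ^ s = 1 → θ ≠ 1 →
  𝔼 f : κ → Y, ‖𝔼 g : κ → Y, θ ^ (∑ i, hl j (f i) (g i)) * b g‖ ^ 2 ≤
    Real.exp (-(Fintype.card κ / (100 * 4 ^ s))) ^ 2 * 𝔼 g, ‖b g‖ ^ 2

/-- mixing of the residue of the distance -/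
def MIX : Prop := ∀ (j s : ℕ) (κ I : Type) [Fintype κ] [DecidableEq κ] [Fintype I]
  (a b : I → (κ → Y) → ℂ) (h : ℤ), Even h →
  𝔼 f, 𝔼 g, (∑ i, (starRingEnd ℂ) (a i f) * b i g).re -
      2 ^ s * Real.exp (-(Fintype.card κ / (100 * 4 ^ s))) *
        ((𝔼 f, ∑ i, ‖a i f‖ ^ 2 + 𝔼 g, ∑ i, ‖b i g‖ ^ 2) / 2) ≤
    2 ^ s * 𝔼 f, 𝔼 g, ind (2 * 2 ^ s ∣ h - dT j f g) * (∑ i, (starRingEnd ℂ) (a i f) * b i g).re

/-- three tags with given residues -/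
def MIX3 : Prop := ∀ (j s : ℕ) (κ : Type) [Fintype κ] [DecidableEq κ]
  (B : Fin 4 → (κ → Y) → Prop) (h : Fin 4 → Fin 4 → ℤ) (x : ℝ), 0 < x →
  (∀ k, k ≠ 1 → x ≤ dens (B k)) → (∀ k k', Even (h k k')) →
  100 * 8 ^ s * Real.exp (-(Fintype.card κ / (100 * 4 ^ s))) ≤ x ^ 2 →
  ∃ a : Fin 4 → κ → Y, (∀ k, k ≠ 1 → B k (a k)) ∧
    ∀ k k', Ok k k' → 2 * 2 ^ s ∣ h k k' - dT j (a k) (a k')

/-- a common frame for the tags of the three roles -/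
def SPL1 : Prop := ∀ (γ : Type) [Fintype γ] [DecidableEq γ] (Φ : (γ → Gp) → ℝ) (μ : ℝ) (r : ℕ),
  (∀ z, 0 ≤ Φ z ∧ Φ z ≤ 1) → μ ≤ 𝔼 z, Φ z →
  6 * Real.exp (-((r : ℝ) ^ 2 / Fintype.card γ)) < μ →
  ∃ (ω : γ → Gp) (K : Finset γ) (c : Fin 4 → γ → Gp), #K ≤ 3 * r ∧ ∀ k, k ≠ 1 →
    μ / 2 ≤ 𝔼 f : {B // B ∉ K} → Y,
      Φ fun B => if h : B ∈ K then c k B else fun x => act (ω B x) (emb k (f ⟨B, h⟩) x)

/-- splitting the tags -/
def SPLIT : Prop := ∀ (j s : ℕ) (η : ℝ), 0 < η → ∃ e : ℝ, 0 < e ∧ ∃ m0 : ℕ,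
  ∀ (κ : Type) [Fintype κ] [DecidableEq κ] (Φ : (κ → Y) → ℝ) (H : ℕ), Even H →
  (∀ f, 0 ≤ Φ f ∧ Φ f ≤ 1) → m0 ≤ Fintype.card κ →
  Real.exp (-(e * Fintype.card κ)) ≤ 𝔼 f, Φ f →
  ∃ (κ' : Type) (_ : Fintype κ') (_ : DecidableEq κ') (ψ : Fin 4 → (κ' → Y) → κ → Y)
    (c : Fin 4 → Fin 4 → ℕ), Fintype.card κ ≤ 24 * Fintype.card κ' ∧
    12 * Fintype.card κ' ≤ Fintype.card κ ∧
    (4 * 12 ^ j * Fintype.card κ : ℝ) ≤ 4 * 12 ^ (j + 1) * Fintype.card κ' + η * Fintype.card κ ∧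
    (∀ k f g, dT j (ψ k f) (ψ k g) = dT (j + 1) f g) ∧
    (∀ k k', Ok k k' → (∀ f g, dT j (ψ k f) (ψ k' g) = c k k') ∧
      2 * 2 ^ s ∣ (H : ℤ) - c k k' ∧
      |2 * (c k k' : ℝ) - 4 * 12 ^ j * Fintype.card κ| ≤ η * Fintype.card κ) ∧
    ∀ k, k ≠ 1 → (𝔼 f, Φ f) / 4 ≤ 𝔼 f, Φ (ψ k f)

/-- tail of the tag distance from a point -/
def TAILT : Prop := ∀ (j : ℕ) (κ : Type) [Fintype κ] [DecidableEq κ] (n r : ℝ) (f : κ → Y),
  (Fintype.card κ : ℝ) ≤ n → 0 ≤ r →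
  dens (fun g => 2 * (4 * 12 ^ j) * r < |2 * (dT j f g : ℝ) - 4 * 12 ^ j * Fintype.card κ|) ≤
    4 * Real.exp (-(r ^ 2 / n))

/-- a child instance -/
def CHILD : Prop :=
  ∀ (ι σ ι' T E : Type) [Fintype ι] [DecidableEq ι] [Fintype σ] [Fintype ι'] [DecidableEq ι']
    [Fintype T] [NormedAddCommGroup E] [InnerProductSpace ℂ E] (k : ι → ℕ) (d : T → T → ℕ)
    (H : ℕ) (A : (ι → Bool) → T → Prop) (v : (ι → Bool) → T → E) (e : σ → ι) (π : σ → ι')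
    (k' : ι' → ℕ), IsRepT k d H A v → Function.Injective e →
    (∀ j, ∑ x with π x = j, 2 ^ k (e x) = 2 ^ k' j) →
    ∃ (A' : (ι' → Bool) → T → Prop) (v' : (ι' → Bool) → T → E),
      IsRepT k' d H A' v' ∧ densT A ≤ densT A'

/-- tying the light coordinates -/
def TIE : Prop :=
  ∀ (ι T E : Type) [Fintype ι] [DecidableEq ι] [Fintype T] [NormedAddCommGroup E]
    [InnerProductSpace ℂ E] (k : ι → ℕ) (d : T → T → ℕ) (H J k0 : ℕ)
    (A : (ι → Bool) → T → Prop) (v : (ι → Bool) → T → E),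
    IsRepT k d H A v → (∀ i, k i ≤ J) → k0 ≤ J →
    ∃ (ι' : Type) (_ : Fintype ι') (_ : DecidableEq ι') (k' : ι' → ℕ)
      (A' : (ι' → Bool) → T → Prop) (v' : (ι' → Bool) → T → E),
      IsRepT k' d H A' v' ∧ densT A ≤ densT A' ∧ (∀ j, k0 ≤ k' j ∧ k' j ≤ J) ∧
      Fintype.card ι' ≤ Fintype.card ι ∧ #{i | k0 ≤ k i} ≤ Fintype.card ι' ∧
      #{i | k i = k0} ≤ #{j | k' j = k0} ∧ ∑ j, 2 ^ k' j ≤ ∑ i, 2 ^ k i ∧
      ∑ i, 2 ^ k i ≤ ∑ j, 2 ^ k' j + J * 2 ^ J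

/-- restriction to a parity class of the light coordinates -/
def PAR : Prop :=
  ∀ (ι T : Type) [Fintype ι] [DecidableEq ι] [Fintype T] (k : ι → ℕ) (k0 : ℕ)
    (A : (ι → Bool) → T → Prop), (∀ i, k0 ≤ k i) →
    ∃ A' : (ι → Bool) → T → Prop, (∀ x f, A' x f → A x f) ∧ densT A ≤ 2 * densT A' ∧
      ∀ x f y g, A' x f → A' y g → 2 * 2 ^ k0 ∣ dw (fun i => 2 ^ k i) x y

/-- normal form -/
def NFORM : Prop :=
  ∀ (ι T E : Type) [Fintype ι] [DecidableEq ι] [Fintype T] [NormedAddCommGroup E]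
    [InnerProductSpace ℂ E] (k : ι → ℕ) (d : T → T → ℕ) (H J k0 m : ℕ)
    (A : (ι → Bool) → T → Prop) (v : (ι → Bool) → T → E),
    IsRepT k d H A v → (∀ i, k i ≤ J) → k0 ≤ J → m ≤ #{i | k i = k0} →
    ∃ (β R : Type) (_ : Fintype β) (_ : DecidableEq β) (_ : Fintype R) (_ : DecidableEq R)
      (I : InstT J β R T E d H), Fintype.card R = m ∧
      densT A ≤ 2 * 𝔼 f, 𝔼 y, 𝔼 a, ind (I.A y a f) ∧
      #{i | k0 ≤ k i} ≤ 4 * Fintype.card β + m + 3 * (J + 1) ∧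
      4 * Fintype.card β + m ≤ Fintype.card ι ∧
      |∑ i, (2 : ℝ) ^ k i - tot I.kB I.k0 m| ≤ 4 * (J + 1) * 2 ^ J

/-- from split tags to three sets with the rank bound -/
def TRI : Prop :=
  ∀ (j : ℕ) (ρ φ ε : ℝ) (N0 : ℕ), 0 ≤ ρ → 0 ≤ φ → 0 ≤ ε → LBat (j + 1) ρ φ ε N0 →
  ∀ (β R κ κ' E : Type) [Fintype β] [DecidableEq β] [Fintype R] [DecidableEq R] [Fintype κ]
    [DecidableEq κ] [Fintype κ'] [DecidableEq κ'] [NormedAddCommGroup E] [InnerProductSpace ℂ E]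
    [FiniteDimensional ℂ E] (H : ℕ) (I : InstT (2 * j) β R (κ → Y) E (dT j) H)
    (ψ : Fin 4 → (κ' → Y) → κ → Y) (c : Fin 4 → Fin 4 → ℕ) (o : ℝ), Even H →
    (∀ k f g, dT j (ψ k f) (ψ k g) = dT (j + 1) f g) →
    (∀ k k', Ok k k' → (∀ f g, dT j (ψ k f) (ψ k' g) = c k k') ∧
      2 * 2 ^ (2 * j) ∣ (H : ℤ) - c k k' ∧
      |2 * ((H : ℝ) - c k k') - tot I.kB I.k0 (Fintype.card R)| ≤ o) →
    |2 * (H : ℝ) - (tot I.kB I.k0 (Fintype.card R) + 4 * 12 ^ (j + 1) * Fintype.card κ')| ≤ o →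
    ρ * (2 * Fintype.card β) ≤ Fintype.card κ' → 2 * Fintype.card κ' ≤ Fintype.card β →
    ∃ I' : Tri (2 * j) β R (κ' → Y) E, I'.off = o ∧ I'.Rk φ ε N0 ∧
      ∀ μ : ℝ, (∀ k, k ≠ 1 → μ ≤ 𝔼 f, 𝔼 y, 𝔼 a, ind (I.A y a (ψ k f))) → I'.Den μ

/-- orthogonality of two families, and the parity of the target distance -/
def ORT : Prop :=
  ∀ (J : ℕ) (β R T E : Type) [Fintype β] [DecidableEq β] [Fintype R] [DecidableEq R] [Fintype T]
    [NormedAddCommGroup E] [InnerProductSpace ℂ E] (I : Tri J β R T E) (k k' : Fin 4)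
    (ω : β → Om) (K : Finset β) (c c' : β → V4), Ok k k' →
    (∃ D : ℤ, (cross I.kB K c c' : ℤ) + 2 ^ I.k0 * D = I.H k k') ∧
    ∀ D : ℤ, (cross I.kB K c c' : ℤ) + 2 ^ I.k0 * D = I.H k k' →
      |2 * (D : ℝ) - Fintype.card R| ≤ I.off + 4 * 2 ^ J * #K ∧
      ∀ (W W' : β → Pr), (∀ B, B ∉ K → Dis (W B) (W' B)) → ∀ a a' : R → Bool,
        (∀ g f g' f', I.A k (fam ω K c W g) a f → I.A k' (fam ω K c' W' g') a' f' →
          Even ((hammingDist a a' : ℤ) - D)) ∧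
        ((hammingDist a a' : ℤ) = D → I.spanF k ω K c W a ⟂ I.spanF k' ω K c' W' a')

/-- choice of the frames -/
def SEL1 : Prop :=
  ∀ (J : ℕ) (β R T E : Type) [Fintype β] [DecidableEq β] [Fintype R] [DecidableEq R] [Fintype T]
    [NormedAddCommGroup E] [InnerProductSpace ℂ E] (I : Tri J β R T E) (μ th th1 : ℝ) (r : ℕ),
    I.Den μ → 0 ≤ th → 0 < th1 → 12 * Real.exp (-((r : ℝ) ^ 2 / Fintype.card β)) < μ →
    16 * (#{K : Finset β | #K ≤ 3 * r} : ℝ) * (Fintype.card β + 1) * th ≤ μ * th1 →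
    Nonempty (Pre I μ th th1 (3 * r))

/-- choice of the reservoir value of role 0 -/
def SEL2 : Prop :=
  ∀ (e3 e2 : ℝ) (m0 : ℕ), DNat e3 e2 m0 → e2 ≤ e3 →
  ∀ (J : ℕ) (β R T E : Type) [Fintype β] [DecidableEq β] [Fintype R] [DecidableEq R] [Fintype T]
    [NormedAddCommGroup E] [InnerProductSpace ℂ E] (I : Tri J β R T E) (μ th th1 : ℝ) (r : ℕ),
    Nonempty (Pre I μ th th1 r) → 0 < μ → 0 < th1 → m0 ≤ Fintype.card R →
    Real.exp (-(e2 * Fintype.card R)) ≤ th →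
    16 * (Fintype.card β + 1) * Real.exp (-(e2 * Fintype.card R)) ≤ μ * th1 →
    I.off + 4 * 2 ^ J * r ≤ e2 * Fintype.card R →
    Nonempty (Conf I (Real.exp (-(e3 * Fintype.card R))) (6 * th1) r)

/-- two orthogonal witnesses for a pair of menus -/
def PAIR : Prop :=
  ∀ (J : ℕ) (φ ε εF : ℝ) (N0 m0 : ℕ), 0 ≤ φ → 0 ≤ ε → FRat εF m0 →
  ∀ (β R T E : Type) [Fintype β] [DecidableEq β] [Fintype R] [DecidableEq R] [Fintype T]
    [NormedAddCommGroup E] [InnerProductSpace ℂ E] [FiniteDimensional ℂ E]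
    (I : Tri J β R T E) (x θ : ℝ) (r r2 : ℕ) (C : Conf I x θ r), I.Rk φ ε N0 →
    12 * Real.exp (-((r2 : ℝ) ^ 2 / Fintype.card β)) < x →
    m0 ≤ Fintype.card R → Real.exp (-(εF * Fintype.card R)) ≤ x / 4 →
    16 * (I.off + 4 * 2 ^ J * (r + 2 * r2)) ≤ Fintype.card R →
    2 * (r + 2 * r2) ≤ Fintype.card β → 2 * N0 ≤ Fintype.card β →
    I.off + 2 ^ J * (4 * (r + 2 * r2) + Fintype.card R) ≤ ε * Fintype.card β / 2 →
    Real.exp (-(ε * Fintype.card β / 2)) ≤ x / 4 →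
    ∀ (t t' : β → Bool) (M1 M2 : β → Fin 4 → Pr) (Typ : (β → Fin 4) → Prop) (L : ℝ),
      (∀ B τ, Dis (M1 B τ) (pat0 t B)) → (∀ B τ, Dis (M2 B τ) (pat0 t' B)) →
      (∀ B τ, Dis (M1 B τ) (M2 B τ)) →
      x ≤ I.ssd 2 C.ω C.K (C.c 2) M1 C.a0 (C.D 2) → x ≤ I.ssd 3 C.ω C.K (C.c 3) M2 C.a0 (C.D 3) →
      1 / 3 ≤ dens Typ →
      (∀ τ, Typ τ → L ≤ ∑ B, ((nl (M1 B (τ B)) : ℝ) + nl (M2 B (τ B)))) →
      ∃ W1 W2 : Submodule ℂ E, W1 ⟂ C.P t ∧ W2 ⟂ C.P t' ∧ W1 ⟂ W2 ∧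
        φ * (L - 4 * (r + 2 * r2)) ≤ Module.finrank ℂ W1 + Module.finrank ℂ W2

/-- the inequality forced by a configuration -/
def CORE : Prop :=
  ∀ (J : ℕ) (φ δ ε εF : ℝ) (N0 m0 : ℕ), 0 < φ → 0 < δ → φ ≤ 1 - δ → 0 ≤ ε → FRat εF m0 →
  ∀ (β R T E : Type) [Fintype β] [DecidableEq β] [Fintype R] [DecidableEq R] [Fintype T]
    [NormedAddCommGroup E] [InnerProductSpace ℂ E] [FiniteDimensional ℂ E]
    (I : Tri J β R T E) (x θ ζ : ℝ) (r r2 : ℕ), I.Rk φ ε N0 → Nonempty (Conf I x θ r) →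
    0 ≤ θ → θ < 1 → 0 ≤ ζ → ζ ≤ φ * Fintype.card β →
    (Module.finrank ℂ E : ℝ) ≤ 4 * φ * Fintype.card β + ζ →
    12 * Real.exp (-((r2 : ℝ) ^ 2 / Fintype.card β)) < x →
    m0 ≤ Fintype.card R → Real.exp (-(εF * Fintype.card R)) ≤ x / 4 →
    16 * (I.off + 4 * 2 ^ J * (r + 2 * r2)) ≤ Fintype.card R →
    2 * (r + 2 * r2) ≤ Fintype.card β → 2 * N0 ≤ Fintype.card β →
    I.off + 2 ^ J * (4 * (r + 2 * r2) + Fintype.card R) ≤ ε * Fintype.card β / 2 →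
    Real.exp (-(ε * Fintype.card β / 2)) ≤ x / 4 →
    δ ^ 2 * φ * Fintype.card β / 256 ≤
      2 * ζ + 12 * φ * (r + 2 * r2) + 8 * θ * φ * Fintype.card β

/-- ascent in normal form -/
def ASCN : Prop :=
  ∀ (J : ℕ) (φ δ ε' : ℝ) (N0 : ℕ), 0 < φ → 0 < δ → φ ≤ 1 - δ → 0 < ε' →
  ∀ ρ0 : ℝ, 0 < ρ0 → ∃ ρ : ℝ, 0 < ρ ∧ ρ ≤ ρ0 ∧ ∃ ε : ℝ, 0 < ε ∧ ∃ b0 : ℕ,
  ∀ (β R T E : Type) [Fintype β] [DecidableEq β] [Fintype R] [DecidableEq R] [Fintype T]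
    [NormedAddCommGroup E] [InnerProductSpace ℂ E] [FiniteDimensional ℂ E]
    (I : Tri J β R T E), I.Rk φ ε' N0 → b0 ≤ Fintype.card β →
    ρ * Fintype.card β ≤ Fintype.card R → (Fintype.card R : ℝ) ≤ 2 * ρ * Fintype.card β →
    0 ≤ I.off → I.off ≤ ε * Fintype.card β → I.Den (Real.exp (-(ε * Fintype.card β))) →
    4 * φ * Fintype.card β * (1 + δ ^ 2 / 4096) ≤ Module.finrank ℂ E

/-- ascent -/
def ASC : Prop :=
  ∀ (j : ℕ) (ρ φ δ : ℝ), 0 < ρ → 0 < φ → 0 < δ → φ ≤ 1 - δ → LB (j + 1) (ρ / 12) φ →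
    LB j ρ (φ * (1 + δ ^ 2 / 10000))

/-- powers of inner products as a Gram kernel -/
def GRAM : Prop :=
  ∀ (E : Type) [NormedAddCommGroup E] [InnerProductSpace ℂ E] [FiniteDimensional ℂ E] (q : ℕ),
    ∃ (I : Type) (_ : Fintype I) (ξ : E → I → ℂ), ∀ e e' : E,
      ∑ i, (starRingEnd ℂ) (ξ e i) * ξ e' i = ((‖inner ℂ e e'‖ ^ (2 * q) : ℝ) : ℂ)

/-- positivity with explicit numbers -/
def POS1 : Prop :=
  ∀ (εF : ℝ) (m0 : ℕ), FRat εF m0 →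
  ∀ (ι κ E : Type) [Fintype ι] [DecidableEq ι] [Fintype κ] [DecidableEq κ]
    [NormedAddCommGroup E] [InnerProductSpace ℂ E] [FiniteDimensional ℂ E] (k : ι → ℕ)
    (H j J k0 : ℕ) (A : (ι → Bool) → (κ → Y) → Prop) (v : (ι → Bool) → (κ → Y) → E)
    (μ n r t z : ℝ) (q : ℕ),
    IsRepT k (dT j) H A v → (∀ i, k0 ≤ k i ∧ k i ≤ J) → Even H →
    (∀ x f y g, A x f → A y g → 2 * 2 ^ k0 ∣ dw (fun i => 2 ^ k i) x y) →
    0 < μ → μ ≤ densT A → m0 ≤ #{i | k i = k0} → (Fintype.card ι : ℝ) ≤ n →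
    (Fintype.card κ : ℝ) ≤ n → 0 ≤ r → 0 < t → t ≤ 1 → 0 < z → z < 1 →
    16 * (|2 * (H : ℝ) - (∑ i, (2 : ℝ) ^ k i + 4 * 12 ^ j * Fintype.card κ)| +
      4 * (2 ^ J + 4 * 12 ^ j) * r) ≤ #{i | k i = k0} →
    Real.exp (-(εF * #{i | k i = k0})) ≤
      Real.exp (-(3 * Module.finrank ℂ E * Real.log (2 / t) + 4)) * (μ / 2) →
    z ^ q * (1 - z) ^ Module.finrank ℂ E ≤ 2 ^ k0 * ((4 * t) ^ q +
      4 * (8 * Real.exp (-(r ^ 2 / n)) +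
        Real.exp (-(Fintype.card κ / (100 * 4 ^ k0)))) / μ ^ 2)

/-- positivity -/
def POS : Prop := ∃ c : ℝ, 0 < c ∧ ∀ (j : ℕ) (ρ L : ℝ), 2 * (j : ℝ) + 3 ≤ L →
  Real.exp (-L) ≤ ρ → LB j ρ (c / L ^ 2)

/-- the bound at level zero -/
def MAIN : Prop := ∀ δ ρ : ℝ, 0 < δ → 0 < ρ → LB 0 ρ (1 - δ)

/-- the bound without tags -/
def TOP : Prop := ∀ δ : ℝ, 0 < δ → ∃ ε : ℝ, 0 < ε ∧ ∃ N0 : ℕ, ∀ (H : ℕ)
  (A : (Fin (2 * H) → Bool) → Prop) (E : Type) [NormedAddCommGroup E] [InnerProductSpace ℂ E]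
  [FiniteDimensional ℂ E] (v : (Fin (2 * H) → Bool) → E), Even H → N0 ≤ H →
  Real.exp (-(ε * (2 * H))) ≤ dens A → IsRep (fun _ => 0) H A v →
  (1 - δ) * (2 * H) ≤ Module.finrank ℂ E

/-- operator bound for one letter -/
def OP1 : Prop := ∀ (j s : ℕ) (θ : ℂ) (b : Y → ℂ), θ ^ 2 ^ s = 1 → θ ≠ 1 →
  𝔼 y : Y, ‖𝔼 y' : Y, θ ^ hl j y y' * b y'‖ ^ 2 ≤
    Real.exp (-(1 / (50 * 4 ^ s))) * 𝔼 y, ‖b y‖ ^ 2

/-- tensor powers of an averaging operator -/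
def TENS : Prop := ∀ (Z : Type) [Fintype Z] [Nonempty Z] (K : Z → Z → ℂ) (l : ℝ), 0 ≤ l →
  (∀ b : Z → ℂ, 𝔼 y, ‖𝔼 y', K y y' * b y'‖ ^ 2 ≤ l * 𝔼 y, ‖b y‖ ^ 2) →
  ∀ (κ : Type) [Fintype κ] [DecidableEq κ] (b : (κ → Z) → ℂ),
    𝔼 f : κ → Z, ‖𝔼 g : κ → Z, (∏ i, K (f i) (g i)) * b g‖ ^ 2 ≤
      l ^ Fintype.card κ * 𝔼 g, ‖b g‖ ^ 2

/-- splitting the tags along a given decomposition -/
def SPL2 : Prop := ∀ (j s : ℕ) (γ α κ : Type) [Fintype γ] [DecidableEq γ] [Fintype α]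
  [DecidableEq α] [Fintype κ] [DecidableEq κ] (_e : κ ≃ (γ × (Fin 4 × Fin 3)) ⊕ α)
  (Φ : (κ → Y) → ℝ) (H r : ℕ) (μ : ℝ), Even H → (∀ f, 0 ≤ Φ f ∧ Φ f ≤ 1) → μ ≤ 𝔼 f, Φ f →
  6 * Real.exp (-((r : ℝ) ^ 2 / Fintype.card γ)) < μ →
  100 * 8 ^ s * Real.exp (-(Fintype.card α / (100 * 4 ^ s))) ≤ (μ / 4) ^ 2 →
  ∃ (κ' : Type) (_ : Fintype κ') (_ : DecidableEq κ') (ψ : Fin 4 → (κ' → Y) → κ → Y)
    (c : Fin 4 → Fin 4 → ℕ), Fintype.card κ' ≤ Fintype.card γ ∧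
    Fintype.card γ ≤ Fintype.card κ' + 3 * r ∧
    (∀ k f g, dT j (ψ k f) (ψ k g) = dT (j + 1) f g) ∧
    (∀ k k', Ok k k' → (∀ f g, dT j (ψ k f) (ψ k' g) = c k k') ∧
      2 * 2 ^ s ∣ (H : ℤ) - c k k' ∧
      |2 * (c k k' : ℝ) - 4 * 12 ^ j * Fintype.card κ| ≤
        4 * 12 ^ j * (36 * r + Fintype.card α)) ∧
    ∀ k, k ≠ 1 → μ / 4 ≤ 𝔼 f, Φ (ψ k f)

end Pool.Agent.Lib.QY
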