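import Pool.Agent.Lib.QY.B_EMB
import Pool.Agent.Lib.QY.B_OP1
import Pool.Agent.Lib.QY.B_TENS
import Pool.Agent.Lib.QY.B_MIX
import Pool.Agent.Lib.QY.B_MIX3
import Pool.Agent.Lib.QY.B_SPL1
import Pool.Agent.Lib.QY.B_SPL2
import Pool.Agent.Lib.QY.B_SPLIT
import Pool.Agent.Lib.QY.B_TAILT
import Pool.Agent.Lib.QY.B_GRAM
import Pool.Agent.Lib.QY.B_TIE
import Pool.Agent.Lib.QY.B_ORT
import Pool.Agent.Lib.QY.B_SEL
import Pool.Agent.Lib.QY.B_PAIR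
import Pool.Agent.Lib.QY.B_CORE
import Pool.Agent.Lib.QY.B_ASCN
import Pool.Agent.Lib.QY.B_ASC
import Pool.Agent.Lib.QY.B_POS1
import Pool.Agent.Lib.QY.B_POS
import Pool.Agent.Lib.QY.B_MAIN
import Pool.Agent.Lib.QY.B_TOP
import Pool.Agent.Lib.QY.B_FIN

/-! Assembly. -/

namespace Pool.Agent.Lib.QY

open Pool.Agent.Lib.MP_5d53d3_co

theorem allMIX : MIX := bMIX (bOP bOP1 bTENS)
theorem allSPLIT : SPLIT := bSPLIT (bSPL2 bEMB bSPL1 (bMIX3 allMIX))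
theorem allASCN : ASCN := bASCN bSEL1 (bSEL2 bORT) (bCORE (bPAIR bORT))
theorem allASC : ASC := bASC bNFORM allSPLIT bTRI allASCN
theorem allPOS : POS := bPOS (bPOS1 bGRAM allMIX bTAILT) bTIE bPAR
theorem allTOP : TOP := bTOP (bMAIN allPOS allASC)

theorem final (δ : ℝ) (hδ : 0 < δ) :
    ∃ ε : ℝ, 0 < ε ∧ ∀ n d : ℕ, 0 < n → 4 ∣ n → 0 < d → (d : ℝ) ≤ (1 - δ) * n →
      Real.exp (ε * n) ≤ chiD (Omega n) d :=
  bFIN allTOP δ hδ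

end Pool.Agent.Lib.QY
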